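import Mathlib

/-!
# Multiplicative functions of matrices
-/

set_option autoImplicit false
set_option linter.unusedSectionVars false

namespace Pool.Agent.Helper1.SP

open Matrix Polynomial

variable {K : Type} [Field K] [CharZero K] {J : Type} [Fintype J] [DecidableEq J]

/-- a polynomial which is multiplicative as a function is a power of the variable -/
lemma poly_mul {G : K[X]} (h1 : G.eval 1 = 1) (hm : ∀ x y, G.eval (x * y) = G.eval x * G.eval y) :
    ∃ m : ℕ, ∀ x, G.eval x = x ^ m := by
  have hG : G ≠ 0 := by
    rintro rfl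
    simp at h1
  have h2 : ∀ j, (2 : K) ^ j * G.coeff j = G.eval 2 * G.coeff j := by
    have h3 : G.comp (C 2 * X) = C (G.eval 2) * G := by
      refine Polynomial.funext fun x => ?_
      rw [eval_comp, eval_mul, eval_C, eval_X, hm, eval_mul, eval_C]
    intro j
    have h4 := congrArg (fun p => p.coeff j) h3
    simp only [comp_C_mul_X_coeff, coeff_C_mul] at h4
    rw [← h4, mul_comm]
  obtain ⟨m, hm0⟩ : ∃ m, G.coeff m ≠ 0 := by
    by_contra h
    push Not at h
    exact hG (Polynomial.ext fun j => by rw [h j, coeff_zero])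
  have h4 : ∀ j, j ≠ m → G.coeff j = 0 := by
    intro j hj
    by_contra h
    have h5 : (2 : K) ^ j = (2 : K) ^ m := by
      rw [mul_right_cancel₀ h (h2 j), mul_right_cancel₀ hm0 (h2 m)]
    have h6 : (2 : ℕ) ^ j = 2 ^ m := by exact_mod_cast h5
    exact hj (Nat.pow_right_injective (le_refl 2) h6)
  have h5 : G = C (G.coeff m) * X ^ m := by
    ext j
    rw [coeff_C_mul, coeff_X_pow]
    split_ifs with h
    · rw [h, mul_one]
    · rw [mul_zero, h4 j h]
  have h6 : G.coeff m = 1 := by
    rw [h5] at h1
    simpa using h1
  refine ⟨m, fun x => ?_⟩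
  conv_lhs => rw [h5]
  rw [h6]
  simp

/-- the diagonal matrix with the entry `x` at `i` and `1` elsewhere -/
def dg (i : J) (x : K) : Matrix J J K := Matrix.diagonal (Function.update 1 i x)

lemma dg_mul (i : J) (x y : K) : dg i x * dg i y = dg i (x * y) := by
  rw [dg, dg, dg, Matrix.diagonal_mul_diagonal]
  congr 1
  ext j
  by_cases h : j = i
  · subst h
    simp
  · simp [Function.update_of_ne h]

lemma dg_one (i : J) : dg i (1 : K) = 1 := by
  rw [dg, show Function.update (1 : J → K) i 1 = 1 by
    ext j
    by_cases h : j = i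
    · subst h
      simp
    · simp [Function.update_of_ne h]]
  exact Matrix.diagonal_one

lemma dg_transvection (i j : J) (hij : i ≠ j) (x c : K) (hx : x ≠ 0) :
    dg i x * Matrix.transvection i j c * dg i x⁻¹ = Matrix.transvection i j (x * c) := by
  have h1 : dg i x * dg i x⁻¹ = 1 := by rw [dg_mul, mul_inv_cancel₀ hx, dg_one]
  rw [Matrix.transvection, Matrix.transvection, mul_add, add_mul, mul_one, h1]
  congr 1
  ext a b
  rw [dg, dg, Matrix.mul_diagonal, Matrix.diagonal_mul, Matrix.single_apply, Matrix.single_apply]
  by_cases ha : a = i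
  · subst ha
    by_cases hb : b = j
    · subst hb
      rw [Function.update_self, Function.update_of_ne (Ne.symm hij)]
      simp
    · simp [Ne.symm hb]
  · simp [Ne.symm ha]

/-- a multiplicative function of matrices, polynomial on the diagonal matrices, is a power of the
determinant -/
lemma mul_char (Φ : Matrix J J K → K) (h1 : Φ 1 = 1) (hm : ∀ X Y, Φ (X * Y) = Φ X * Φ Y)
    (hp : ∀ i, ∃ G : K[X], ∀ x, Φ (dg i x) = G.eval x) :
    ∃ m : ℕ, ∀ X, Φ X = X.det ^ m := by
  -- transvections
  have ht : ∀ i j, i ≠ j → ∀ c, Φ (Matrix.transvection i j c) = 1 := by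
    intro i j hij c
    have h2 : Φ (Matrix.transvection i j (2 * c)) = Φ (Matrix.transvection i j c) := by
      rw [← dg_transvection i j hij 2 c two_ne_zero, hm, hm, mul_right_comm, ← hm, dg_mul,
        mul_inv_cancel₀ two_ne_zero, dg_one, h1, one_mul]
    have h3 : Φ (Matrix.transvection i j (2 * c)) =
        Φ (Matrix.transvection i j c) * Φ (Matrix.transvection i j c) := by
      rw [← hm, Matrix.transvection_mul_transvection_same _ _ hij, two_mul]
    have h4 : Φ (Matrix.transvection i j c) ≠ 0 := by
      intro h0
      have h5 : Φ (Matrix.transvection i j c * Matrix.transvection i j (-c)) = 1 := by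
        rw [Matrix.transvection_mul_transvection_same _ _ hij, add_neg_cancel,
          Matrix.transvection_zero, h1]
      rw [hm, h0, zero_mul] at h5
      exact zero_ne_one h5
    rw [h2] at h3
    exact (mul_left_cancel₀ h4 (by rw [mul_one]; exact h3)).symm
  have htl : ∀ L : List (Matrix.TransvectionStruct J K),
      Φ (L.map Matrix.TransvectionStruct.toMatrix).prod = 1 := by
    intro L
    induction L with
    | nil => simpa using h1
    | cons t L ih =>
      rw [List.map_cons, List.prod_cons, hm, ih, mul_one]
      exact ht _ _ t.hij _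
  -- diagonal matrices
  have hd : ∀ i, ∃ m : ℕ, ∀ x, Φ (dg i x) = x ^ m := by
    intro i
    obtain ⟨G, hG⟩ := hp i
    obtain ⟨m, hm'⟩ := poly_mul (G := G) (by rw [← hG, dg_one, h1])
      (fun x y => by rw [← hG, ← hG, ← hG, ← hm, dg_mul])
    exact ⟨m, fun x => by rw [hG, hm']⟩
  choose m hm' using hd
  have hmm : ∀ i j, m i = m j := by
    intro i j
    have h2 : ∀ x : K, dg i x = (Equiv.swap i j).toPEquiv.toMatrix * dg j x *
        (Equiv.swap i j).toPEquiv.toMatrix := by
      intro x
      rw [PEquiv.toMatrix_toPEquiv_mul, PEquiv.mul_toMatrix_toPEquiv]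
      ext a b
      simp only [dg, Matrix.submatrix_apply, Matrix.diagonal_apply, id, Equiv.symm_swap,
        (Equiv.swap i j).injective.eq_iff]
      split_ifs with hab
      · subst hab
        by_cases hai : a = i
        · subst hai
          rw [Function.update_self, Equiv.swap_apply_left, Function.update_self]
        · rw [Function.update_of_ne hai, Function.update_of_ne, Pi.one_apply, Pi.one_apply]
          intro h
          exact hai ((Equiv.swap i j).injective (h.trans (Equiv.swap_apply_left i j).symm))
      · rfl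
    have h3 : (Equiv.swap i j).toPEquiv.toMatrix * (Equiv.swap i j).toPEquiv.toMatrix =
        (1 : Matrix J J K) := by
      rw [← PEquiv.toMatrix_trans, ← Equiv.toPEquiv_trans]
      simp
    have h4 : Φ (dg i 2) = Φ (dg j 2) := by
      rw [h2, hm, hm, mul_right_comm, ← hm, h3, h1, one_mul]
    rw [hm', hm'] at h4
    have h6 : (2 : ℕ) ^ m i = 2 ^ m j := by exact_mod_cast h4
    exact Nat.pow_right_injective (le_refl 2) h6
  -- the general case
  obtain ⟨m0, hm0⟩ : ∃ m0, ∀ i, m i = m0 := by
    rcases isEmpty_or_nonempty J with h | ⟨⟨i⟩⟩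
    · exact ⟨0, fun i => h.elim i⟩
    · exact ⟨m i, fun j => hmm j i⟩
  have hdiag : ∀ (s : Finset J) (D : J → K), Φ (Matrix.diagonal fun i => if i ∈ s then D i else 1) =
      ∏ i ∈ s, D i ^ m0 := by
    intro s D
    induction s using Finset.induction_on with
    | empty => simpa using h1
    | insert i s hi ih =>
      rw [Finset.prod_insert hi, ← ih, ← hm0 i, ← hm' i, ← hm]
      congr 1
      rw [dg, Matrix.diagonal_mul_diagonal]
      congr 1
      ext j
      by_cases hj : j = i
      · subst hj
        rw [Function.update_self, if_pos (Finset.mem_insert_self _ _), if_neg hi, mul_one]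
      · rw [Function.update_of_ne hj, Pi.one_apply, one_mul]
        simp [Finset.mem_insert, hj]
  refine ⟨m0, fun X => ?_⟩
  obtain ⟨L, L', D, hX⟩ := Matrix.Pivot.exists_list_transvec_mul_diagonal_mul_list_transvec X
  have h5 := hdiag Finset.univ D
  simp only [Finset.mem_univ, if_true] at h5
  rw [hX, hm, hm, htl, htl, one_mul, mul_one, Matrix.det_mul, Matrix.det_mul,
    Matrix.TransvectionStruct.det_toMatrix_prod, Matrix.TransvectionStruct.det_toMatrix_prod,
    one_mul, mul_one, Matrix.det_diagonal, h5, Finset.prod_pow]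

end Pool.Agent.Helper1.SP
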