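import Pool.Agent.Helper1.SP.Tp
import Pool.Agent.Helper1.SP.MulChar

/-!
# The determinant of a block diagonal matrix on a part of the tensor power
-/

set_option autoImplicit false
set_option linter.unusedSectionVars false

namespace Pool.Agent.Helper1.SP

open Matrix

section

variable {E : Type} [Field E] {k : ℕ} {J J' : Type} [Fintype J] [Fintype J'] [DecidableEq J]
  [DecidableEq J'] (c : Equiv.Perm (Fin k) → E) (P : ℕ → Prop) [DecidablePred P]

/-- the determinant of the `k`-th tensor power of a block diagonal matrix on the image of `eps` -/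
noncomputable def dE (R : Type) [CommRing R] [Algebra E R] (g : Matrix J J R) (g' : Matrix J' J' R) :
    R :=
  (1 + (tp k (Matrix.fromBlocks g 0 0 g') - 1) * (eps J J' c P).map (algebraMap E R)).det

lemma map_one_add {n : Type} [Fintype n] [DecidableEq n] {R S : Type} [CommRing R] [CommRing S]
    (f : R →+* S) (A B : Matrix n n R) :
    f (1 + (A - 1) * B).det = (1 + (A.map f - 1) * B.map f).det := by
  rw [RingHom.map_det, map_add, map_mul, map_sub, map_one]
  rfl

lemma dE_nat {R S : Type} [CommRing R] [Algebra E R] [CommRing S] [Algebra E S] (f : R →ₐ[E] S)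
    (g : Matrix J J R) (g' : Matrix J' J' R) :
    f (dE c P R g g') = dE c P S (g.map f) (g'.map f) := by
  have h := map_one_add (f : R →+* S) (tp k (Matrix.fromBlocks g 0 0 g'))
    ((eps J J' c P).map (algebraMap E R))
  have h1 : ((eps J J' c P).map (algebraMap E R)).map (f : R →+* S) =
      (eps J J' c P).map (algebraMap E S) := by
    refine Matrix.ext fun i j => ?_
    rw [Matrix.map_apply, Matrix.map_apply, Matrix.map_apply]
    exact f.commutes _
  have h2 : (Matrix.fromBlocks g 0 0 g').map (f : R →+* S) =
      Matrix.fromBlocks (g.map f) 0 0 (g'.map f) := by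
    rw [Matrix.fromBlocks_map, Matrix.map_zero _ (map_zero _), Matrix.map_zero _ (map_zero _)]
    rfl
  rw [dE, dE]
  refine h.trans ?_
  rw [tp_map, h1, h2]

lemma one_add_mul {n : Type} [Fintype n] [DecidableEq n] {R : Type} [CommRing R]
    {ε G G' : Matrix n n R} (h : ε * ε = ε) (hG' : G' * ε = ε * G') :
    (1 + (G - 1) * ε) * (1 + (G' - 1) * ε) = 1 + (G * G' - 1) * ε := by
  have h1 : (G - 1) * ε * ((G' - 1) * ε) = (G - 1) * (G' - 1) * ε := by
    rw [Matrix.mul_assoc, ← Matrix.mul_assoc ε, Matrix.mul_sub ε, Matrix.mul_one, ← hG',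
      show G' * ε - ε = (G' - 1) * ε by rw [Matrix.sub_mul, Matrix.one_mul], Matrix.mul_assoc,
      h, ← Matrix.mul_assoc]
  rw [Matrix.add_mul, Matrix.one_mul, Matrix.mul_add, Matrix.mul_one, h1]
  noncomm_ring

lemma tp_blocks_mul {R : Type} [CommRing R] (g h : Matrix J J R) (g' h' : Matrix J' J' R) :
    tp k (Matrix.fromBlocks (g * h) 0 0 (g' * h')) =
      tp k (Matrix.fromBlocks g 0 0 g') * tp k (Matrix.fromBlocks h 0 0 h') := by
  rw [← tp_mul, Matrix.fromBlocks_multiply]
  simp

lemma sym_idem_map {R : Type} [CommRing R] [Algebra E R]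
    (hc : sym (J ⊕ J') c * sym (J ⊕ J') c = sym (J ⊕ J') c) :
    sym (J ⊕ J') (fun σ => algebraMap E R (c σ)) * sym (J ⊕ J') (fun σ => algebraMap E R (c σ)) =
      sym (J ⊕ J') (fun σ => algebraMap E R (c σ)) := by
  rw [← sym_map, ← Matrix.map_mul, hc]

lemma dE_mul (hc : sym (J ⊕ J') c * sym (J ⊕ J') c = sym (J ⊕ J') c) {R : Type} [CommRing R]
    [Algebra E R] (g h : Matrix J J R) (g' h' : Matrix J' J' R) :
    dE c P R (g * h) (g' * h') = dE c P R g g' * dE c P R h h' := by
  rw [dE, dE, dE, ← Matrix.det_mul, eps_map, tp_blocks_mul,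
    one_add_mul (eps_eps _ P (sym_idem_map c hc)) (tp_eps _ P h h')]

lemma dE_one {R : Type} [CommRing R] [Algebra E R] :
    dE c P R (1 : Matrix J J R) (1 : Matrix J' J' R) = 1 := by
  rw [dE, Matrix.fromBlocks_one, tp_one, sub_self, zero_mul, add_zero, Matrix.det_one]

lemma tp_scalar {R : Type} [CommRing R] (x y : R) :
    tp k (Matrix.fromBlocks (x • (1 : Matrix J J R)) 0 0 (y • (1 : Matrix J' J' R))) =
      Matrix.diagonal fun f => x ^ (k - cnt f) * y ^ cnt f := by
  ext f f'
  rw [Matrix.diagonal_apply]
  split_ifs with h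
  · subst h
    rw [tp_apply]
    have h1 : ∀ i, Matrix.fromBlocks (x • (1 : Matrix J J R)) 0 0 (y • (1 : Matrix J' J' R))
        (f i) (f i) = if (f i).isRight = true then y else x := by
      intro i
      rcases f i with j | j <;> simp
    rw [Finset.prod_congr rfl fun i _ => h1 i, Finset.prod_ite, Finset.prod_const,
      Finset.prod_const, mul_comm]
    congr 2
    rw [cnt]
    have h2 := Finset.card_filter_add_card_filter_not (s := (Finset.univ : Finset (Fin k)))
      (fun i => (f i).isRight = true)
    rw [Finset.card_univ, Fintype.card_fin] at h2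
    omega
  · obtain ⟨i, hi⟩ := Function.ne_iff.1 h
    refine Finset.prod_eq_zero (Finset.mem_univ i) ?_
    rcases hf : f i with j | j <;> rcases hf' : f' i with j' | j' <;> rw [hf, hf'] at hi <;>
      simp_all

end

lemma pow_dual {K : Type} [CommRing K] (n : ℕ) :
    (1 + DualNumber.eps : DualNumber K) ^ n = 1 + n • DualNumber.eps := by
  induction n with
  | zero => simp
  | succ n ih =>
    rw [pow_succ, ih, add_mul, one_mul, mul_add, mul_one, smul_mul_assoc, DualNumber.eps_mul_eps,
      smul_zero, add_zero, add_smul, one_smul]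
    abel

section

variable {E : Type} [Field E] [CharZero E] {k : ℕ} {J J' : Type} [Fintype J] [Fintype J']
  [DecidableEq J] [DecidableEq J'] (c : Equiv.Perm (Fin k) → E) (P : ℕ → Prop) [DecidablePred P]

/-- the trace from the values on scalar matrices -/
lemma trace_of_scalar {K : Type} [Field K] [CharZero K] [Algebra E K] {m₁ m₂ : ℕ}
    (h : ∀ x y : K, dE c P K (x • (1 : Matrix J J K)) (y • (1 : Matrix J' J' K)) =
      x ^ m₁ * y ^ m₂) :
    (m₁ : E) = (Matrix.diagonal (fun f => ((k - cnt f : ℕ) : E)) * eps J J' c P).trace ∧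
    (m₂ : E) = (Matrix.diagonal (fun f => (cnt f : E)) * eps J J' c P).trace := by
  have key : ∀ (x y : Polynomial K) (w : (Fin k → J ⊕ J') → ℕ) (m : ℕ),
      (∀ z : K, (x.eval z) ^ m₁ * (y.eval z) ^ m₂ = z ^ m) →
      (∀ f, x ^ (k - cnt f) * y ^ cnt f = Polynomial.X ^ w f) →
      (m : E) = (Matrix.diagonal (fun f => (w f : E)) * eps J J' c P).trace := by
    intro x y w m h1 h2
    have h3 : dE c P (Polynomial K) (x • (1 : Matrix J J (Polynomial K)))
        (y • (1 : Matrix J' J' (Polynomial K))) = Polynomial.X ^ m := by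
      refine Polynomial.funext fun z => ?_
      have h4 := dE_nat c P ((Polynomial.aeval z : Polynomial K →ₐ[K] K).restrictScalars E)
        (x • (1 : Matrix J J (Polynomial K))) (y • (1 : Matrix J' J' (Polynomial K)))
      rw [AlgHom.restrictScalars_apply, Polynomial.coe_aeval_eq_eval] at h4
      rw [h4, Polynomial.eval_pow, Polynomial.eval_X, ← h1, ← h]
      have h40 : ∀ (I : Type) [Fintype I] [DecidableEq I] (x : Polynomial K),
          (x • (1 : Matrix I I (Polynomial K))).map
            ((Polynomial.aeval z : Polynomial K →ₐ[K] K).restrictScalars E) =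
          x.eval z • (1 : Matrix I I K) := by
        intro I _ _ x
        refine Matrix.ext fun i j => ?_
        rw [Matrix.map_apply, Matrix.smul_apply, Matrix.smul_apply, Matrix.one_apply,
          Matrix.one_apply, AlgHom.restrictScalars_apply]
        split_ifs
        · simp [Polynomial.coe_aeval_eq_eval]
        · simp
      rw [h40, h40]
    let φ : Polynomial K →ₐ[E] DualNumber K :=
      (Polynomial.aeval (1 + DualNumber.eps : DualNumber K)).restrictScalars E
    have h5 := congrArg φ h3
    have hφX : φ Polynomial.X = 1 + DualNumber.eps := by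
      simp [φ]
    rw [dE, map_pow, hφX, pow_dual] at h5
    have h6 := map_one_add (φ : Polynomial K →+* DualNumber K)
      (tp k (Matrix.fromBlocks (x • (1 : Matrix J J (Polynomial K))) 0 0
        (y • (1 : Matrix J' J' (Polynomial K)))))
      ((eps J J' c P).map (algebraMap E (Polynomial K)))
    rw [show φ _ = _ from h6] at h5
    have h7 : (tp k (Matrix.fromBlocks (x • (1 : Matrix J J (Polynomial K))) 0 0
        (y • (1 : Matrix J' J' (Polynomial K))))).map (φ : Polynomial K →+* DualNumber K) - 1 =
        (DualNumber.eps : DualNumber K) • Matrix.diagonal (fun f => ((w f : ℕ) : DualNumber K)) := by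
      rw [tp_scalar]
      refine Matrix.ext fun f f' => ?_
      rw [Matrix.sub_apply, Matrix.map_apply, Matrix.smul_apply, Matrix.diagonal_apply,
        Matrix.diagonal_apply, Matrix.one_apply]
      split_ifs with hf
      · rw [h2]
        change φ (Polynomial.X ^ w f) - 1 = _
        rw [map_pow, hφX, pow_dual, add_sub_cancel_left, nsmul_eq_mul, smul_eq_mul, mul_comm]
      · simp
    rw [h7, Matrix.smul_mul, Matrix.det_one_add_smul, sq, DualNumber.eps_mul_eps, mul_zero,
      add_zero] at h5
    have h8 := add_left_cancel h5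
    have h9 : (Matrix.diagonal (fun f => ((w f : ℕ) : DualNumber K)) *
        ((eps J J' c P).map (algebraMap E (Polynomial K))).map
          (φ : Polynomial K →+* DualNumber K)).trace =
        algebraMap E (DualNumber K)
          ((Matrix.diagonal (fun f => (w f : E)) * eps J J' c P).trace) := by
      rw [AddMonoidHom.map_trace (algebraMap E (DualNumber K)), Matrix.map_mul]
      have h90 : ((eps J J' c P).map (algebraMap E (Polynomial K))).map
          (φ : Polynomial K →+* DualNumber K) = (eps J J' c P).map (algebraMap E (DualNumber K)) := by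
        refine Matrix.ext fun i j => ?_
        rw [Matrix.map_apply, Matrix.map_apply, Matrix.map_apply]
        exact φ.commutes _
      have h91 : (Matrix.diagonal (fun f : Fin k → J ⊕ J' => (w f : E))).map
          (algebraMap E (DualNumber K)) = Matrix.diagonal (fun f => ((w f : ℕ) : DualNumber K)) := by
        rw [Matrix.diagonal_map (map_zero _)]
        congr 1
        funext f
        exact map_natCast _ _
      rw [h90]
      refine congrArg Matrix.trace ?_
      refine Eq.trans ?_ (congrArg (fun z => z * (eps J J' c P).map (algebraMap E (DualNumber K)))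
        h91).symm
      rfl
    rw [h9] at h8
    have h10 := congrArg TrivSqZeroExt.snd h8
    rw [mul_comm, DualNumber.eps] at h10
    simp only [TrivSqZeroExt.snd_mul] at h10
    have h11 : algebraMap E K ((Matrix.diagonal (fun f => (w f : E)) * eps J J' c P).trace) =
        (m : K) := by
      simpa [TrivSqZeroExt.algebraMap_eq_inl', TrivSqZeroExt.fst_inl] using h10
    exact (FaithfulSMul.algebraMap_injective E K (by rw [h11, map_natCast])).symm
  constructor
  · exact key Polynomial.X 1 (fun f => k - cnt f) m₁ (by simp) (by simp)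
  · exact key 1 Polynomial.X (fun f => cnt f) m₂ (by simp) (by simp)

end

end Pool.Agent.Helper1.SP
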