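import Pool.Agent.Helper1.SP.Frame
import Pool.Agent.Helper1.SP.DetEps

/-!
# The Betti side
-/

set_option autoImplicit false
set_option linter.unusedSectionVars false

namespace Pool.Agent.Helper1.SP

open Pool.Agent.X33.DP Pool.Agent.X33.DP.PMot Matrix Module

variable {E R : Type} [Field E] [CommRing R] [Algebra E R] [CharZero E]

section

variable {M : PMot E R} {s : ℤˣ} {n : ℕ} {B B' : Matrix (Fin M.N) (Fin n) E}
  {C C' : Matrix (Fin n) (Fin M.N) E}

/-- `F_∞` in the basis `B`, `B'` -/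
lemma frob_blocks (hCB : C * B = 1) (hCB' : C' * B' = 1)
    (h : B * C = (2⁻¹ : E) • (1 + ((s : ℤ) : E) • M.F))
    (h' : B' * C' = (2⁻¹ : E) • (1 + (((-s : ℤˣ) : ℤ) : E) • M.F)) :
    Matrix.fromRows C C' * M.F * Matrix.fromCols B B' =
      Matrix.fromBlocks (((s : ℤ) : E) • 1) 0 0 ((-((s : ℤ) : E)) • 1) := by
  have hF : M.F = ((s : ℤ) : E) • (B * C - B' * C') := by
    rw [h, h', ← smul_sub, Units.val_neg, Int.cast_neg, neg_smul]
    rw [show (1 : Matrix (Fin M.N) (Fin M.N) E) + ((s : ℤ) : E) • M.F -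
      (1 + -(((s : ℤ) : E) • M.F)) = (2 : E) • (((s : ℤ) : E) • M.F) by
        rw [two_smul]; abel, smul_smul (2⁻¹ : E), inv_mul_cancel₀ two_ne_zero, one_smul, smul_smul,
        intUnits_mul_self, one_smul]
  have h1 := CB_zero hCB hCB' h h'
  have h2 := CB_zero (s := -s) hCB' hCB h' (by rw [neg_neg]; exact h)
  have e1 : C * M.F = ((s : ℤ) : E) • C := by
    rw [hF, Matrix.mul_smul, Matrix.mul_sub, ← Matrix.mul_assoc, ← Matrix.mul_assoc, hCB, h1,
      Matrix.one_mul, Matrix.zero_mul, sub_zero]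
  have e2 : C' * M.F = (-((s : ℤ) : E)) • C' := by
    rw [hF, Matrix.mul_smul, Matrix.mul_sub, ← Matrix.mul_assoc, ← Matrix.mul_assoc, hCB', h2,
      Matrix.one_mul, Matrix.zero_mul, zero_sub, smul_neg, neg_smul]
  rw [Matrix.fromRows_mul, Matrix.fromRows_mul_fromCols, e1, e2, Matrix.smul_mul, Matrix.smul_mul,
    Matrix.smul_mul, Matrix.smul_mul, hCB, hCB', h1, h2, smul_zero, smul_zero]

end

section

variable {M T : PMot E R} {k : ℕ} {c : Equiv.Perm (Fin k) → E}
  {β : Matrix (Fin T.N) (Fin k → Fin M.N) E} {γ : Matrix (Fin k → Fin M.N) (Fin T.N) E}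
  {n m : ℕ} {B B' : Matrix (Fin M.N) (Fin n) E} {C C' : Matrix (Fin n) (Fin M.N) E}
  {s t : ℤˣ} {BT : Matrix (Fin T.N) (Fin m) E} {CT : Matrix (Fin m) (Fin T.N) E}

/-- the projection to the eigenspace of `F_∞` on `T_B`, in the basis of tensors -/
lemma betti_proj (hk : Odd k) (hβγ : β * γ = 1) (hγβ : γ * β = sym (Fin M.N) c)
    (hfrob : T.F * β = β * tp k M.F) (hCB : C * B = 1) (hCB' : C' * B' = 1)
    (h : B * C = (2⁻¹ : E) • (1 + ((s : ℤ) : E) • M.F))
    (h' : B' * C' = (2⁻¹ : E) • (1 + (((-s : ℤˣ) : ℤ) : E) • M.F))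
    (hT : CT * BT = 1) (hT' : BT * CT = (2⁻¹ : E) • (1 + ((t : ℤ) : E) • T.F)) :
    (CT * β * tp k (Matrix.fromCols B B')) * (tp k (Matrix.fromRows C C') * γ * BT) = 1 ∧
    (tp k (Matrix.fromRows C C') * γ * BT) * (CT * β * tp k (Matrix.fromCols B B')) =
      sym (Fin n ⊕ Fin n) c * Matrix.diagonal (fun f => (2⁻¹ : E) *
        (1 + ((t : ℤ) : E) * ((s : ℤ) : E) * (-1) ^ cnt f)) := by
  obtain ⟨hU, hU'⟩ := frame_inv hCB hCB' h h'
  constructor
  · calc (CT * β * tp k (Matrix.fromCols B B')) * (tp k (Matrix.fromRows C C') * γ * BT)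
        = CT * β * (tp k (Matrix.fromCols B B') * tp k (Matrix.fromRows C C')) * γ * BT := by
          simp only [Matrix.mul_assoc]
      _ = CT * (β * γ) * BT := by
          rw [← tp_mul, hU, tp_one, Matrix.mul_one]
          simp only [Matrix.mul_assoc]
      _ = 1 := by rw [hβγ, Matrix.mul_one, hT]
  · have h1 : tp k (Matrix.fromRows C C') * γ * T.F * β * tp k (Matrix.fromCols B B') =
        sym (Fin n ⊕ Fin n) c * Matrix.diagonal (fun f => ((s : ℤ) : E) * (-1) ^ cnt f) := by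
      calc tp k (Matrix.fromRows C C') * γ * T.F * β * tp k (Matrix.fromCols B B')
          = tp k (Matrix.fromRows C C') * γ * (T.F * β) * tp k (Matrix.fromCols B B') := by
            simp only [Matrix.mul_assoc]
        _ = tp k (Matrix.fromRows C C') * (γ * β) * (tp k M.F * tp k (Matrix.fromCols B B')) := by
            rw [hfrob]
            simp only [Matrix.mul_assoc]
        _ = sym (Fin n ⊕ Fin n) c * (tp k (Matrix.fromRows C C') * (tp k M.F *
              tp k (Matrix.fromCols B B'))) := by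
            rw [hγβ, tp_sym, Matrix.mul_assoc]
        _ = sym (Fin n ⊕ Fin n) c * Matrix.diagonal (fun f => ((s : ℤ) : E) * (-1) ^ cnt f) := by
            rw [← tp_mul, ← tp_mul, ← Matrix.mul_assoc, frob_blocks hCB hCB' h h', tp_scalar]
            congr 2
            funext f
            have h2 : k - cnt f + cnt f = k := Nat.sub_add_cancel (cnt_le f)
            rw [neg_pow, ← mul_assoc, mul_right_comm, ← pow_add, h2]
            congr 1
            obtain ⟨l, hl⟩ := hk
            rw [hl, pow_succ, pow_mul, sq, intUnits_mul_self, one_pow, one_mul]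
    have h0 : tp k (Matrix.fromRows C C') * γ * β * tp k (Matrix.fromCols B B') =
        sym (Fin n ⊕ Fin n) c := by
      rw [Matrix.mul_assoc (tp k (Matrix.fromRows C C')), hγβ, tp_sym, Matrix.mul_assoc, ← tp_mul,
        hU', tp_one, Matrix.mul_one]
    calc (tp k (Matrix.fromRows C C') * γ * BT) * (CT * β * tp k (Matrix.fromCols B B'))
        = tp k (Matrix.fromRows C C') * γ * (BT * CT) * β * tp k (Matrix.fromCols B B') := by
          simp only [Matrix.mul_assoc]
      _ = (2⁻¹ : E) • (sym (Fin n ⊕ Fin n) c + ((t : ℤ) : E) • (sym (Fin n ⊕ Fin n) c *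
            Matrix.diagonal (fun f => ((s : ℤ) : E) * (-1) ^ cnt f))) := by
          rw [hT', Matrix.mul_smul, Matrix.mul_add, Matrix.mul_one, Matrix.mul_smul,
            Matrix.smul_mul, Matrix.smul_mul, Matrix.add_mul, Matrix.add_mul, Matrix.smul_mul,
            Matrix.smul_mul, h1, h0]
      _ = _ := by
          ext f g
          rw [Matrix.smul_apply, Matrix.add_apply, Matrix.smul_apply, Matrix.mul_diagonal,
            Matrix.mul_diagonal, smul_eq_mul, smul_eq_mul]
          ring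

/-- the same sign -/
lemma betti_same (hk : Odd k) (hβγ : β * γ = 1) (hγβ : γ * β = sym (Fin M.N) c)
    (hfrob : T.F * β = β * tp k M.F) (hCB : C * B = 1) (hCB' : C' * B' = 1)
    (h : B * C = (2⁻¹ : E) • (1 + ((s : ℤ) : E) • M.F))
    (h' : B' * C' = (2⁻¹ : E) • (1 + (((-s : ℤˣ) : ℤ) : E) • M.F))
    (hT : CT * BT = 1) (hT' : BT * CT = (2⁻¹ : E) • (1 + ((s : ℤ) : E) • T.F)) :
    (CT * β * tp k (Matrix.fromCols B B')) * (tp k (Matrix.fromRows C C') * γ * BT) = 1 ∧
    (tp k (Matrix.fromRows C C') * γ * BT) * (CT * β * tp k (Matrix.fromCols B B')) =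
      eps (Fin n) (Fin n) c (fun j => Even j) := by
  obtain ⟨h1, h2⟩ := betti_proj hk hβγ hγβ hfrob hCB hCB' h h' hT hT'
  refine ⟨h1, ?_⟩
  rw [h2, eps, sel]
  congr 2
  funext f
  rw [intUnits_mul_self, one_mul]
  split_ifs with hf
  · rw [hf.neg_one_pow, one_add_one_eq_two, inv_mul_cancel₀ two_ne_zero]
  · rw [(Nat.not_even_iff_odd.1 hf).neg_one_pow, add_neg_cancel, mul_zero]

/-- the opposite sign -/
lemma betti_opp (hk : Odd k) (hβγ : β * γ = 1) (hγβ : γ * β = sym (Fin M.N) c)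
    (hfrob : T.F * β = β * tp k M.F) (hCB : C * B = 1) (hCB' : C' * B' = 1)
    (h : B * C = (2⁻¹ : E) • (1 + ((s : ℤ) : E) • M.F))
    (h' : B' * C' = (2⁻¹ : E) • (1 + (((-s : ℤˣ) : ℤ) : E) • M.F))
    (hT : CT * BT = 1) (hT' : BT * CT = (2⁻¹ : E) • (1 + (((-s : ℤˣ) : ℤ) : E) • T.F)) :
    (CT * β * tp k (Matrix.fromCols B B')) * (tp k (Matrix.fromRows C C') * γ * BT) = 1 ∧
    (tp k (Matrix.fromRows C C') * γ * BT) * (CT * β * tp k (Matrix.fromCols B B')) =
      eps (Fin n) (Fin n) c (fun j => ¬ Even j) := by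
  obtain ⟨h1, h2⟩ := betti_proj hk hβγ hγβ hfrob hCB hCB' h h' hT hT'
  refine ⟨h1, ?_⟩
  rw [h2, eps, sel]
  congr 2
  funext f
  rw [Units.val_neg, Int.cast_neg, neg_mul, intUnits_mul_self, neg_one_mul]
  by_cases hf : Even (cnt f)
  · rw [hf.neg_one_pow, if_neg (not_not.2 hf), add_neg_cancel, mul_zero]
  · rw [(Nat.not_even_iff_odd.1 hf).neg_one_pow, if_pos hf, neg_neg, one_add_one_eq_two,
      inv_mul_cancel₀ two_ne_zero]

end

end Pool.Agent.Helper1.SP
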