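import Pool.Agent.Helper1.SP.Tp

/-!
# Tensor powers of block triangular matrices, and of pure tensors
-/

set_option autoImplicit false
set_option linter.unusedSectionVars false

namespace Pool.Agent.Helper1.SP

open Matrix

variable {J J' : Type} [Fintype J] [Fintype J'] [DecidableEq J] [DecidableEq J'] {R : Type}
  [CommRing R] {k : ℕ} (P : ℕ → Prop) [DecidablePred P]

/-- the tensor power of a lower block triangular matrix does not lower the number of indices in the second
block -/
lemma sel_lower (hP : ∀ i j, i ≤ j → P j → P i) {I I' : Type} [Fintype I] [Fintype I']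
    [DecidableEq I] [DecidableEq I'] (a : Matrix J I R) (b : Matrix J' I R) (d : Matrix J' I' R) :
    sel R k J J' P * tp k (Matrix.fromBlocks a 0 b d) =
      sel R k J J' P * tp k (Matrix.fromBlocks a 0 b d) * sel R k I I' P := by
  ext f g
  rw [sel, sel, Matrix.mul_diagonal, Matrix.diagonal_mul]
  by_cases h : tp k (Matrix.fromBlocks a 0 b d) f g = 0
  · rw [h, mul_zero, zero_mul]
  by_cases hf : P (cnt f)
  swap
  · rw [if_neg hf, zero_mul, zero_mul]
  have h1 : cnt g ≤ cnt f := by
    unfold cnt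
    refine Finset.card_le_card fun i hi => ?_
    rw [Finset.mem_filter] at hi ⊢
    refine ⟨hi.1, ?_⟩
    by_contra h2
    refine h (Finset.prod_eq_zero (Finset.mem_univ i) ?_)
    obtain ⟨x, hx⟩ := Sum.isRight_iff.1 hi.2
    rw [Bool.not_eq_true, Sum.isRight_eq_false] at h2
    obtain ⟨y, hy⟩ := Sum.isLeft_iff.1 h2
    rw [hx, hy, Matrix.fromBlocks_apply₁₂, Matrix.zero_apply]
  rw [if_pos hf, if_pos (hP _ _ h1 hf), mul_one]

variable (c : Equiv.Perm (Fin k) → R)

lemma eps_eps_lower (hc : sym (J ⊕ J') c * sym (J ⊕ J') c = sym (J ⊕ J') c)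
    (hP : ∀ i j, i ≤ j → P j → P i) (a : Matrix J J R) (b : Matrix J' J R) (d : Matrix J' J' R) :
    eps J J' c P * tp k (Matrix.fromBlocks a 0 b d) * eps J J' c P =
      eps J J' c P * tp k (Matrix.fromBlocks a 0 b d) := by
  have h1 : eps J J' c P = sel R k J J' P * sym (J ⊕ J') c := by
    rw [eps, sel_sym]
  have h2 : sym (J ⊕ J') c * (tp k (Matrix.fromBlocks a 0 b d) * sym (J ⊕ J') c) =
      sym (J ⊕ J') c * tp k (Matrix.fromBlocks a 0 b d) := by
    rw [tp_sym, ← Matrix.mul_assoc, hc]
  calc eps J J' c P * tp k (Matrix.fromBlocks a 0 b d) * eps J J' c P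
      = sel R k J J' P * (sym (J ⊕ J') c * (tp k (Matrix.fromBlocks a 0 b d) * sym (J ⊕ J') c)) *
          sel R k J J' P := by
        conv_lhs => rw [h1, sel_sym]
        rw [← sel_sym]
        simp only [Matrix.mul_assoc]
        rw [sel_sym]
    _ = sel R k J J' P * tp k (Matrix.fromBlocks a 0 b d) * sel R k J J' P * sym (J ⊕ J') c := by
        rw [h2, ← tp_sym]
        simp only [Matrix.mul_assoc]
        rw [sel_sym]
    _ = eps J J' c P * tp k (Matrix.fromBlocks a 0 b d) := by
        rw [← sel_lower P hP, Matrix.mul_assoc, tp_sym, ← Matrix.mul_assoc, ← h1]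

/-- a column of a tensor power -/
lemma tp_col {ι ι' : Type} [Fintype ι] [Fintype ι'] [DecidableEq ι'] (A : Matrix ι ι' R)
    (g : Fin k → ι') : (tp k A).mulVec (Pi.single g 1) = fun f => ∏ i, A (f i) (g i) := by
  rw [Matrix.mulVec_single_one]
  rfl

end Pool.Agent.Helper1.SP
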