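import Pool.Agent.Helper1.SP.DetEps
import Pool.Agent.Helper1.SP.Lower

/-!
# The determinant of the tensor power of a matrix between two parts of the tensor power
-/

set_option autoImplicit false
set_option linter.unusedSectionVars false

namespace Pool.Agent.Helper1.SP

open Matrix

lemma det_compress {R m n : Type} [CommRing R] [Fintype m] [Fintype n] [DecidableEq m]
    [DecidableEq n] {a : Matrix m n R} {b : Matrix n m R} (h : a * b = 1) (G : Matrix n n R) :
    (a * G * b).det = (1 + (G - 1) * (b * a)).det := by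
  rw [← Matrix.mul_assoc, Matrix.det_one_add_mul_comm, Matrix.sub_mul, Matrix.one_mul,
    Matrix.mul_sub, h, add_sub_cancel, Matrix.mul_assoc]

variable {E : Type} [Field E] {k : ℕ} {J : Type} [Fintype J] [DecidableEq J]
  {c : Equiv.Perm (Fin k) → E} {P : ℕ → Prop} [DecidablePred P] {m : Type} [Fintype m]
  [DecidableEq m] {R : Type} [CommRing R] [Algebra E R]

lemma map_one' {n : Type} [DecidableEq n] :
    (1 : Matrix n n E).map (algebraMap E R) = 1 :=
  Matrix.map_one _ (map_zero _) (map_one _)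

/-- the determinant of a block diagonal matrix on a part of the tensor power -/
lemma det_block {a : Matrix m (Fin k → J ⊕ J) E} {b : Matrix (Fin k → J ⊕ J) m E} (hab : a * b = 1)
    (hba : b * a = eps J J c P) (g g' : Matrix J J R) :
    (a.map (algebraMap E R) * tp k (Matrix.fromBlocks g 0 0 g') * b.map (algebraMap E R)).det =
      dE c P R g g' := by
  rw [det_compress (by rw [← Matrix.map_mul, hab, map_one']), ← Matrix.map_mul, hba]
  rfl

lemma fromBlocks_low_mul (C C' : Matrix J J R) :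
    Matrix.fromBlocks 1 0 C 1 * Matrix.fromBlocks 1 0 C' 1 =
      (Matrix.fromBlocks 1 0 (C + C') 1 : Matrix (J ⊕ J) (J ⊕ J) R) := by
  rw [Matrix.fromBlocks_multiply]
  simp

/-- `a tp(u) = a tp(u) b a` for lower triangular `u` -/
lemma low_push {a : Matrix m (Fin k → J ⊕ J) E} {b : Matrix (Fin k → J ⊕ J) m E} (hab : a * b = 1)
    (hba : b * a = eps J J c P) (hc : sym (J ⊕ J) c * sym (J ⊕ J) c = sym (J ⊕ J) c)
    (hP : ∀ i j, i ≤ j → P j → P i) (x y z : Matrix J J R) :
    a.map (algebraMap E R) * tp k (Matrix.fromBlocks x 0 y z) =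
      a.map (algebraMap E R) * tp k (Matrix.fromBlocks x 0 y z) * b.map (algebraMap E R) *
        a.map (algebraMap E R) := by
  have h1 : a.map (algebraMap E R) = a.map (algebraMap E R) *
      eps J J (fun σ => algebraMap E R (c σ)) P := by
    rw [← eps_map, ← Matrix.map_mul, ← hba, ← Matrix.mul_assoc, hab, Matrix.one_mul]
  have h2 : b.map (algebraMap E R) * a.map (algebraMap E R) =
      eps J J (fun σ => algebraMap E R (c σ)) P := by
    rw [← eps_map, ← Matrix.map_mul, hba]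
  have h3 := eps_eps_lower P (fun σ => algebraMap E R (c σ)) (sym_idem_map c hc) hP x y z
  calc a.map (algebraMap E R) * tp k (Matrix.fromBlocks x 0 y z)
      = a.map (algebraMap E R) * (eps J J (fun σ => algebraMap E R (c σ)) P *
          tp k (Matrix.fromBlocks x 0 y z)) := by rw [← Matrix.mul_assoc, ← h1]
    _ = a.map (algebraMap E R) * (eps J J (fun σ => algebraMap E R (c σ)) P *
          tp k (Matrix.fromBlocks x 0 y z) * eps J J (fun σ => algebraMap E R (c σ)) P) := by
        rw [h3]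
    _ = a.map (algebraMap E R) * eps J J (fun σ => algebraMap E R (c σ)) P *
          tp k (Matrix.fromBlocks x 0 y z) *
          (b.map (algebraMap E R) * a.map (algebraMap E R)) := by
        rw [h2]
        simp only [Matrix.mul_assoc]
    _ = _ := by
        rw [← h1]
        simp only [Matrix.mul_assoc]

/-- unipotent lower triangular matrices have determinant `1` -/
lemma det_low [CharZero E] {a : Matrix m (Fin k → J ⊕ J) E} {b : Matrix (Fin k → J ⊕ J) m E}
    (hab : a * b = 1) (hba : b * a = eps J J c P)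
    (hc : sym (J ⊕ J) c * sym (J ⊕ J) c = sym (J ⊕ J) c)
    (hP : ∀ i j, i ≤ j → P j → P i) (C : Matrix J J R) :
    (a.map (algebraMap E R) * tp k (Matrix.fromBlocks 1 0 C 1 : Matrix (J ⊕ J) (J ⊕ J) R) * b.map (algebraMap E R)).det =
      1 := by
  set am := a.map (algebraMap E R) with ham
  set bm := b.map (algebraMap E R) with hbm
  have habm : am * bm = 1 := by rw [ham, hbm, ← Matrix.map_mul, hab, map_one']
  have hmul : ∀ (x y z : Matrix J J R) (G : Matrix (Fin k → J ⊕ J) (Fin k → J ⊕ J) R),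
      (am * (tp k (Matrix.fromBlocks x 0 y z) * G) * bm).det =
        (am * tp k (Matrix.fromBlocks x 0 y z) * bm).det * (am * G * bm).det := by
    intro x y z G
    rw [← Matrix.det_mul]
    congr 1
    have h1 := low_push (R := R) hab hba hc hP x y z
    rw [← ham, ← hbm] at h1
    calc am * (tp k (Matrix.fromBlocks x 0 y z) * G) * bm
        = (am * tp k (Matrix.fromBlocks x 0 y z)) * (G * bm) := by simp only [Matrix.mul_assoc]
      _ = (am * tp k (Matrix.fromBlocks x 0 y z) * bm * am) * (G * bm) := by rw [← h1]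
      _ = _ := by simp only [Matrix.mul_assoc]
  have h2 : ∀ C C' : Matrix J J R,
      (am * tp k (Matrix.fromBlocks 1 0 (C + C') 1 : Matrix (J ⊕ J) (J ⊕ J) R) * bm).det =
        (am * tp k (Matrix.fromBlocks 1 0 C 1 : Matrix (J ⊕ J) (J ⊕ J) R) * bm).det *
          (am * tp k (Matrix.fromBlocks 1 0 C' 1 : Matrix (J ⊕ J) (J ⊕ J) R) * bm).det := by
    intro C C'
    rw [← fromBlocks_low_mul, tp_mul, hmul]
  have h0 : (am * tp k (Matrix.fromBlocks 1 0 0 1 : Matrix (J ⊕ J) (J ⊕ J) R) * bm).det = 1 := by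
    rw [Matrix.fromBlocks_one, tp_one, Matrix.mul_one, habm, Matrix.det_one]
  have hhalf : (algebraMap E R 2) * (algebraMap E R 2⁻¹) = 1 := by
    rw [← map_mul, mul_inv_cancel₀ two_ne_zero, map_one]
  have h3 : (Matrix.fromBlocks 1 0 (C + C) 1 : Matrix (J ⊕ J) (J ⊕ J) R) =
      Matrix.fromBlocks 1 0 0 (algebraMap E R 2 • (1 : Matrix J J R)) *
        (Matrix.fromBlocks 1 0 C 1 *
          Matrix.fromBlocks 1 0 0 (algebraMap E R 2⁻¹ • (1 : Matrix J J R))) := by
    rw [Matrix.fromBlocks_multiply, Matrix.fromBlocks_multiply]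
    simp only [Matrix.mul_zero, Matrix.zero_mul, Matrix.one_mul, Matrix.mul_one, add_zero,
      zero_add, Matrix.smul_mul, smul_smul]
    rw [hhalf, one_smul]
    congr 1
    rw [show (algebraMap E R 2) = 2 from map_ofNat _ 2, two_smul]
  have h4 : (am * tp k (Matrix.fromBlocks 1 0 (C + C) 1 : Matrix (J ⊕ J) (J ⊕ J) R) * bm).det =
      (am * tp k (Matrix.fromBlocks 1 0 C 1 : Matrix (J ⊕ J) (J ⊕ J) R) * bm).det := by
    rw [h3, tp_mul, tp_mul, hmul, hmul, mul_left_comm, ← hmul, ← tp_mul,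
      Matrix.fromBlocks_multiply]
    simp only [Matrix.mul_zero, Matrix.zero_mul, Matrix.one_mul, add_zero,
      zero_add, Matrix.smul_mul, smul_smul]
    rw [hhalf, one_smul, Matrix.fromBlocks_one, tp_one, Matrix.mul_one, habm, Matrix.det_one,
      mul_one]
  rw [h2] at h4
  have h5 : (am * tp k (Matrix.fromBlocks 1 0 C 1 : Matrix (J ⊕ J) (J ⊕ J) R) * bm).det *
      (am * tp k (Matrix.fromBlocks 1 0 (-C) 1 : Matrix (J ⊕ J) (J ⊕ J) R) * bm).det = 1 := by
    rw [← h2, add_neg_cancel, h0]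
  calc (am * tp k (Matrix.fromBlocks 1 0 C 1 : Matrix (J ⊕ J) (J ⊕ J) R) * bm).det
      = ((am * tp k (Matrix.fromBlocks 1 0 C 1 : Matrix (J ⊕ J) (J ⊕ J) R) * bm).det *
          (am * tp k (Matrix.fromBlocks 1 0 C 1 : Matrix (J ⊕ J) (J ⊕ J) R) * bm).det) *
          (am * tp k (Matrix.fromBlocks 1 0 (-C) 1 : Matrix (J ⊕ J) (J ⊕ J) R) * bm).det := by
        rw [mul_assoc, h5, mul_one]
    _ = 1 := by rw [h4, h5]

variable {P' : ℕ → Prop} [DecidablePred P']

lemma assoc_aux {m n : Type} [Fintype m] [Fintype n] {a : Matrix m n R} {b : Matrix n m R}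
    {U D X Z : Matrix n n R} {a' : Matrix m n R} {b' : Matrix n m R}
    (e1 : a * U = a * U * b * a) (e2 : a * D = a * D * b * a) (e3 : b' * a' * Z * b' = Z * b') :
    a * (U * (D * (X * Z))) * b' = (a * U * b) * ((a * D * b) * ((a * X * b') * (a' * Z * b'))) := by
  have e4 : a * U * D = a * U * D * b * a := by
    calc a * U * D = (a * U * b * a) * D := by rw [← e1]
      _ = (a * U * b) * (a * D) := by simp only [Matrix.mul_assoc]
      _ = (a * U * b) * (a * D * b * a) := by rw [← e2]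
      _ = (a * U * b * a) * D * b * a := by simp only [Matrix.mul_assoc]
      _ = a * U * D * b * a := by rw [← e1]
  symm
  calc (a * U * b) * ((a * D * b) * ((a * X * b') * (a' * Z * b')))
      = (a * U * b * a) * D * b * a * X * (b' * a' * Z * b') := by simp only [Matrix.mul_assoc]
    _ = (a * U * D * b * a) * X * (Z * b') := by rw [← e1, e3]
    _ = (a * U * D) * X * (Z * b') := by rw [← e4]
    _ = _ := by simp only [Matrix.mul_assoc]

/-- the main formula -/
theorem core [CharZero E] {a : Matrix m (Fin k → J ⊕ J) E} {b : Matrix (Fin k → J ⊕ J) m E}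
    (hab : a * b = 1) (hba : b * a = eps J J c P)
    (hc : sym (J ⊕ J) c * sym (J ⊕ J) c = sym (J ⊕ J) c)
    (hP : ∀ i j, i ≤ j → P j → P i)
    {a' : Matrix m (Fin k → J ⊕ J) E} {b' : Matrix (Fin k → J ⊕ J) m E}
    (hab' : a' * b' = 1) (hba' : b' * a' = eps J J c P')
    {y₁ y₂ m₁ m₂ : ℕ} (hy : ∀ g g' : Matrix J J R, dE c P R g g' = g.det ^ y₁ * g'.det ^ y₂)
    (hm : ∀ g g' : Matrix J J R, dE c P' R g g' = g.det ^ m₁ * g'.det ^ m₂)
    (A₁₁ A₁₂ A₂₁ A₂₂ : Matrix J J R) (h₁ : IsUnit A₁₁.det) (h₂ : IsUnit A₁₂.det) :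
    (a.map (algebraMap E R) * tp k (Matrix.fromBlocks A₁₁ A₁₂ A₂₁ A₂₂) *
        b'.map (algebraMap E R)).det * (A₁₁.det * A₁₂.det) ^ y₂ =
      algebraMap E R (a * tp k (Matrix.fromBlocks 1 1 0 1 : Matrix (J ⊕ J) (J ⊕ J) E) * b').det *
        ((Matrix.fromBlocks A₁₁ A₁₂ A₂₁ A₂₂).det ^ y₂ * (A₁₁.det ^ m₁ * A₁₂.det ^ m₂)) := by
  have habm : a.map (algebraMap E R) * b.map (algebraMap E R) = 1 := by
    rw [← Matrix.map_mul, hab, map_one']
  have hcm := sym_idem_map (R := R) c hc
  have hX : Matrix.fromBlocks A₁₁ A₁₂ A₂₁ A₂₂ =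
      Matrix.fromBlocks 1 0 (A₂₁ * A₁₁⁻¹) 1 *
        (Matrix.fromBlocks 1 0 0 (A₂₂ * A₁₂⁻¹ - A₂₁ * A₁₁⁻¹) *
          (Matrix.fromBlocks 1 1 0 1 * Matrix.fromBlocks A₁₁ 0 0 A₁₂)) := by
    simp only [Matrix.fromBlocks_multiply, Matrix.mul_zero, Matrix.zero_mul, Matrix.one_mul,
      Matrix.mul_one, add_zero, zero_add]
    congr 1
    · rw [Matrix.mul_assoc, Matrix.nonsing_inv_mul _ h₁, Matrix.mul_one]
    · rw [Matrix.sub_mul, Matrix.mul_assoc A₂₂, Matrix.nonsing_inv_mul _ h₂, Matrix.mul_one,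
        add_sub_cancel]
  have hdet : (Matrix.fromBlocks A₁₁ A₁₂ A₂₁ A₂₂).det =
      (A₂₂ * A₁₂⁻¹ - A₂₁ * A₁₁⁻¹).det * (A₁₁.det * A₁₂.det) := by
    rw [hX]
    simp only [Matrix.det_mul, Matrix.det_fromBlocks_zero₁₂, Matrix.det_fromBlocks_zero₂₁,
      Matrix.det_one, one_mul, mul_one]
  set h := A₂₂ * A₁₂⁻¹ - A₂₁ * A₁₁⁻¹ with hh
  set u : Matrix (J ⊕ J) (J ⊕ J) R := Matrix.fromBlocks 1 0 (A₂₁ * A₁₁⁻¹) 1 with hu
  -- the four factors
  have hfac : a.map (algebraMap E R) * tp k (Matrix.fromBlocks A₁₁ A₁₂ A₂₁ A₂₂) *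
      b'.map (algebraMap E R) =
      (a.map (algebraMap E R) * tp k u * b.map (algebraMap E R)) *
      ((a.map (algebraMap E R) * tp k (Matrix.fromBlocks 1 0 0 h : Matrix (J ⊕ J) (J ⊕ J) R) * b.map (algebraMap E R)) *
      ((a.map (algebraMap E R) * tp k (Matrix.fromBlocks 1 1 0 1 : Matrix (J ⊕ J) (J ⊕ J) R) * b'.map (algebraMap E R)) *
      (a'.map (algebraMap E R) * tp k (Matrix.fromBlocks A₁₁ 0 0 A₁₂) *
        b'.map (algebraMap E R)))) := by
    have e1 := low_push (R := R) hab hba hc hP 1 (A₂₁ * A₁₁⁻¹) 1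
    have e2 := low_push (R := R) hab hba hc hP 1 0 h
    have e3 : b'.map (algebraMap E R) * a'.map (algebraMap E R) *
        tp k (Matrix.fromBlocks A₁₁ 0 0 A₁₂) * b'.map (algebraMap E R) =
        tp k (Matrix.fromBlocks A₁₁ 0 0 A₁₂) * b'.map (algebraMap E R) := by
      have e4 : b'.map (algebraMap E R) * a'.map (algebraMap E R) =
          eps J J (fun σ => algebraMap E R (c σ)) P' := by
        rw [← Matrix.map_mul, hba', eps_map]
      rw [e4, ← tp_eps, ← e4, Matrix.mul_assoc, Matrix.mul_assoc (b'.map (algebraMap E R)),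
        ← Matrix.map_mul (f := algebraMap E R) (L := a') , hab', map_one', Matrix.mul_one]
    rw [hX, tp_mul, tp_mul, tp_mul]
    exact assoc_aux e1 e2 e3
  have hlow : (a.map (algebraMap E R) * tp k u * b.map (algebraMap E R)).det = 1 :=
    det_low hab hba hc hP _
  have hE : (a.map (algebraMap E R) * tp k (Matrix.fromBlocks 1 1 0 1 : Matrix (J ⊕ J) (J ⊕ J) R) *
      b'.map (algebraMap E R)).det =
      algebraMap E R (a * tp k (Matrix.fromBlocks 1 1 0 1 : Matrix (J ⊕ J) (J ⊕ J) E) * b').det := by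
    rw [RingHom.map_det, RingHom.mapMatrix_apply, Matrix.map_mul, Matrix.map_mul, tp_map]
    congr 3
    rw [Matrix.fromBlocks_map, map_one', Matrix.map_zero _ (map_zero _)]
  rw [hfac, Matrix.det_mul, Matrix.det_mul, Matrix.det_mul, hlow, hE, det_block hab hba,
    det_block hab' hba', hy, hm, Matrix.det_one, one_pow, hdet, mul_pow]
  ring

end Pool.Agent.Helper1.SP
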