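import Pool.Agent.Helper1.SP.Tp

/-!
# Traces
-/

set_option autoImplicit false
set_option linter.unusedSectionVars false

namespace Pool.Agent.Helper1.SP

open Matrix Module

/-- an idempotent matrix has trace equal to the dimension of its image -/
lemma trace_idem {E : Type} [Field E] {n : Type} [Fintype n] [DecidableEq n] {A : Matrix n n E}
    (h : A * A = A) : A.trace = (finrank E (LinearMap.range A.mulVecLin) : E) := by
  have h1 : IsIdempotentElem A.mulVecLin := by
    refine LinearMap.ext fun x => ?_
    rw [Module.End.mul_apply, Matrix.mulVecLin_apply, Matrix.mulVecLin_apply,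
      Matrix.mulVec_mulVec, h]
  have h2 := (LinearMap.IsIdempotentElem.isProj_range _ h1).trace
  rw [← h2, ← Matrix.toLin'_apply', Matrix.trace_toLin'_eq]

/-- an idempotent matrix of trace `0` is `0` -/
lemma idem_zero {E : Type} [Field E] [CharZero E] {n : Type} [Fintype n] [DecidableEq n]
    {A : Matrix n n E} (h : A * A = A) (h0 : A.trace = 0) : A = 0 := by
  rw [trace_idem h, Nat.cast_eq_zero, Submodule.finrank_eq_zero, LinearMap.range_eq_bot] at h0
  rw [← Matrix.toLin'_apply'] at h0
  exact Matrix.toLin'.injective (by rw [h0, map_zero])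

/-- two idempotents with `B = B A = A B` and the same trace agree -/
lemma idem_eq {E : Type} [Field E] [CharZero E] {n : Type} [Fintype n] [DecidableEq n]
    {A B : Matrix n n E} (hA : A * A = A) (hB : B * B = B) (hAB : A * B = B) (hBA : B * A = B)
    (h : A.trace = B.trace) : B = A := by
  have h1 : (A - B) * (A - B) = A - B := by
    rw [Matrix.sub_mul, Matrix.mul_sub, Matrix.mul_sub, hA, hB, hAB, hBA, sub_self, sub_zero]
  have h2 := idem_zero h1 (by rw [Matrix.trace_sub, h, sub_self])
  exact (sub_eq_zero.1 h2).symm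

section

variable {J J' : Type} [Fintype J] [Fintype J'] [DecidableEq J] [DecidableEq J'] {R : Type}
  [CommRing R] {k : ℕ} (c : Equiv.Perm (Fin k) → R) (P : ℕ → Prop) [DecidablePred P]

/-- the trace of `∑ c(σ) σ` on the part of degree `j` -/
def gtr (J J' : Type) [Fintype J] [Fintype J'] [DecidableEq J] [DecidableEq J'] {R : Type}
    [CommRing R] {k : ℕ} (c : Equiv.Perm (Fin k) → R) (j : ℕ) : R :=
  (eps J J' c (fun i => i = j)).trace

lemma trace_sel (A : Matrix (Fin k → J ⊕ J') (Fin k → J ⊕ J') R) :
    (A * sel R k J J' P).trace = ∑ f, if P (cnt f) then A f f else 0 := by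
  rw [Matrix.trace]
  refine Finset.sum_congr rfl fun f _ => ?_
  rw [Matrix.diag_apply, sel, Matrix.mul_diagonal]
  split_ifs <;> simp

/-- the trace of a weighted projection -/
lemma trace_diag_eps (w : ℕ → R) :
    (Matrix.diagonal (fun f => w (cnt f)) * eps J J' c P).trace =
      ∑ j ∈ Finset.range (k + 1), if P j then w j * gtr J J' c j else 0 := by
  rw [eps, ← Matrix.mul_assoc, trace_sel]
  have h1 : ∀ j ∈ Finset.range (k + 1), (if P j then w j * gtr J J' c j else 0) =
      ∑ f : Fin k → J ⊕ J', if cnt f = j then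
        (if P (cnt f) then w (cnt f) * sym (J ⊕ J') c f f else 0) else 0 := by
    intro j _
    rw [gtr, eps, trace_sel]
    split_ifs with h
    · rw [Finset.mul_sum]
      refine Finset.sum_congr rfl fun f _ => ?_
      split_ifs with h2 h3 h3
      · rw [h2]
      · rw [h2] at h3
        exact absurd h h3
      · rw [mul_zero]
    · symm
      refine Finset.sum_eq_zero fun f _ => ?_
      split_ifs with h2 h3
      · rw [h2] at h3
        exact absurd h3 h
      · rfl
      · rfl
  rw [Finset.sum_congr rfl h1, Finset.sum_comm]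
  refine Finset.sum_congr rfl fun f _ => ?_
  rw [Finset.sum_ite_eq, if_pos (Finset.mem_range.2 (Nat.lt_succ_of_le (cnt_le f))),
    Matrix.diagonal_mul]

lemma trace_eps : (eps J J' c P).trace =
    ∑ j ∈ Finset.range (k + 1), if P j then gtr J J' c j else 0 := by
  have h := trace_diag_eps (J := J) (J' := J') c P (fun _ => 1)
  simp only [one_mul] at h
  rw [← h, Matrix.diagonal_one, Matrix.one_mul]

lemma sel_true : sel R k J J' (fun _ => True) = 1 := by
  rw [sel]
  simp only [if_true]
  exact Matrix.diagonal_one

lemma trace_sym : (sym (J ⊕ J') c).trace = ∑ j ∈ Finset.range (k + 1), gtr J J' c j := by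
  have h := trace_eps (J := J) (J' := J') c (fun _ => True)
  simp only [if_true] at h
  rw [← h, eps, sel_true, Matrix.mul_one]

lemma gtr_symm {j : ℕ} (hj : j ≤ k) : gtr J J c (k - j) = gtr J J c j := by
  rw [gtr, gtr, eps, eps, trace_sel, trace_sel]
  let e : (Fin k → J ⊕ J) ≃ (Fin k → J ⊕ J) := (Equiv.refl _).arrowCongr (Equiv.sumComm J J)
  rw [← Equiv.sum_comp e]
  refine Finset.sum_congr rfl fun f _ => ?_
  have h1 : cnt (e f) = k - cnt f := by
    unfold cnt
    have h2 := Finset.card_filter_add_card_filter_not (s := (Finset.univ : Finset (Fin k)))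
      (fun i => (f i).isRight = true)
    rw [Finset.card_univ, Fintype.card_fin] at h2
    have h3 : (Finset.univ.filter fun i => ((e f) i).isRight = true) =
        Finset.univ.filter fun i => ¬ (f i).isRight = true := by
      ext i
      simp only [Finset.mem_filter, Finset.mem_univ, true_and]
      change (Sum.swap (f i)).isRight = true ↔ _
      rcases f i with x | x <;> simp
    rw [h3]
    omega
  have h4 : sym (J ⊕ J) c (e f) (e f) = sym (J ⊕ J) c f f := by
    simp only [sym]
    refine Finset.sum_congr rfl fun σ _ => ?_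
    have h5 : (e f = e f ∘ σ) ↔ (f = f ∘ σ) := by
      have h6 : e f ∘ σ = e (f ∘ σ) := rfl
      rw [h6, e.injective.eq_iff]
    simp only [h5]
  rw [h1, h4]
  have h7 := cnt_le f
  have h8 : (k - cnt f = k - j) ↔ cnt f = j := by omega
  simp only [h8]

/-- folding a sum over `0, …, k`, `k` odd -/
lemma fold {A : Type} [AddCommMonoid A] (hk : Odd k) (F : ℕ → A) :
    ∑ j ∈ Finset.range (k + 1), F j =
      ∑ j ∈ Finset.range (k + 1), if 2 * j < k then F j + F (k - j) else 0 := by
  have h1 : ∑ j ∈ Finset.range (k + 1), (if 2 * j < k then F (k - j) else 0) =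
      ∑ j ∈ Finset.range (k + 1), if 2 * j < k then 0 else F j := by
    rw [← Finset.sum_range_reflect]
    refine Finset.sum_congr rfl fun j hj => ?_
    rw [Finset.mem_range] at hj
    obtain ⟨l, hl⟩ := hk
    by_cases h2 : 2 * j < k
    · rw [if_pos h2, if_neg (by omega)]
    · rw [if_neg h2, if_pos (by omega)]
      congr 1
      omega
  calc ∑ j ∈ Finset.range (k + 1), F j
      = ∑ j ∈ Finset.range (k + 1), ((if 2 * j < k then F j else 0) +
          (if 2 * j < k then 0 else F j)) := by
        refine Finset.sum_congr rfl fun j _ => ?_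
        split_ifs <;> simp
    _ = ∑ j ∈ Finset.range (k + 1), if 2 * j < k then F j + F (k - j) else 0 := by
        rw [Finset.sum_add_distrib, ← h1, ← Finset.sum_add_distrib]
        refine Finset.sum_congr rfl fun j _ => ?_
        split_ifs <;> simp

/-- half of the trace -/
lemma trace_half (hk : Odd k) : 2 * (eps J J c (fun j => 2 * j < k)).trace =
    (sym (J ⊕ J) c).trace := by
  rw [trace_eps, trace_sym, fold hk (fun j => gtr J J c j), Finset.mul_sum]
  refine Finset.sum_congr rfl fun j hj => ?_
  rw [Finset.mem_range] at hj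
  split_ifs with h
  · rw [gtr_symm c (by omega), two_mul]
  · rw [mul_zero]

/-- the trace of `∑ c(σ) σ` does not depend on the basis -/
lemma trace_sym_transport {ι κ : Type} [Fintype ι] [Fintype κ] [DecidableEq ι] [DecidableEq κ]
    {U : Matrix ι κ R} {U' : Matrix κ ι R} (h : U * U' = 1) (h' : U' * U = 1) :
    (sym κ c).trace = (sym ι c).trace := by
  calc (sym κ c).trace = (tp k U' * (tp k U * sym κ c)).trace := by
        rw [← Matrix.mul_assoc, ← tp_mul, h', tp_one, Matrix.one_mul]
    _ = (sym ι c).trace := by
        rw [Matrix.trace_mul_comm, tp_sym, Matrix.mul_assoc, ← tp_mul, h, tp_one, Matrix.mul_one]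

/-- idempotents in another basis -/
lemma sym_idem_transport {ι κ : Type} [Fintype ι] [Fintype κ] [DecidableEq ι] [DecidableEq κ]
    {U : Matrix ι κ R} {U' : Matrix κ ι R} (h : U * U' = 1) (h' : U' * U = 1)
    (hc : sym ι c * sym ι c = sym ι c) : sym κ c * sym κ c = sym κ c := by
  have h1 : sym κ c = tp k U' * sym ι c * tp k U := by
    rw [tp_sym, Matrix.mul_assoc, ← tp_mul, h', tp_one, Matrix.mul_one]
  calc sym κ c * sym κ c = (tp k U' * sym ι c * tp k U) * (tp k U' * sym ι c * tp k U) := by
        rw [← h1]
    _ = tp k U' * sym ι c * (tp k U * tp k U') * sym ι c * tp k U := by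
        simp only [Matrix.mul_assoc]
    _ = tp k U' * (sym ι c * sym ι c) * tp k U := by
        rw [← tp_mul, h, tp_one, Matrix.mul_one]
        simp only [Matrix.mul_assoc]
    _ = _ := by rw [hc, ← h1]

end

end Pool.Agent.Helper1.SP
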