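import Pool.Agent.Helper1.SP.Fil
import Pool.Agent.Helper1.SP.Core
import Pool.Agent.Helper1.SP.Tr

/-!
# The de Rham side
-/

set_option autoImplicit false
set_option linter.unusedSectionVars false

namespace Pool.Agent.Helper1.SP

open Pool.Agent.X33.DP Pool.Agent.X33.DP.PMot Matrix Module

variable {E R : Type} [Field E] [CommRing R] [Algebra E R] [CharZero E]

/-- the Hodge type of a tensor product of Hodge classes -/
lemma sum_types {k n : ℕ} (g : Fin k → Fin n ⊕ Fin n) (p q : ℤ) :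
    ∑ i, (if (g i).isRight = true then q else p) = ((k - cnt g : ℕ) : ℤ) * p + (cnt g : ℤ) * q := by
  rw [Finset.sum_ite, Finset.sum_const, Finset.sum_const, add_comm]
  have h2 := Finset.card_filter_add_card_filter_not (s := (Finset.univ : Finset (Fin k)))
    (fun i => (g i).isRight = true)
  rw [Finset.card_univ, Fintype.card_fin] at h2
  have h3 : (Finset.univ.filter fun i => ¬ (g i).isRight = true).card = k - cnt g := by
    unfold cnt
    omega
  rw [h3, nsmul_eq_mul, nsmul_eq_mul]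
  rfl

/-- the image of a tensor product of basis vectors -/
lemma beta_col {M T : PMot E R} {p q : ℤ} {k : ℕ} {c : Equiv.Perm (Fin k) → E}
    {β : Matrix (Fin T.N) (Fin k → Fin M.N) E} (hT : IsSchur M T k c β) {n : ℕ}
    {Y : Matrix (Fin M.N) (Fin n ⊕ Fin n) R} (hp : ∀ j, Y.col (Sum.inl j) ∈ M.H p)
    (hq : ∀ j, Y.col (Sum.inr j) ∈ M.H q) (g : Fin k → Fin n ⊕ Fin n) :
    (β.map (algebraMap E R) * tp k Y).mulVec (Pi.single g 1) ∈
      T.H (((k - cnt g : ℕ) : ℤ) * p + (cnt g : ℤ) * q) := by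
  rw [← Matrix.mulVec_mulVec, tp_col, ← sum_types]
  refine hT.hodge (fun i => if (g i).isRight = true then q else p) (fun i => Y.col (g i)) ?_
  intro i
  rcases g i with j | j
  · simpa using hp j
  · simpa using hq j

section

variable [Nontrivial R] {M T : PMot E R} {p q : ℤ} {k : ℕ} {c : Equiv.Perm (Fin k) → E}
  {β δ : Matrix (Fin T.N) (Fin k → Fin M.N) E} {n m : ℕ}

/-- the quotient map of `T` kills the tensors with more than `k / 2` factors in `F^±` -/
lemma Q_sel (hM : TwoTypes M p q) (hT : IsSchur M T k c β)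
    (hD : IsSchurDR M T k c β δ)
    {Q : Matrix (Fin n) (Fin M.N) E} {V : Matrix (Fin M.N) (Fin n) E}
    (hQ : LinearMap.ker Q.mulVecLin = M.fil ((M.w + 1) / 2)) (hN : M.N = n + n)
    {BF : Matrix (Fin M.N) (Fin n) E} {QF : Matrix (Fin n) (Fin M.N) E} (hQBF : Q * BF = 0)
    (hsum : V * Q + BF * QF = 1) {QT : Matrix (Fin m) (Fin T.N) E}
    (hQT : LinearMap.ker QT.mulVecLin = T.fil ((T.w + 1) / 2)) :
    QT * δ * tp k (Matrix.fromCols V BF) =
      QT * δ * tp k (Matrix.fromCols V BF) * sel E k (Fin n) (Fin n) (fun j => 2 * j < k) := by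
  obtain ⟨Y, Y', l₁, l₂, -, -, hp, hq, hY⟩ := exists_Y hM hQ hN hQBF hsum
  have hinj : Function.Injective (algebraMap E R) := FaithfulSMul.algebraMap_injective E R
  have h1 : (QT.map (algebraMap E R) * T.P) * (β.map (algebraMap E R) * tp k Y) =
      (QT.map (algebraMap E R) * T.P) * (β.map (algebraMap E R) * tp k Y) *
        sel R k (Fin n) (Fin n) (fun j => 2 * j < k) := by
    ext f g
    rw [sel, Matrix.mul_diagonal]
    split_ifs with h
    · rw [mul_one]
    · rw [mul_zero]
      have h2 := Q_kill T hQT (r := ((k - cnt g : ℕ) : ℤ) * p + (cnt g : ℤ) * q) (by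
        rw [hT.weight, hM.2.1, Nat.cast_sub (cnt_le g)]
        have h3 : (k : ℤ) ≤ 2 * (cnt g : ℤ) := by
          have := Nat.not_lt.1 h
          exact_mod_cast this
        nlinarith [hM.1]) (beta_col hT hp hq g)
      rw [Matrix.mulVec_mulVec, Matrix.mulVec_single_one] at h2
      exact congrFun h2 f
  have h2 : (QT * δ * tp k (Matrix.fromCols V BF)).map (algebraMap E R) =
      (QT.map (algebraMap E R) * T.P) * (β.map (algebraMap E R) * tp k Y) *
        tp k (Matrix.fromBlocks l₁ 0 l₂ 1) := by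
    rw [Matrix.map_mul, Matrix.map_mul, tp_map, ← hY, tp_mul, tp_mul]
    calc QT.map (algebraMap E R) * δ.map (algebraMap E R) *
          (tp k M.P * tp k Y * tp k (Matrix.fromBlocks l₁ 0 l₂ 1))
        = QT.map (algebraMap E R) * (δ.map (algebraMap E R) * tp k M.P) * tp k Y *
            tp k (Matrix.fromBlocks l₁ 0 l₂ 1) := by simp only [Matrix.mul_assoc]
      _ = _ := by
          rw [← hD.comparison]
          simp only [Matrix.mul_assoc]
  have h3 := sel_lower (R := R) (k := k) (fun j => 2 * j < k) (fun i j hij hj => by omega) l₁ l₂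
    (1 : Matrix (Fin n) (Fin n) R)
  refine Matrix.map_injective hinj ?_
  beta_reduce
  rw [Matrix.map_mul (L := QT * δ * tp k (Matrix.fromCols V BF)), sel_map, h2, h1, Matrix.mul_assoc _ (sel R k (Fin n) (Fin n) _), h3]
  simp only [Matrix.mul_assoc, sel_sel]

/-- the trace of `e` is the rank of `T` -/
lemma trace_sym_eq {γ : Matrix (Fin k → Fin M.N) (Fin T.N) E} (hβγ : β * γ = 1)
    (hγβ : γ * β = sym (Fin M.N) c) : (sym (Fin M.N) c).trace = (T.N : E) := by
  rw [← hγβ, Matrix.trace_mul_comm, hβγ, Matrix.trace_one, Fintype.card_fin]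

/-- `T_DR / F^±` in terms of tensors -/
lemma deRham_proj (hk : Odd k) (hM : TwoTypes M p q) (hT : IsSchur M T k c β)
    (hD : IsSchurDR M T k c β δ)
    {γ : Matrix (Fin k → Fin M.N) (Fin T.N) E} (hδγ : δ * γ = 1)
    (hγδ : γ * δ = sym (Fin M.N) c)
    {Q : Matrix (Fin n) (Fin M.N) E} {V : Matrix (Fin M.N) (Fin n) E}
    (hQV : Q * V = 1)
    (hQ : LinearMap.ker Q.mulVecLin = M.fil ((M.w + 1) / 2)) (hN : M.N = n + n)
    {BF : Matrix (Fin M.N) (Fin n) E} {QF : Matrix (Fin n) (Fin M.N) E} (hQBF : Q * BF = 0)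
    (hQFBF : QF * BF = 1) (hQFV : QF * V = 0) (hsum : V * Q + BF * QF = 1)
    {QT : Matrix (Fin m) (Fin T.N) E} {VT : Matrix (Fin T.N) (Fin m) E}
    (hQT : LinearMap.ker QT.mulVecLin = T.fil ((T.w + 1) / 2)) (hQVT : QT * VT = 1)
    (hNT : T.N = m + m) :
    ∃ S : Matrix (Fin k → Fin n ⊕ Fin n) (Fin m) E,
      (QT * δ * tp k (Matrix.fromCols V BF)) * S = 1 ∧
      S * (QT * δ * tp k (Matrix.fromCols V BF)) = eps (Fin n) (Fin n) c (fun j => 2 * j < k) := by
  set Z := Matrix.fromCols V BF with hZ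
  set W := Matrix.fromRows Q QF with hW
  have hZW : Z * W = 1 := by rw [hZ, hW, Matrix.fromCols_mul_fromRows, hsum]
  have hWZ : W * Z = 1 := by
    rw [hZ, hW, Matrix.fromRows_mul_fromCols, hQV, hQBF, hQFV, hQFBF, Matrix.fromBlocks_one]
  have hδsym : δ * sym (Fin M.N) c = δ := by
    rw [← hγδ, ← Matrix.mul_assoc, hδγ, Matrix.one_mul]
  have hsym : QT * δ * tp k Z * sym (Fin n ⊕ Fin n) c = QT * δ * tp k Z := by
    rw [Matrix.mul_assoc, tp_sym, Matrix.mul_assoc, ← Matrix.mul_assoc δ, hδsym,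
      ← Matrix.mul_assoc]
  have hsel := Q_sel hM hT hD hQ hN hQBF hsum hQT
  rw [← hZ] at hsel
  have hc0 : sym (Fin M.N) c * sym (Fin M.N) c = sym (Fin M.N) c := by
    conv_lhs => rw [← hγδ]
    rw [← hγδ, Matrix.mul_assoc, ← Matrix.mul_assoc δ, hδγ, Matrix.one_mul]
  have hc : sym (Fin n ⊕ Fin n) c * sym (Fin n ⊕ Fin n) c = sym (Fin n ⊕ Fin n) c :=
    sym_idem_transport c hZW hWZ hc0
  have heps : QT * δ * tp k Z * eps (Fin n) (Fin n) c (fun j => 2 * j < k) = QT * δ * tp k Z := by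
    rw [eps, ← Matrix.mul_assoc, hsym, ← hsel]
  have hee := eps_eps c (fun j => 2 * j < k) hc
  refine ⟨eps (Fin n) (Fin n) c (fun j => 2 * j < k) * (tp k W * γ * VT), ?_, ?_⟩
  · rw [← Matrix.mul_assoc, heps]
    calc QT * δ * tp k Z * (tp k W * γ * VT) = QT * δ * (tp k Z * tp k W) * γ * VT := by
          simp only [Matrix.mul_assoc]
      _ = QT * (δ * γ) * VT := by
          rw [← tp_mul, hZW, tp_one, Matrix.mul_one]
          simp only [Matrix.mul_assoc]
      _ = 1 := by rw [hδγ, Matrix.mul_one, hQVT]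
  · set e := eps (Fin n) (Fin n) c (fun j => 2 * j < k) with he
    set A := QT * δ * tp k Z with hA
    set G := tp k W * γ * VT with hG
    have hAG : A * (e * G) = 1 := by
      rw [← Matrix.mul_assoc, heps, hA, hG]
      calc QT * δ * tp k Z * (tp k W * γ * VT) = QT * δ * (tp k Z * tp k W) * γ * VT := by
            simp only [Matrix.mul_assoc]
        _ = QT * (δ * γ) * VT := by
            rw [← tp_mul, hZW, tp_one, Matrix.mul_one]
            simp only [Matrix.mul_assoc]
        _ = 1 := by rw [hδγ, Matrix.mul_one, hQVT]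
    refine idem_eq hee ?_ ?_ ?_ ?_
    · rw [Matrix.mul_assoc, ← Matrix.mul_assoc A, hAG, Matrix.one_mul]
    · rw [← Matrix.mul_assoc e (e * G) A, ← Matrix.mul_assoc e e G, hee]
    · rw [Matrix.mul_assoc, heps]
    · rw [Matrix.trace_mul_comm, hAG, Matrix.trace_one, Fintype.card_fin]
      have h2 := trace_half (J := Fin n) c hk
      have h3 : (sym (Fin n ⊕ Fin n) c).trace = (T.N : E) := by
        rw [trace_sym_transport c hZW hWZ, ← hγδ, Matrix.trace_mul_comm, hδγ, Matrix.trace_one,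
          Fintype.card_fin]
      rw [h3, hNT, Nat.cast_add, ← two_mul] at h2
      exact mul_left_cancel₀ two_ne_zero h2

end

end Pool.Agent.Helper1.SP
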