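import Pool.Agent.Helper1.SP.DetEps

/-!
# The exponents of the determinants
-/

set_option autoImplicit false
set_option linter.unusedSectionVars false

namespace Pool.Agent.Helper1.SP

open Matrix

variable {E : Type} [Field E] [CharZero E] {k : ℕ} {J J' : Type} [Fintype J] [Fintype J']
  [DecidableEq J] [DecidableEq J'] (c : Equiv.Perm (Fin k) → E) (P : ℕ → Prop) [DecidablePred P]

lemma exists_pow {K : Type} [Field K] [CharZero K] [Algebra E K]
    (hc : sym (J ⊕ J') c * sym (J ⊕ J') c = sym (J ⊕ J') c) :
    ∃ m₁ m₂ : ℕ, ∀ (g : Matrix J J K) (g' : Matrix J' J' K),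
      dE c P K g g' = g.det ^ m₁ * g'.det ^ m₂ := by
  have hev : ∀ (x : K), ∀ (I : Type) [Fintype I] [DecidableEq I] (i : I),
      (Matrix.diagonal (Function.update (1 : I → Polynomial K) i Polynomial.X)).map
        ((Polynomial.aeval x : Polynomial K →ₐ[K] K).restrictScalars E) = dg i x := by
    intro x I _ _ i
    rw [dg, Matrix.diagonal_map (map_zero _)]
    congr 1
    funext j
    rw [AlgHom.restrictScalars_apply]
    by_cases hj : j = i
    · subst hj
      simp
    · simp [Function.update_of_ne hj]
  have hev1 : ∀ (x : K), ∀ (I : Type) [Fintype I] [DecidableEq I],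
      (1 : Matrix I I (Polynomial K)).map
        ((Polynomial.aeval x : Polynomial K →ₐ[K] K).restrictScalars E) = 1 := by
    intro x I _ _
    exact Matrix.map_one _ (map_zero _) (map_one _)
  obtain ⟨m₁, hm₁⟩ := mul_char (fun g : Matrix J J K => dE c P K g (1 : Matrix J' J' K))
    (dE_one c P)
    (fun X Y => by
      have := dE_mul c P hc X Y (1 : Matrix J' J' K) 1
      rwa [one_mul] at this)
    (fun i => ⟨dE c P (Polynomial K) (Matrix.diagonal (Function.update (1 : J → Polynomial K) i
      Polynomial.X)) (1 : Matrix J' J' (Polynomial K)),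
      fun x => by
        have h := dE_nat c P ((Polynomial.aeval x : Polynomial K →ₐ[K] K).restrictScalars E)
          (Matrix.diagonal (Function.update (1 : J → Polynomial K) i Polynomial.X))
          (1 : Matrix J' J' (Polynomial K))
        rw [AlgHom.restrictScalars_apply, Polynomial.coe_aeval_eq_eval] at h
        rw [h, hev, hev1]⟩)
  obtain ⟨m₂, hm₂⟩ := mul_char (fun g' : Matrix J' J' K => dE c P K (1 : Matrix J J K) g')
    (dE_one c P)
    (fun X Y => by
      have := dE_mul c P hc (1 : Matrix J J K) 1 X Y
      rwa [one_mul] at this)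
    (fun i => ⟨dE c P (Polynomial K) (1 : Matrix J J (Polynomial K)) (Matrix.diagonal
      (Function.update (1 : J' → Polynomial K) i Polynomial.X)),
      fun x => by
        have h := dE_nat c P ((Polynomial.aeval x : Polynomial K →ₐ[K] K).restrictScalars E)
          (1 : Matrix J J (Polynomial K))
          (Matrix.diagonal (Function.update (1 : J' → Polynomial K) i Polynomial.X))
        rw [AlgHom.restrictScalars_apply, Polynomial.coe_aeval_eq_eval] at h
        rw [h, hev, hev1]⟩)
  refine ⟨m₁, m₂, fun g g' => ?_⟩
  have h := dE_mul c P hc g 1 1 g'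
  rw [one_mul, mul_one] at h
  rw [h, ← hm₁, ← hm₂]

/-- the determinant of the `k`-th tensor power of a block diagonal matrix on the image of `eps` -/
theorem exists_exponents (hc : sym (J ⊕ J') c * sym (J ⊕ J') c = sym (J ⊕ J') c) :
    ∃ m₁ m₂ : ℕ, (∀ (R : Type) [CommRing R] [Algebra E R] (g : Matrix J J R) (g' : Matrix J' J' R),
      dE c P R g g' = g.det ^ m₁ * g'.det ^ m₂) ∧
    ((Fintype.card J * m₁ : ℕ) : E) =
      (Matrix.diagonal (fun f => ((k - cnt f : ℕ) : E)) * eps J J' c P).trace ∧
    ((Fintype.card J' * m₂ : ℕ) : E) =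
      (Matrix.diagonal (fun f => (cnt f : E)) * eps J J' c P).trace := by
  let A := MvPolynomial ((J × J) ⊕ (J' × J')) E
  let K := FractionRing A
  have hK : Function.Injective (algebraMap A K) := IsFractionRing.injective A K
  have : CharZero A := charZero_of_injective_algebraMap (MvPolynomial.C_injective _ _ :
    Function.Injective (algebraMap E A))
  have : CharZero K := charZero_of_injective_algebraMap hK
  obtain ⟨m₁, m₂, hm⟩ := exists_pow (K := K) c P hc
  refine ⟨m₁, m₂, ?_, ?_⟩
  · intro R _ _ g g'
    let G : Matrix J J A := fun i j => MvPolynomial.X (Sum.inl (i, j))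
    let G' : Matrix J' J' A := fun i j => MvPolynomial.X (Sum.inr (i, j))
    have h1 : dE c P A G G' = G.det ^ m₁ * G'.det ^ m₂ := by
      apply hK
      have h2 := dE_nat c P (IsScalarTower.toAlgHom E A K) G G'
      rw [IsScalarTower.coe_toAlgHom'] at h2
      rw [h2, hm, map_mul, map_pow, map_pow, RingHom.map_det, RingHom.map_det]
      rfl
    let φ : A →ₐ[E] R := MvPolynomial.aeval (Sum.elim (fun x => g x.1 x.2) (fun x => g' x.1 x.2))
    have h3 : G.map φ = g := by
      refine Matrix.ext fun i j => ?_
      exact MvPolynomial.aeval_X _ _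
    have h4 : G'.map φ = g' := by
      refine Matrix.ext fun i j => ?_
      exact MvPolynomial.aeval_X _ _
    have h5 := dE_nat c P φ G G'
    rw [h3, h4, h1, map_mul, map_pow, map_pow] at h5
    rw [← h5]
    have h6 : φ G.det = g.det := by
      rw [← h3]
      exact RingHom.map_det (φ : A →+* R) G
    have h7 : φ G'.det = g'.det := by
      rw [← h4]
      exact RingHom.map_det (φ : A →+* R) G'
    rw [h6, h7]
  · exact trace_of_scalar (K := K) c P (fun x y => by
      rw [hm, Matrix.det_smul, Matrix.det_smul, Matrix.det_one, Matrix.det_one, mul_one, mul_one,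
        ← pow_mul, ← pow_mul])

end Pool.Agent.Helper1.SP
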