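import Mathlib

/-!
# Tensor powers of matrices and the action of the symmetric group
-/

set_option autoImplicit false
set_option linter.unusedSectionVars false

namespace Pool.Agent.Helper1.SP

open Matrix

section

variable {ι ι' ι'' : Type} [Fintype ι] [Fintype ι'] [Fintype ι''] [DecidableEq ι] [DecidableEq ι']
  [DecidableEq ι''] {R S : Type} [CommRing R] [CommRing S]

/-- the `k`-th tensor power of a matrix -/
def tp (k : ℕ) (X : Matrix ι ι' R) : Matrix (Fin k → ι) (Fin k → ι') R :=
  fun f g => ∏ i, X (f i) (g i)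

/-- the action of `∑ c(σ) σ` on the `k`-th tensor power of `R ^ ι` -/
def sym (ι : Type) [DecidableEq ι] {k : ℕ} (c : Equiv.Perm (Fin k) → R) :
    Matrix (Fin k → ι) (Fin k → ι) R :=
  fun f g => ∑ σ : Equiv.Perm (Fin k), if g = f ∘ σ then c σ else 0

lemma tp_apply (k : ℕ) (X : Matrix ι ι' R) (f : Fin k → ι) (g : Fin k → ι') :
    tp k X f g = ∏ i, X (f i) (g i) := rfl

lemma tp_mul (k : ℕ) (X : Matrix ι ι' R) (Y : Matrix ι' ι'' R) :
    tp k (X * Y) = tp k X * tp k Y := by
  ext f g
  simp only [tp_apply, Matrix.mul_apply]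
  rw [Finset.prod_univ_sum, Fintype.piFinset_univ]
  refine Finset.sum_congr rfl fun h _ => ?_
  rw [Finset.prod_mul_distrib]

lemma tp_one (k : ℕ) : tp k (1 : Matrix ι ι R) = 1 := by
  ext f g
  rw [tp_apply, Matrix.one_apply]
  by_cases h : f = g
  · subst h
    simp
  · rw [if_neg h]
    obtain ⟨i, hi⟩ := Function.ne_iff.1 h
    exact Finset.prod_eq_zero (Finset.mem_univ i) (Matrix.one_apply_ne hi)

lemma tp_map (k : ℕ) (φ : R →+* S) (X : Matrix ι ι' R) : (tp k X).map φ = tp k (X.map φ) := by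
  ext f g
  simp only [Matrix.map_apply, tp_apply, map_prod]

lemma sym_map {k : ℕ} (φ : R →+* S) (c : Equiv.Perm (Fin k) → R) :
    (sym ι c).map φ = sym ι (fun σ => φ (c σ)) := by
  ext f g
  simp only [Matrix.map_apply, sym, map_sum, apply_ite φ, map_zero]

lemma tp_sym {k : ℕ} (X : Matrix ι ι' R) (c : Equiv.Perm (Fin k) → R) :
    tp k X * sym ι' c = sym ι c * tp k X := by
  ext f g
  simp only [Matrix.mul_apply, sym, Finset.mul_sum, Finset.sum_mul]
  rw [Finset.sum_comm]
  rw [Finset.sum_comm (s := Finset.univ (α := Fin k → ι))]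
  refine Finset.sum_congr rfl fun σ _ => ?_
  rw [Finset.sum_eq_single (g ∘ (σ⁻¹ : Equiv.Perm (Fin k)))]
  · rw [Finset.sum_eq_single (f ∘ σ)]
    · rw [if_pos (by ext i; simp), if_pos rfl, mul_comm]
      congr 1
      rw [tp_apply, tp_apply, ← Equiv.prod_comp σ]
      refine Finset.prod_congr rfl fun i _ => ?_
      simp
    · intro b _ hb
      rw [if_neg hb, zero_mul]
    · intro h
      exact absurd (Finset.mem_univ _) h
  · intro b _ hb
    rw [if_neg, mul_zero]
    intro h
    apply hb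
    ext i
    rw [h]
    simp
  · intro h
    exact absurd (Finset.mem_univ _) h

end

section blocks

variable {J J' : Type} [Fintype J] [Fintype J'] [DecidableEq J] [DecidableEq J'] {R S : Type}
  [CommRing R] [CommRing S]

/-- the number of indices in the second block -/
def cnt {k : ℕ} (f : Fin k → J ⊕ J') : ℕ := (Finset.univ.filter fun i => (f i).isRight = true).card

lemma cnt_le {k : ℕ} (f : Fin k → J ⊕ J') : cnt f ≤ k := by
  refine (Finset.card_filter_le _ _).trans ?_
  simp

lemma cnt_comp {k : ℕ} (f : Fin k → J ⊕ J') (σ : Equiv.Perm (Fin k)) : cnt (f ∘ σ) = cnt f := by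
  unfold cnt
  refine Finset.card_bij (fun i _ => σ i) ?_ ?_ ?_
  · intro i hi
    rw [Finset.mem_filter] at hi ⊢
    exact ⟨Finset.mem_univ _, hi.2⟩
  · intro i _ j _ h
    exact σ.injective h
  · intro j hj
    refine ⟨σ.symm j, ?_, σ.apply_symm_apply j⟩
    rw [Finset.mem_filter] at hj ⊢
    refine ⟨Finset.mem_univ _, ?_⟩
    rw [Function.comp_apply, σ.apply_symm_apply]
    exact hj.2

/-- the projection to the part of the `k`-th tensor power where the number of indices in the second
block is in `P` -/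
def sel (R : Type) [CommRing R] (k : ℕ) (J J' : Type) [DecidableEq J] [DecidableEq J']
    (P : ℕ → Prop) [DecidablePred P] : Matrix (Fin k → J ⊕ J') (Fin k → J ⊕ J') R :=
  Matrix.diagonal fun f => if P (cnt f) then 1 else 0

/-- the action of `∑ c(σ) σ` followed by the projection -/
def eps {k : ℕ} (J J' : Type) [DecidableEq J] [DecidableEq J'] [Fintype J] [Fintype J']
    (c : Equiv.Perm (Fin k) → R) (P : ℕ → Prop)
    [DecidablePred P] : Matrix (Fin k → J ⊕ J') (Fin k → J ⊕ J') R :=
  sym (J ⊕ J') c * sel R k J J' P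

variable {k : ℕ} (c : Equiv.Perm (Fin k) → R) (P : ℕ → Prop) [DecidablePred P]

lemma sel_sel : sel R k J J' P * sel R k J J' P = sel R k J J' P := by
  rw [sel, Matrix.diagonal_mul_diagonal]
  congr 1
  ext f
  split_ifs <;> simp

lemma sel_map (φ : R →+* S) : (sel R k J J' P).map φ = sel S k J J' P := by
  rw [sel, sel, Matrix.diagonal_map (map_zero φ)]
  congr 1
  ext f
  split_ifs <;> simp

lemma sel_sym : sel R k J J' P * sym (J ⊕ J') c = sym (J ⊕ J') c * sel R k J J' P := by
  ext f g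
  rw [sel, Matrix.diagonal_mul, Matrix.mul_diagonal]
  simp only [sym, Finset.mul_sum, Finset.sum_mul]
  refine Finset.sum_congr rfl fun σ _ => ?_
  by_cases h : g = f ∘ σ
  · rw [if_pos h, h, cnt_comp, mul_comm]
  · rw [if_neg h, mul_zero, zero_mul]

lemma eps_map (φ : R →+* S) : (eps J J' c P).map φ = eps J J' (fun σ => φ (c σ)) P := by
  rw [eps, eps, Matrix.map_mul, sym_map, sel_map]

lemma eps_eps (h : sym (J ⊕ J') c * sym (J ⊕ J') c = sym (J ⊕ J') c) :
    eps J J' c P * eps J J' c P = eps J J' c P := by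
  rw [eps, Matrix.mul_assoc, ← Matrix.mul_assoc (sel R k J J' P), sel_sym, Matrix.mul_assoc,
    sel_sel, ← Matrix.mul_assoc, h]

lemma cnt_eq_of_tp {g : Matrix J J R} {g' : Matrix J' J' R} {f f' : Fin k → J ⊕ J'}
    (h : tp k (Matrix.fromBlocks g 0 0 g') f f' ≠ 0) : cnt f = cnt f' := by
  unfold cnt
  congr 1
  ext i
  simp only [Finset.mem_filter, Finset.mem_univ, true_and]
  have h1 : Matrix.fromBlocks g 0 0 g' (f i) (f' i) ≠ 0 := fun h0 =>
    h (Finset.prod_eq_zero (Finset.mem_univ i) h0)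
  rcases hf : f i with x | x <;> rcases hf' : f' i with y | y <;> rw [hf, hf'] at h1 <;>
    simp at h1 ⊢

lemma tp_sel (g : Matrix J J R) (g' : Matrix J' J' R) :
    tp k (Matrix.fromBlocks g 0 0 g') * sel R k J J' P =
      sel R k J J' P * tp k (Matrix.fromBlocks g 0 0 g') := by
  ext f f'
  rw [sel, Matrix.diagonal_mul, Matrix.mul_diagonal]
  by_cases h : tp k (Matrix.fromBlocks g 0 0 g') f f' = 0
  · rw [h, mul_zero, zero_mul]
  · rw [cnt_eq_of_tp h, mul_comm]

lemma tp_eps (g : Matrix J J R) (g' : Matrix J' J' R) :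
    tp k (Matrix.fromBlocks g 0 0 g') * eps J J' c P =
      eps J J' c P * tp k (Matrix.fromBlocks g 0 0 g') := by
  rw [eps, ← Matrix.mul_assoc, tp_sym, Matrix.mul_assoc, tp_sel, Matrix.mul_assoc]

end blocks

end Pool.Agent.Helper1.SP
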