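import Pool.Graph.R_pool_sql_team_seeded_64922ed1.X33.DP.CMain
import Pool.Agent.Helper1.SP.Tp

/-!
# Schur functors of motives, in coordinates
-/

set_option autoImplicit false
set_option linter.unusedSectionVars false

namespace Pool.Agent.Helper1.SP

open Pool.Agent.X33.DP Pool.Agent.X33.DP.PMot Matrix

variable {E R : Type} [Field E] [CommRing R] [Algebra E R]

/-- The Betti side of `T = e (M ^ ⊗ k)`, where `e = ∑ c(σ) σ` is an idempotent of `E[S_k]` acting on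
`M ^ ⊗ k` by permutations of the factors: `β : M_B ^ ⊗ k → T_B` is surjective, with a section `γ` such that
`γ β = e` (so `β` identifies the image of `e` with `T_B`); it is compatible with the weights, with `F_∞`
and with the Hodge decompositions. -/
structure IsSchur (M T : PMot E R) (k : ℕ) (c : Equiv.Perm (Fin k) → E)
    (β : Matrix (Fin T.N) (Fin k → Fin M.N) E) : Prop where
  weight : T.w = k * M.w
  betti : ∃ γ : Matrix (Fin k → Fin M.N) (Fin T.N) E, β * γ = 1 ∧ γ * β = sym (Fin M.N) c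
  frob : T.F * β = β * tp k M.F
  hodge : ∀ (r : Fin k → ℤ) (x : Fin k → Fin M.N → R), (∀ i, x i ∈ M.H (r i)) →
    (β.map (algebraMap E R)).mulVec (fun f => ∏ i, x i (f i)) ∈ T.H (∑ i, r i)

/-- The de Rham side of `T = e (M ^ ⊗ k)`: `δ : M_DR ^ ⊗ k → T_DR` identifies the image of `e` with `T_DR`,
and the comparison isomorphisms are compatible with `β` and `δ`. -/
structure IsSchurDR (M T : PMot E R) (k : ℕ) (c : Equiv.Perm (Fin k) → E)
    (β δ : Matrix (Fin T.N) (Fin k → Fin M.N) E) : Prop where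
  deRham : ∃ γ : Matrix (Fin k → Fin M.N) (Fin T.N) E, δ * γ = 1 ∧ γ * δ = sym (Fin M.N) c
  comparison : T.P * β.map (algebraMap E R) = δ.map (algebraMap E R) * tp k M.P

/-- `M` has the Hodge types `(p, q)` and `(q, p)` only, `p < q` -/
def TwoTypes (M : PMot E R) (p q : ℤ) : Prop :=
  p < q ∧ M.w = p + q ∧ ∀ r, r ≠ p → r ≠ q → M.H r = ⊥

/-- the Hodge number: the rank of `M^{r, w - r}` -/
noncomputable def hodgeNumber (M : PMot E R) (r : ℤ) : ℕ := Module.finrank R (M.H r)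

/-- `∑ (k - 2 j) h(j)` over the even `j < k / 2` -/
def evenSum (k : ℕ) (h : ℕ → ℕ) : ℕ :=
  ∑ j ∈ (Finset.range k).filter (fun j => 2 * j < k ∧ Even j), (k - 2 * j) * h j

/-- `∑ (k - 2 j) h(j)` over the odd `j < k / 2` -/
def oddSum (k : ℕ) (h : ℕ → ℕ) : ℕ :=
  ∑ j ∈ (Finset.range k).filter (fun j => 2 * j < k ∧ ¬ Even j), (k - 2 * j) * h j

/-- `∑ j h(j)` over the `j < k / 2` -/
def lowSum (k : ℕ) (h : ℕ → ℕ) : ℕ :=
  ∑ j ∈ (Finset.range k).filter (fun j => 2 * j < k), j * h j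

/-- `∑ h(j)` over the `j < k / 2` -/
def halfSum (k : ℕ) (h : ℕ → ℕ) : ℕ :=
  ∑ j ∈ (Finset.range k).filter (fun j => 2 * j < k), h j

/-- `c^s(T) ∼ c^s(M) ^ x * c^{-s}(M) ^ y * δ(M) ^ z` modulo `Eˣ`, for both signs `s`; `δ(M)` is the
determinant of the comparison isomorphism -/
def PeriodRelation (M T : PMot E R) (x y z : ℕ) : Prop :=
  ∀ (s : ℤˣ) (c c' t : R), M.IsPeriod s c → M.IsPeriod (-s) c' → T.IsPeriod s t →
    ∃ e : E, e ≠ 0 ∧ t = algebraMap E R e * (c ^ x * c' ^ y * M.P.det ^ z)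

/-- Deligne's formula for the value `v` at `m` of the `L`-function of `T` is equivalent to
`v ∼ (2πi)^(m dim T^+) c^s(M) ^ x * c^{-s}(M) ^ y * δ(M) ^ z`, `s = (-1)^m` (`τ j = (2πi)^j`) -/
def FormulaRelation (τ : ℤ → R) (M T : PMot E R) (x y z : ℕ) : Prop :=
  ∀ (m : ℤ) (v c c' : R), M.IsPeriod ((-1) ^ m) c → M.IsPeriod (-(-1) ^ m) c' →
    (Formula τ T m v ↔
      ∃ e : E, v = algebraMap E R e * (τ (m * T.dim 1) * (c ^ x * c' ^ y * M.P.det ^ z)))

/-- the dimension of the part of degree `(k - j, j)` of `e ((E ^ n ⊕ E ^ n) ^ ⊗ k)`, `e = ∑ c(σ) σ` -/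
noncomputable def gradedDim (n : ℕ) {k : ℕ} (c : Equiv.Perm (Fin k) → E) (j : ℕ) : ℕ :=
  Module.finrank E (LinearMap.range (eps (Fin n) (Fin n) c (fun i => i = j)).mulVecLin)

/-- `c^s(T) / c^{-s}(T) ∼ (c^s(M) / c^{-s}(M)) ^ (x - y)` modulo `Eˣ` -/
def RatioPower (M T : PMot E R) (x y : ℕ) : Prop :=
  ∀ (s : ℤˣ) (c c' t t' : R), M.IsPeriod s c → M.IsPeriod (-s) c' →
    T.IsPeriod s t → T.IsPeriod (-s) t' →
    ∃ e : E, e ≠ 0 ∧ t * (c' ^ x * c ^ y) = algebraMap E R e * (t' * (c ^ x * c' ^ y))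

/-- if Deligne's formula for `T` holds for the unit `v'` at `m'`, then Deligne's formula for `v` at an
integer `m` of the other parity is equivalent to the formula
`v / v' ∼ (2πi)^((m - m') dim T^+) (c^s(M) / c^{-s}(M)) ^ (x - y)`, `s = (-1)^m` -/
def RatioTransfer (τ : ℤ → R) (M T : PMot E R) (x y : ℕ) : Prop :=
  ∀ (m m' : ℤ) (c c' v v' : R), ((-1 : ℤˣ) ^ m') = -(-1) ^ m →
    M.IsPeriod ((-1) ^ m) c → M.IsPeriod (-(-1) ^ m) c' → IsUnit v' → Formula τ T m' v' →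
    (Formula τ T m v ↔
      ∃ e : E, v * (c' ^ x * c ^ y) =
        algebraMap E R e * (τ ((m - m') * T.dim 1) * v' * (c ^ x * c' ^ y)))

lemma TwoTypes.noMiddle {M : PMot E R} {p q : ℤ} (h : TwoTypes M p q) : M.NoMiddle := by
  intro r hr
  obtain ⟨h1, h2, h3⟩ := h
  exact h3 r (by omega) (by omega)

end Pool.Agent.Helper1.SP
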