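import Pool.Agent.Helper1.SP.Expo
import Pool.Agent.Helper1.SP.SDefs
import Pool.Agent.Helper1.SP.Tr

/-!
# The exponents
-/

set_option autoImplicit false
set_option linter.unusedSectionVars false

namespace Pool.Agent.Helper1.SP

open Matrix

lemma filter_eq (k : ℕ) (P : ℕ → Prop) [DecidablePred P] (F : ℕ → ℕ) :
    ∑ j ∈ (Finset.range k).filter (fun j => 2 * j < k ∧ P j), F j =
      ∑ j ∈ Finset.range (k + 1), if 2 * j < k then (if P j then F j else 0) else 0 := by
  rw [Finset.sum_filter, Finset.sum_range_succ, if_neg (show ¬ 2 * k < k by omega), add_zero]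
  refine Finset.sum_congr rfl fun j _ => ?_
  by_cases h1 : 2 * j < k <;> by_cases h2 : P j <;> simp [h1, h2]

lemma filter_eq' (k : ℕ) (F : ℕ → ℕ) :
    ∑ j ∈ (Finset.range k).filter (fun j => 2 * j < k), F j =
      ∑ j ∈ Finset.range (k + 1), if 2 * j < k then F j else 0 := by
  rw [Finset.sum_filter, Finset.sum_range_succ, if_neg (show ¬ 2 * k < k by omega), add_zero]

variable {E : Type} [Field E] [CharZero E] {k n : ℕ} (c : Equiv.Perm (Fin k) → E)

/-- the exponents -/
theorem exponents (hk : Odd k)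
    (hc : sym (Fin n ⊕ Fin n) c * sym (Fin n ⊕ Fin n) c = sym (Fin n ⊕ Fin n) c) {h : ℕ → ℕ}
    (hh : ∀ j ≤ k, gtr (Fin n) (Fin n) c j = (h j : E)) :
    ∃ x y z w : ℕ, n * x = evenSum k h ∧ n * y = oddSum k h ∧ n * z = lowSum k h ∧
      (∀ (R : Type) [CommRing R] [Algebra E R] (g g' : Matrix (Fin n) (Fin n) R),
        dE c (fun j => 2 * j < k) R g g' = g.det ^ w * g'.det ^ z) ∧
      (∀ (R : Type) [CommRing R] [Algebra E R] (g g' : Matrix (Fin n) (Fin n) R),
        dE c (fun j => Even j) R g g' = g.det ^ (z + x) * g'.det ^ (z + y)) ∧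
      (∀ (R : Type) [CommRing R] [Algebra E R] (g g' : Matrix (Fin n) (Fin n) R),
        dE c (fun j => ¬ Even j) R g g' = g.det ^ (z + y) * g'.det ^ (z + x)) := by
  obtain ⟨w, z, h1, -, h1'⟩ := exists_exponents (J := Fin n) (J' := Fin n) c (fun j => 2 * j < k) hc
  obtain ⟨m₁, m₂, h2, h2', h2''⟩ :=
    exists_exponents (J := Fin n) (J' := Fin n) c (fun j => Even j) hc
  obtain ⟨m₃, m₄, h3, h3', h3''⟩ :=
    exists_exponents (J := Fin n) (J' := Fin n) c (fun j => ¬ Even j) hc
  rw [Fintype.card_fin] at h1' h2' h2'' h3' h3''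
  have hsymm : ∀ j ≤ k, h (k - j) = h j := by
    intro j hj
    have h4 := gtr_symm (J := Fin n) c hj
    rw [hh j hj, hh (k - j) (Nat.sub_le _ _)] at h4
    exact_mod_cast h4
  -- rewriting the traces
  have key : ∀ (P : ℕ → Prop) [DecidablePred P] (w : ℕ → ℕ) (m : ℕ),
      ((n * m : ℕ) : E) = (Matrix.diagonal (fun f : Fin k → Fin n ⊕ Fin n => (w (cnt f) : E)) *
        eps (Fin n) (Fin n) c P).trace →
      n * m = ∑ j ∈ Finset.range (k + 1), if P j then w j * h j else 0 := by
    intro P _ w m h4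
    rw [trace_diag_eps c P (fun j => (w j : E))] at h4
    have h5 : ∑ j ∈ Finset.range (k + 1), (if P j then (w j : E) * gtr (Fin n) (Fin n) c j else 0) =
        ((∑ j ∈ Finset.range (k + 1), if P j then w j * h j else 0 : ℕ) : E) := by
      rw [Nat.cast_sum]
      refine Finset.sum_congr rfl fun j hj => ?_
      rw [Finset.mem_range] at hj
      rw [hh j (by omega)]
      split_ifs <;> simp
    rw [h5] at h4
    exact_mod_cast h4
  have k1 := key _ (fun j => j) z h1'
  have k2 := key _ (fun j => k - j) m₁ h2'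
  have k2' := key _ (fun j => j) m₂ h2''
  have k3 := key _ (fun j => k - j) m₃ h3'
  have k3' := key _ (fun j => j) m₄ h3''
  have hk' : ∀ j, j ≤ k → (Even (k - j) ↔ ¬ Even j) := by
    intro j hj
    rw [Nat.even_sub hj]
    have := Nat.not_even_iff_odd.2 hk
    tauto
  have hodd : k % 2 = 1 := Nat.odd_iff.1 hk
  have hE : evenSum k h = ∑ j ∈ Finset.range (k + 1), if 2 * j < k then
      (if Even j then (k - 2 * j) * h j else 0) else 0 :=
    filter_eq k (fun j => Even j) (fun j => (k - 2 * j) * h j)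
  have hO : oddSum k h = ∑ j ∈ Finset.range (k + 1), if 2 * j < k then
      (if ¬ Even j then (k - 2 * j) * h j else 0) else 0 :=
    filter_eq k (fun j => ¬ Even j) (fun j => (k - 2 * j) * h j)
  have hL : lowSum k h = ∑ j ∈ Finset.range (k + 1), if 2 * j < k then j * h j else 0 :=
    filter_eq' k (fun j => j * h j)
  have hz : n * z = lowSum k h := by rw [k1, hL]
  have hsub : ∀ j, 2 * j < k → (k - 2 * j) * h j + j * h j = (k - j) * h j := by
    intro j hj
    rw [← Nat.add_mul]
    congr 1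
    omega
  have hm₁ : n * m₁ = n * z + evenSum k h := by
    rw [k2, hz, hL, hE, fold hk, ← Finset.sum_add_distrib]
    refine Finset.sum_congr rfl fun j hj => ?_
    rw [Finset.mem_range] at hj
    by_cases h4 : 2 * j < k
    · rw [if_pos h4, if_pos h4, if_pos h4]
      by_cases h5 : Even j
      · rw [if_pos h5, if_pos h5, if_neg (fun h6 => (hk' j (by omega)).1 h6 h5), ← hsub j h4]
        ring
      · rw [if_neg h5, if_neg h5, if_pos ((hk' j (by omega)).2 h5), hsymm j (by omega),
          show k - (k - j) = j by omega]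
        ring
    · rw [if_neg h4, if_neg h4, if_neg h4, add_zero]
  have hm₂ : n * m₂ = n * z + oddSum k h := by
    rw [k2', hz, hL, hO, fold hk, ← Finset.sum_add_distrib]
    refine Finset.sum_congr rfl fun j hj => ?_
    rw [Finset.mem_range] at hj
    by_cases h4 : 2 * j < k
    · rw [if_pos h4, if_pos h4, if_pos h4]
      by_cases h5 : Even j
      · rw [if_pos h5, if_neg (not_not.2 h5), if_neg (fun h6 => (hk' j (by omega)).1 h6 h5)]
      · rw [if_neg h5, if_pos h5, if_pos ((hk' j (by omega)).2 h5), hsymm j (by omega),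
          ← hsub j h4]
        ring
    · rw [if_neg h4, if_neg h4, if_neg h4, add_zero]
  have hm₃ : n * m₃ = n * z + oddSum k h := by
    rw [k3, hz, hL, hO, fold hk, ← Finset.sum_add_distrib]
    refine Finset.sum_congr rfl fun j hj => ?_
    rw [Finset.mem_range] at hj
    by_cases h4 : 2 * j < k
    · rw [if_pos h4, if_pos h4, if_pos h4]
      by_cases h5 : Even j
      · rw [if_neg (not_not.2 h5), if_neg (not_not.2 h5),
          if_pos (fun h6 => (hk' j (by omega)).1 h6 h5), hsymm j (by omega),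
          show k - (k - j) = j by omega]
        ring
      · rw [if_pos h5, if_pos h5, if_neg (not_not.2 ((hk' j (by omega)).2 h5)), ← hsub j h4]
        ring
    · rw [if_neg h4, if_neg h4, if_neg h4, add_zero]
  have hm₄ : n * m₄ = n * z + evenSum k h := by
    rw [k3', hz, hL, hE, fold hk, ← Finset.sum_add_distrib]
    refine Finset.sum_congr rfl fun j hj => ?_
    rw [Finset.mem_range] at hj
    by_cases h4 : 2 * j < k
    · rw [if_pos h4, if_pos h4, if_pos h4]
      by_cases h5 : Even j
      · rw [if_neg (not_not.2 h5), if_pos h5,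
          if_pos (fun h6 => (hk' j (by omega)).1 h6 h5), hsymm j (by omega), ← hsub j h4]
        ring
      · rw [if_pos h5, if_neg h5, if_neg (not_not.2 ((hk' j (by omega)).2 h5))]
    · rw [if_neg h4, if_neg h4, if_neg h4, add_zero]
  rcases Nat.eq_zero_or_pos n with h0 | h0
  · subst h0
    rw [zero_mul, zero_mul, zero_add] at hm₁ hm₂
    rw [zero_mul] at hz
    refine ⟨0, 0, 0, 0, by rw [zero_mul, ← hm₁], by rw [zero_mul, ← hm₂],
      by rw [zero_mul, ← hz], ?_, ?_, ?_⟩
    · intro R _ _ g g'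
      rw [h1, Matrix.det_isEmpty, Matrix.det_isEmpty]
      simp
    · intro R _ _ g g'
      rw [h2, Matrix.det_isEmpty, Matrix.det_isEmpty]
      simp
    · intro R _ _ g g'
      rw [h3, Matrix.det_isEmpty, Matrix.det_isEmpty]
      simp
  · have l1 : z ≤ m₁ := Nat.le_of_mul_le_mul_left (by rw [hm₁]; exact Nat.le_add_right _ _) h0
    have l2 : z ≤ m₂ := Nat.le_of_mul_le_mul_left (by rw [hm₂]; exact Nat.le_add_right _ _) h0
    obtain ⟨x, rfl⟩ := Nat.exists_eq_add_of_le l1
    obtain ⟨y, rfl⟩ := Nat.exists_eq_add_of_le l2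
    rw [mul_add] at hm₁ hm₂
    have e1 : m₃ = z + y := by
      refine Nat.eq_of_mul_eq_mul_left h0 ?_
      rw [hm₃, mul_add, hm₂]
    have e2 : m₄ = z + x := by
      refine Nat.eq_of_mul_eq_mul_left h0 ?_
      rw [hm₄, mul_add, hm₁]
    subst e1 e2
    exact ⟨x, y, z, w, Nat.add_left_cancel hm₁, Nat.add_left_cancel hm₂, hz, h1, h2, h3⟩

end Pool.Agent.Helper1.SP
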