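import Pool.Agent.Helper1.SP.Frame
import Pool.Agent.Helper1.SP.Lower

/-!
# The Hodge filtration in the case of two Hodge types
-/

set_option autoImplicit false
set_option linter.unusedSectionVars false

namespace Pool.Agent.Helper1.SP

open Pool.Agent.X33.DP Pool.Agent.X33.DP.PMot Matrix Module

variable {E R : Type} [Field E] [CommRing R] [Algebra E R]

lemma map_mulVec_alg {ι κ : Type} [Fintype κ] (A : Matrix ι κ E) (x : κ → E) :
    (A.map (algebraMap E R)).mulVec (fun j => algebraMap E R (x j)) =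
      fun i => algebraMap E R (A.mulVec x i) := by
  funext i
  simp only [Matrix.mulVec, dotProduct, Matrix.map_apply, map_sum, map_mul]

/-- the quotient map kills the Hodge filtration -/
lemma Q_kill (M : PMot E R) {n : ℕ} {Q : Matrix (Fin n) (Fin M.N) E}
    (hQ : LinearMap.ker Q.mulVecLin = M.fil ((M.w + 1) / 2)) {r : ℤ} (hr : M.w ≤ 2 * r)
    {x : Fin M.N → R} (hx : x ∈ M.H r) : (Q.map (algebraMap E R) * M.P).mulVec x = 0 := by
  have h1 : M.P.mulVecLin x ∈ Submodule.span R ((fun x j => algebraMap E R (x j)) ''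
      (M.fil ((M.w + 1) / 2) : Set (Fin M.N → E))) := by
    rw [← M.comp]
    refine Submodule.mem_map_of_mem ?_
    refine Submodule.mem_iSup_of_mem r (Submodule.mem_iSup_of_mem ?_ hx)
    omega
  rw [← Matrix.mulVec_mulVec]
  rw [Matrix.mulVecLin_apply] at h1
  refine Submodule.span_induction (p := fun z _ => (Q.map (algebraMap E R)).mulVec z = 0)
    ?_ ?_ ?_ ?_ h1
  · rintro _ ⟨y, hy, rfl⟩
    have h2 : Q.mulVec y = 0 := by
      have h3 : y ∈ LinearMap.ker Q.mulVecLin := by
        rw [hQ]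
        exact hy
      exact h3
    beta_reduce
    rw [map_mulVec_alg, h2]
    funext i
    simp
  · rw [Matrix.mulVec_zero]
  · intro a b _ _ ha hb
    rw [Matrix.mulVec_add, ha, hb, add_zero]
  · intro a b _ hb
    rw [Matrix.mulVec_smul, hb, smul_zero]

/-- a basis of `F^±` -/
lemma exists_BF {M : PMot E R} {n : ℕ} {Q : Matrix (Fin n) (Fin M.N) E}
    {V : Matrix (Fin M.N) (Fin n) E} (hQV : Q * V = 1) (hN : M.N = n + n) :
    ∃ (BF : Matrix (Fin M.N) (Fin n) E) (QF : Matrix (Fin n) (Fin M.N) E),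
      Q * BF = 0 ∧ QF * BF = 1 ∧ QF * V = 0 ∧ V * Q + BF * QF = 1 := by
  have hsurj : Function.Surjective Q.mulVecLin := fun y => ⟨V.mulVec y, by
    rw [Matrix.mulVecLin_apply, Matrix.mulVec_mulVec, hQV, Matrix.one_mulVec]⟩
  have h1 : finrank E (LinearMap.ker Q.mulVecLin) = n := by
    have h2 := LinearMap.finrank_range_add_finrank_ker Q.mulVecLin
    rw [LinearMap.range_eq_top.2 hsurj, finrank_top, Module.finrank_fin_fun,
      Module.finrank_fin_fun] at h2
    omega
  let b := Module.finBasisOfFinrankEq E (LinearMap.ker Q.mulVecLin) h1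
  let BF : Matrix (Fin M.N) (Fin n) E := fun i j => (b j : Fin M.N → E) i
  have hBF : ∀ x, BF.mulVec x = (b.equivFun.symm x : Fin M.N → E) := by
    intro x
    rw [Basis.equivFun_symm_apply]
    funext i
    simp only [Matrix.mulVec, dotProduct, BF, Submodule.coe_sum, Finset.sum_apply,
      Submodule.coe_smul, Pi.smul_apply, smul_eq_mul]
    exact Finset.sum_congr rfl fun j _ => mul_comm _ _
  have hinj : Function.Injective BF.mulVec := by
    intro x y hxy
    rw [hBF, hBF] at hxy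
    exact b.equivFun.symm.injective (Subtype.ext hxy)
  have hQBF : Q * BF = 0 := by
    ext i j
    exact congrFun (b j).2 i
  obtain ⟨QF, hQF⟩ := cols_mem_range (B := BF) (A := 1 - V * Q) (by
    intro x
    have h3 : (1 - V * Q).mulVec x ∈ LinearMap.ker Q.mulVecLin := by
      rw [LinearMap.mem_ker, Matrix.mulVecLin_apply, Matrix.mulVec_mulVec, Matrix.mul_sub,
        Matrix.mul_one, ← Matrix.mul_assoc, hQV, Matrix.one_mul, sub_self, Matrix.zero_mulVec]
    refine ⟨b.equivFun ⟨_, h3⟩, ?_⟩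
    rw [Matrix.mulVecLin_apply, hBF, LinearEquiv.symm_apply_apply])
  refine ⟨BF, QF, hQBF, mul_left_inj' hinj ?_, mul_left_inj' hinj ?_, ?_⟩
  · rw [← Matrix.mul_assoc, hQF, Matrix.sub_mul, Matrix.mul_assoc, hQBF, Matrix.mul_zero, sub_zero,
      Matrix.one_mul, Matrix.mul_one]
  · rw [← Matrix.mul_assoc, hQF, Matrix.sub_mul, Matrix.mul_assoc, hQV, Matrix.mul_one,
      Matrix.one_mul, sub_self, Matrix.mul_zero]
  · rw [hQF, add_sub_cancel]

/-- the matrices `Y` and `L`: the columns of `Y` are a basis of `R ^ N` adapted to the Hodge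
decomposition -/
lemma exists_Y [Nontrivial R] {M : PMot E R} {p q : ℤ} (hM : TwoTypes M p q) {n : ℕ}
    {Q : Matrix (Fin n) (Fin M.N) E} {V : Matrix (Fin M.N) (Fin n) E}
    (hQ : LinearMap.ker Q.mulVecLin = M.fil ((M.w + 1) / 2)) (hN : M.N = n + n)
    {BF : Matrix (Fin M.N) (Fin n) E} {QF : Matrix (Fin n) (Fin M.N) E} (hQBF : Q * BF = 0)
    (hsum : V * Q + BF * QF = 1) :
    ∃ (Y : Matrix (Fin M.N) (Fin n ⊕ Fin n) R) (Y' : Matrix (Fin n ⊕ Fin n) (Fin M.N) R)
      (l₁ l₂ : Matrix (Fin n) (Fin n) R), Y * Y' = 1 ∧ Y' * Y = 1 ∧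
      (∀ j, Y.col (Sum.inl j) ∈ M.H p) ∧ (∀ j, Y.col (Sum.inr j) ∈ M.H q) ∧
      M.P * Y * Matrix.fromBlocks l₁ 0 l₂ 1 = (Matrix.fromCols V BF).map (algebraMap E R) := by
  obtain ⟨hpq, hw, hH⟩ := hM
  have hle : (⨆ r, ⨆ (_ : (M.w + 1) / 2 ≤ r), M.H r) ≤ M.H q := by
    refine iSup_le fun r => iSup_le fun hr => ?_
    by_cases h1 : r = q
    · rw [h1]
    by_cases h2 : r = p
    · omega
    · rw [hH r h2 h1]
      exact bot_le
  have hPinj : Function.Injective M.P.mulVec := by
    obtain ⟨u, hu⟩ := M.P_unit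
    intro x y hxy
    have h1 := congrArg (fun z => (↑u⁻¹ : Matrix (Fin M.N) (Fin M.N) R).mulVec z) hxy
    simpa [Matrix.mulVec_mulVec, ← hu] using h1
  have hcol : ∀ j : Fin n, ∃ y ∈ M.H q, M.P.mulVec y = fun i => algebraMap E R (BF i j) := by
    intro j
    have h1 : (fun i => algebraMap E R (BF i j)) ∈ Submodule.span R
        ((fun x j => algebraMap E R (x j)) ''
          (M.fil ((M.w + 1) / 2) : Set (Fin M.N → E))) := by
      refine Submodule.subset_span ⟨fun i => BF i j, ?_, rfl⟩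
      rw [← hQ]
      funext i
      exact congrFun (congrFun hQBF i) j
    rw [← M.comp] at h1
    obtain ⟨y, hy, hy'⟩ := h1
    exact ⟨y, hle hy, hy'⟩
  choose y hy hPy using hcol
  let Yq : Matrix (Fin M.N) (Fin n) R := fun i j => y j i
  have hPYq : M.P * Yq = BF.map (algebraMap E R) := by
    ext i j
    exact congrFun (hPy j) i
  have hgenq : ∀ x ∈ M.H q, ∃ u, x = Yq.mulVec u := by
    intro x hx
    have h1 : M.P.mulVecLin x ∈ Submodule.span R ((fun x j => algebraMap E R (x j)) ''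
        (M.fil ((M.w + 1) / 2) : Set (Fin M.N → E))) := by
      rw [← M.comp]
      refine Submodule.mem_map_of_mem ?_
      refine Submodule.mem_iSup_of_mem q (Submodule.mem_iSup_of_mem ?_ hx)
      omega
    rw [Matrix.mulVecLin_apply] at h1
    have h2 : ∃ u, M.P.mulVec x = (BF.map (algebraMap E R)).mulVec u := by
      refine Submodule.span_induction (p := fun z _ => ∃ u,
        z = (BF.map (algebraMap E R)).mulVec u) ?_ ?_ ?_ ?_ h1
      · rintro _ ⟨z, hz, rfl⟩
        refine ⟨fun j => algebraMap E R (QF.mulVec z j), ?_⟩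
        rw [map_mulVec_alg, Matrix.mulVec_mulVec, ← add_sub_cancel_left (V * Q) (BF * QF), hsum,
          Matrix.sub_mulVec, Matrix.one_mulVec, ← Matrix.mulVec_mulVec]
        have h3 : Q.mulVec z = 0 := by
          have h4 : z ∈ LinearMap.ker Q.mulVecLin := by
            rw [hQ]
            exact hz
          exact h4
        rw [h3, Matrix.mulVec_zero, sub_zero]
      · exact ⟨0, by rw [Matrix.mulVec_zero]⟩
      · rintro a b _ _ ⟨u, rfl⟩ ⟨v, rfl⟩
        exact ⟨u + v, by rw [Matrix.mulVec_add]⟩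
      · rintro a b _ ⟨u, rfl⟩
        exact ⟨a • u, by rw [Matrix.mulVec_smul]⟩
    obtain ⟨u, hu⟩ := h2
    refine ⟨u, hPinj ?_⟩
    rw [hu, ← hPYq, Matrix.mulVec_mulVec]
  have hFF : M.F.map (algebraMap E R) * M.F.map (algebraMap E R) = 1 := by
    rw [← Matrix.map_mul, M.F_sq, Matrix.map_one _ (map_zero _) (map_one _)]
  let Yp : Matrix (Fin M.N) (Fin n) R := M.F.map (algebraMap E R) * Yq
  have hgenp : ∀ x ∈ M.H p, ∃ u, x = Yp.mulVec u := by
    intro x hx
    have h1 := M.swap p x hx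
    rw [hw, add_sub_cancel_left] at h1
    obtain ⟨u, hu⟩ := hgenq _ h1
    refine ⟨u, ?_⟩
    rw [← Matrix.mulVec_mulVec, ← hu, Matrix.mulVec_mulVec, hFF, Matrix.one_mulVec]
  let Y : Matrix (Fin M.N) (Fin n ⊕ Fin n) R := Matrix.fromCols Yp Yq
  have hgen : ∀ x, ∃ u, Y.mulVec u = x := by
    intro x
    obtain ⟨v, t, hv⟩ := M.hodge
    have h1 : x ∈ Submodule.span R (Set.range v) := by
      rw [v.span_eq]
      exact Submodule.mem_top
    refine Submodule.span_induction (p := fun z _ => ∃ u, Y.mulVec u = z) ?_ ?_ ?_ ?_ h1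
    · rintro _ ⟨j, rfl⟩
      have h2 : v j ∈ M.H (t j) := by
        rw [hv]
        exact Submodule.subset_span ⟨j, rfl, rfl⟩
      by_cases h3 : t j = p
      · rw [h3] at h2
        obtain ⟨u, hu⟩ := hgenp _ h2
        refine ⟨Sum.elim u 0, ?_⟩
        rw [hu]
        simp only [Y, Matrix.fromCols_mulVec_sumElim, Matrix.mulVec_zero, add_zero]
      · by_cases h4 : t j = q
        · rw [h4] at h2
          obtain ⟨u, hu⟩ := hgenq _ h2
          refine ⟨Sum.elim 0 u, ?_⟩
          rw [hu]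
          simp only [Y, Matrix.fromCols_mulVec_sumElim, Matrix.mulVec_zero, zero_add]
        · rw [hH _ h3 h4, Submodule.mem_bot] at h2
          exact ⟨0, by rw [h2, Matrix.mulVec_zero]⟩
    · exact ⟨0, by rw [Matrix.mulVec_zero]⟩
    · rintro a b _ _ ⟨u, rfl⟩ ⟨v, rfl⟩
      exact ⟨u + v, by rw [Matrix.mulVec_add]⟩
    · rintro a b _ ⟨u, rfl⟩
      exact ⟨a • u, by rw [Matrix.mulVec_smul]⟩
  choose u hu using fun j : Fin M.N => hgen (Pi.single j 1)
  let Y' : Matrix (Fin n ⊕ Fin n) (Fin M.N) R := fun i j => u j i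
  have hYY' : Y * Y' = 1 := by
    ext i j
    rw [Matrix.one_eq_pi_single, Pi.single_comm]
    exact congrFun (hu j) i
  have hY'Y : Y' * Y = 1 := by
    refine (Matrix.mul_eq_one_comm_of_card_eq _ _ _ ?_).1 hYY'
    simp [hN]
  obtain ⟨P', hP'⟩ := M.P_unit.exists_right_inv
  let l : Matrix (Fin n ⊕ Fin n) (Fin n) R := Y' * (P' * V.map (algebraMap E R))
  refine ⟨Y, Y', l.toRows₁, l.toRows₂, hYY', hY'Y, ?_, hy, ?_⟩
  · intro j
    have h1 := M.swap q (y j) (hy j)
    rw [hw, add_sub_cancel_right] at h1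
    exact h1
  · rw [← Matrix.fromCols_fromRows_eq_fromBlocks, Matrix.mul_fromCols, Matrix.fromRows_toRows]
    have h1 : (Matrix.fromCols V BF).map (algebraMap E R) =
        Matrix.fromCols (V.map (algebraMap E R)) (BF.map (algebraMap E R)) := by
      ext i (j | j) <;> rfl
    rw [h1]
    congr 1
    · simp only [l]
      rw [← Matrix.mul_assoc, Matrix.mul_assoc M.P, hYY', Matrix.mul_one, ← Matrix.mul_assoc, hP',
        Matrix.one_mul]
    · rw [Matrix.mul_assoc, Matrix.fromCols_mul_fromRows, Matrix.mul_zero, Matrix.mul_one, zero_add,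
        hPYq]

end Pool.Agent.Helper1.SP
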