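import Pool.Agent.Helper1.SP.SDefs

/-!
# Bases adapted to `F_∞` and to the Hodge filtration
-/

set_option autoImplicit false
set_option linter.unusedSectionVars false

namespace Pool.Agent.Helper1.SP

open Pool.Agent.X33.DP Pool.Agent.X33.DP.PMot Matrix Module

variable {E R : Type} [Field E] [CommRing R] [Algebra E R]

/-- bases of `M^s`, of `M_DR / F^±` and of `F^±` -/
structure Frame (M : PMot E R) (s : ℤˣ) (n : ℕ) (B : Matrix (Fin M.N) (Fin n) E)
    (C : Matrix (Fin n) (Fin M.N) E) (Q : Matrix (Fin n) (Fin M.N) E)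
    (V : Matrix (Fin M.N) (Fin n) E) : Prop where
  CB : C * B = 1
  BC : B * C = (2⁻¹ : E) • (1 + ((s : ℤ) : E) • M.F)
  QV : Q * V = 1
  ker : LinearMap.ker Q.mulVecLin = M.fil ((M.w + 1) / 2)
  dim : M.N = n + n
  per : M.IsPeriod s (Q.map (algebraMap E R) * M.P * B.map (algebraMap E R)).det

lemma cols_mem_range {m n p : ℕ} {B : Matrix (Fin m) (Fin n) E} {A : Matrix (Fin m) (Fin p) E}
    (h : ∀ x, A.mulVec x ∈ LinearMap.range B.mulVecLin) : ∃ C : Matrix (Fin n) (Fin p) E,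
      B * C = A := by
  choose f hf using fun j : Fin p => h (Pi.single j 1)
  refine ⟨fun i j => f j i, ?_⟩
  ext i j
  have h1 := congrFun (hf j) i
  rw [Matrix.mulVec_single_one] at h1
  exact h1

lemma mul_left_inj' {m n p : ℕ} {B : Matrix (Fin m) (Fin n) E} (hB : Function.Injective B.mulVec)
    {X Y : Matrix (Fin n) (Fin p) E} (h : B * X = B * Y) : X = Y := by
  ext i j
  have h1 : B.mulVec (X.col j) = B.mulVec (Y.col j) := by
    ext l
    exact congrFun (congrFun h l) j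
  exact congrFun (hB h1) i

variable [CharZero E]

lemma intUnits_mul_self (s : ℤˣ) : (((s : ℤ) : E)) * ((s : ℤ) : E) = 1 := by
  rcases Int.units_eq_one_or s with rfl | rfl <;> simp

/-- the projection to the eigenspace -/
lemma F_proj (M : PMot E R) (s : ℤˣ) :
    M.F * ((2⁻¹ : E) • (1 + ((s : ℤ) : E) • M.F)) =
      ((s : ℤ) : E) • ((2⁻¹ : E) • (1 + ((s : ℤ) : E) • M.F)) := by
  rw [Matrix.mul_smul, Matrix.mul_add, Matrix.mul_one, Matrix.mul_smul, M.F_sq,
    smul_comm ((s : ℤ) : E) (2⁻¹ : E), smul_add ((s : ℤ) : E), smul_smul ((s : ℤ) : E),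
    intUnits_mul_self, one_smul, add_comm]

lemma exists_C (M : PMot E R) (s : ℤˣ) {n : ℕ} {B : Matrix (Fin M.N) (Fin n) E}
    (hB : Function.Injective B.mulVec) (hB' : LinearMap.range B.mulVecLin = M.eig s) :
    ∃ C : Matrix (Fin n) (Fin M.N) E, C * B = 1 ∧
      B * C = (2⁻¹ : E) • (1 + ((s : ℤ) : E) • M.F) := by
  obtain ⟨C, hC⟩ := cols_mem_range (B := B) (A := (2⁻¹ : E) • (1 + ((s : ℤ) : E) • M.F)) (by
    intro x
    rw [hB', mem_eig, Matrix.mulVec_mulVec, F_proj, Matrix.smul_mulVec, Int.cast_smul_eq_zsmul])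
  refine ⟨C, mul_left_inj' hB ?_, hC⟩
  rw [← Matrix.mul_assoc, hC, Matrix.mul_one]
  ext i j
  have h1 : B.mulVec (Pi.single j 1) ∈ M.eig s := by
    rw [← hB']
    exact ⟨_, rfl⟩
  rw [mem_eig, Matrix.mulVec_single_one, ← Int.cast_smul_eq_zsmul E] at h1
  have h2 : M.F * B = ((s : ℤ) : E) • B := by
    ext a b
    have h1 : B.mulVec (Pi.single b 1) ∈ M.eig s := by
      rw [← hB']
      exact ⟨_, rfl⟩
    rw [mem_eig, Matrix.mulVec_single_one, ← Int.cast_smul_eq_zsmul E] at h1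
    exact congrFun h1 a
  rw [Matrix.smul_mul, Matrix.add_mul, Matrix.one_mul, Matrix.smul_mul, h2, smul_smul,
    intUnits_mul_self, one_smul, ← two_smul E B, smul_smul, inv_mul_cancel₀ two_ne_zero, one_smul]

/-- the two eigenspaces span -/
lemma BC_add {M : PMot E R} {s : ℤˣ} {n n' : ℕ} {B : Matrix (Fin M.N) (Fin n) E}
    {C : Matrix (Fin n) (Fin M.N) E} {B' : Matrix (Fin M.N) (Fin n') E}
    {C' : Matrix (Fin n') (Fin M.N) E}
    (h : B * C = (2⁻¹ : E) • (1 + ((s : ℤ) : E) • M.F))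
    (h' : B' * C' = (2⁻¹ : E) • (1 + (((-s : ℤˣ) : ℤ) : E) • M.F)) : B * C + B' * C' = 1 := by
  rw [h, h', ← smul_add, Units.val_neg, Int.cast_neg, neg_smul]
  rw [show (1 : Matrix (Fin M.N) (Fin M.N) E) + ((s : ℤ) : E) • M.F +
    (1 + -(((s : ℤ) : E) • M.F)) = (2 : E) • (1 : Matrix (Fin M.N) (Fin M.N) E) by
      rw [two_smul]; abel, smul_smul, inv_mul_cancel₀ two_ne_zero, one_smul]

lemma CB_zero {M : PMot E R} {s : ℤˣ} {n n' : ℕ} {B : Matrix (Fin M.N) (Fin n) E}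
    {C : Matrix (Fin n) (Fin M.N) E} {B' : Matrix (Fin M.N) (Fin n') E}
    {C' : Matrix (Fin n') (Fin M.N) E} (hCB : C * B = 1) (hCB' : C' * B' = 1)
    (h : B * C = (2⁻¹ : E) • (1 + ((s : ℤ) : E) • M.F))
    (h' : B' * C' = (2⁻¹ : E) • (1 + (((-s : ℤˣ) : ℤ) : E) • M.F)) : C * B' = 0 := by
  have h1 : (B * C) * (B' * C') = 0 := by
    rw [h, h', Matrix.smul_mul, Matrix.mul_smul, Matrix.add_mul, Matrix.one_mul, Matrix.mul_add,
      Matrix.mul_one, Matrix.smul_mul, Matrix.mul_smul, M.F_sq, smul_smul ((s : ℤ) : E),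
      Units.val_neg, Int.cast_neg, mul_neg, intUnits_mul_self, neg_smul, neg_smul, one_smul]
    rw [show (1 : Matrix (Fin M.N) (Fin M.N) E) + -(((s : ℤ) : E) • M.F) +
      (((s : ℤ) : E) • M.F + -1) = 0 by abel, smul_zero, smul_zero]
  calc C * B' = (C * B) * (C * B') * (C' * B') := by rw [hCB, hCB', Matrix.one_mul, Matrix.mul_one]
    _ = C * ((B * C) * (B' * C')) * B' := by simp only [Matrix.mul_assoc]
    _ = 0 := by rw [h1, Matrix.mul_zero, Matrix.zero_mul]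

/-- the matrix with the blocks `B`, `B'` -/
lemma frame_inv {M : PMot E R} {s : ℤˣ} {n n' : ℕ} {B : Matrix (Fin M.N) (Fin n) E}
    {C : Matrix (Fin n) (Fin M.N) E} {B' : Matrix (Fin M.N) (Fin n') E}
    {C' : Matrix (Fin n') (Fin M.N) E} (hCB : C * B = 1) (hCB' : C' * B' = 1)
    (h : B * C = (2⁻¹ : E) • (1 + ((s : ℤ) : E) • M.F))
    (h' : B' * C' = (2⁻¹ : E) • (1 + (((-s : ℤˣ) : ℤ) : E) • M.F)) :
    Matrix.fromCols B B' * Matrix.fromRows C C' = 1 ∧
      Matrix.fromRows C C' * Matrix.fromCols B B' = 1 := by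
  constructor
  · rw [Matrix.fromCols_mul_fromRows, BC_add h h']
  · rw [Matrix.fromRows_mul_fromCols, hCB, hCB', CB_zero hCB hCB' h h',
      CB_zero (s := -s) hCB' hCB h' (by rw [neg_neg]; exact h), Matrix.fromBlocks_one]

lemma dim_of_range [Nontrivial R] {M : PMot E R} {s : ℤˣ} {n : ℕ}
    {B : Matrix (Fin M.N) (Fin n) E}
    (hB : Function.Injective B.mulVec) (hB' : LinearMap.range B.mulVecLin = M.eig s) :
    n = M.dim s := by
  rw [PMot.dim, ← hB', LinearMap.finrank_range_of_inj hB, Module.finrank_fin_fun]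

/-- frames at `s` and at `-s` -/
theorem exists_frames [Nontrivial R] (M : PMot E R) (h0 : M.NoMiddle) (s : ℤˣ) :
    ∃ (n : ℕ) (B B' : Matrix (Fin M.N) (Fin n) E) (C C' Q : Matrix (Fin n) (Fin M.N) E)
      (V : Matrix (Fin M.N) (Fin n) E), n = M.dim 1 ∧ Frame M s n B C Q V ∧
        Frame M (-s) n B' C' Q V := by
  obtain ⟨_, n, B, Q, h1, h2, h3, h4, rfl⟩ := M.exists_isPeriod h0 s
  obtain ⟨_, n', B', Q', h1', h2', h3', h4', rfl⟩ := M.exists_isPeriod h0 (-s)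
  have hn : n = M.dim 1 := (dim_of_range h1 h2).trans (dim_eq h0 s 1)
  have hn' : n' = n := (dim_of_range h1' h2').trans ((dim_eq h0 (-s) 1).trans hn.symm)
  subst hn'
  obtain ⟨C, hC1, hC2⟩ := exists_C M s h1 h2
  obtain ⟨C', hC1', hC2'⟩ := exists_C M (-s) h1' h2'
  obtain ⟨hU, hU'⟩ := frame_inv hC1 hC1' hC2 hC2'
  have hdim : M.N = n' + n' := by
    have h5 := Matrix.square_of_invertible _ _ hU hU'
    simpa using h5
  obtain ⟨V, hV⟩ : ∃ V : Matrix (Fin M.N) (Fin n') E, Q * V = 1 := by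
    choose f hf using fun j : Fin n' => h3 (Pi.single j 1)
    refine ⟨fun i j => f j i, ?_⟩
    ext i j
    have h5 := congrFun (hf j) i
    rw [Matrix.one_eq_pi_single, Pi.single_comm]
    exact h5
  exact ⟨n', B, B', C, C', Q, V, hn, ⟨hC1, hC2, hV, h4, hdim, ⟨n', B, Q, h1, h2, h3, h4, rfl⟩⟩,
    ⟨hC1', hC2', hV, h4, hdim, ⟨n', B', Q, h1', h2', h3, h4, rfl⟩⟩⟩

end Pool.Agent.Helper1.SP
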