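import Pool.Agent.Helper1.SP.DRh

/-!
# The Hodge numbers
-/

set_option autoImplicit false
set_option linter.unusedSectionVars false

namespace Pool.Agent.Helper1.SP

open Pool.Agent.X33.DP Pool.Agent.X33.DP.PMot Matrix Module

variable {E R : Type} [Field E] [CommRing R] [Algebra E R]

/-- the trace of the projection to `M^{r, w - r}` -/
lemma exists_proj [Nontrivial R] (T : PMot E R) (r : ℤ) :
    ∃ f : (Fin T.N → R) →ₗ[R] (Fin T.N → R), (∀ x ∈ T.H r, f x = x) ∧
      (∀ r', r' ≠ r → ∀ x ∈ T.H r', f x = 0) ∧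
      LinearMap.trace R _ f = (hodgeNumber T r : R) := by
  obtain ⟨v, t, hv⟩ := T.hodge
  let f : (Fin T.N → R) →ₗ[R] (Fin T.N → R) := v.constr R (fun i => if t i = r then v i else 0)
  have hf : ∀ i, f (v i) = if t i = r then v i else 0 := fun i => Basis.constr_basis _ _ _ _
  refine ⟨f, ?_, ?_, ?_⟩
  · intro x hx
    rw [hv] at hx
    refine Submodule.span_induction (p := fun z _ => f z = z) ?_ (map_zero f) ?_ ?_ hx
    · rintro _ ⟨i, hi, rfl⟩
      rw [hf, if_pos (show t i = r from hi)]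
    · intro a b _ _ ha hb
      rw [map_add, ha, hb]
    · intro a b _ hb
      rw [map_smul, hb]
  · intro r' hr' x hx
    rw [hv] at hx
    refine Submodule.span_induction (p := fun z _ => f z = 0) ?_ (map_zero f) ?_ ?_ hx
    · rintro _ ⟨i, hi, rfl⟩
      rw [hf, if_neg]
      intro h
      exact hr' ((show t i = r' from hi).symm.trans h)
    · intro a b _ _ ha hb
      rw [map_add, ha, hb, add_zero]
    · intro a b _ hb
      rw [map_smul, hb, smul_zero]
  · rw [LinearMap.trace_eq_matrix_trace R v, Matrix.trace]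
    have h1 : ∀ i, (LinearMap.toMatrix v v f).diag i = if t i = r then 1 else 0 := by
      intro i
      rw [Matrix.diag_apply, LinearMap.toMatrix_apply, hf]
      split_ifs
      · rw [Basis.repr_self, Finsupp.single_eq_same]
      · rw [map_zero, Finsupp.zero_apply]
    rw [Finset.sum_congr rfl fun i _ => h1 i, Finset.sum_boole]
    congr 1
    have h2 : LinearIndependent R (fun i : {i // t i = r} => v i) :=
      v.linearIndependent.comp _ Subtype.val_injective
    have h3 := finrank_span_eq_card h2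
    have h4 : Set.range (fun i : {i // t i = r} => v i) = v '' {j | t j = r} := by
      ext x
      simp
    rw [h4, ← hv] at h3
    rw [hodgeNumber, h3, Fintype.card_subtype]

variable [CharZero E] [Nontrivial R]

/-- the projections to the Hodge components of `T` -/
lemma exists_Pj {M T : PMot E R} {p q : ℤ} {k : ℕ}
    {c : Equiv.Perm (Fin k) → E} {β : Matrix (Fin T.N) (Fin k → Fin M.N) E}
    (hT : IsSchur M T k c β) {γ : Matrix (Fin k → Fin M.N) (Fin T.N) E} (hβγ : β * γ = 1)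
    (hγβ : γ * β = sym (Fin M.N) c) {n : ℕ} {Y : Matrix (Fin M.N) (Fin n ⊕ Fin n) R}
    {Y' : Matrix (Fin n ⊕ Fin n) (Fin M.N) R} (hYY' : Y * Y' = 1) (hY'Y : Y' * Y = 1)
    (hp : ∀ j, Y.col (Sum.inl j) ∈ M.H p) (hq : ∀ j, Y.col (Sum.inr j) ∈ M.H q) :
    ∃ Pj : ℕ → Matrix (Fin T.N) (Fin T.N) R,
      (∀ i x, (Pj i).mulVec x ∈ T.H (((k - i : ℕ) : ℤ) * p + (i : ℤ) * q)) ∧
      ∑ i ∈ Finset.range (k + 1), Pj i = 1 ∧
      ∀ j, (Pj j).trace = gtr (Fin n) (Fin n) (fun σ => algebraMap E R (c σ)) j := by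
  set cm : Equiv.Perm (Fin k) → R := fun σ => algebraMap E R (c σ) with hcm
  set βm := β.map (algebraMap E R) with hβm
  set γm := γ.map (algebraMap E R) with hγm
  have hβγm : βm * γm = 1 := by rw [hβm, hγm, ← Matrix.map_mul, hβγ, map_one']
  have hγβm : γm * βm = sym (Fin M.N) cm := by
    rw [hβm, hγm, ← Matrix.map_mul, hγβ, sym_map]
  have hβs : βm * sym (Fin M.N) cm = βm := by
    rw [← hγβm, ← Matrix.mul_assoc, hβγm, Matrix.one_mul]
  have hYs : βm * tp k Y * sym (Fin n ⊕ Fin n) cm = βm * tp k Y := by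
    rw [Matrix.mul_assoc, tp_sym, ← Matrix.mul_assoc, hβs]
  let Pj : ℕ → Matrix (Fin T.N) (Fin T.N) R := fun i =>
    βm * tp k Y * eps (Fin n) (Fin n) cm (fun l => l = i) * (tp k Y' * γm)
  have hPj : ∀ i x, (Pj i).mulVec x ∈ T.H (((k - i : ℕ) : ℤ) * p + (i : ℤ) * q) := by
    intro i x
    change (βm * tp k Y * eps (Fin n) (Fin n) cm (fun l => l = i) * (tp k Y' * γm)).mulVec x ∈ _
    rw [← Matrix.mulVec_mulVec]
    generalize (tp k Y' * γm).mulVec x = z
    rw [eps, ← Matrix.mul_assoc, hYs, ← Matrix.mulVec_mulVec]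
    have h1 : (sel R k (Fin n) (Fin n) (fun l => l = i)).mulVec z =
        ∑ g, (if cnt g = i then z g else 0) • (Pi.single g (1 : R)) := by
      funext f
      rw [sel, Matrix.mulVec_diagonal, Finset.sum_apply]
      simp only [Pi.smul_apply, Pi.single_apply, smul_eq_mul, mul_ite, mul_one, mul_zero]
      rw [Finset.sum_ite_eq, if_pos (Finset.mem_univ _)]
      split_ifs <;> simp
    rw [h1, Matrix.mulVec_sum]
    refine Submodule.sum_mem _ fun g _ => ?_
    rw [Matrix.mulVec_smul]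
    split_ifs with hg
    · refine Submodule.smul_mem _ _ ?_
      have h2 := beta_col hT hp hq g
      rw [hg] at h2
      exact h2
    · rw [zero_smul]
      exact Submodule.zero_mem _
  have hsum : ∑ i ∈ Finset.range (k + 1), Pj i = 1 := by
    have h1 : ∑ i ∈ Finset.range (k + 1), eps (Fin n) (Fin n) cm (fun l => l = i) =
        sym (Fin n ⊕ Fin n) cm := by
      simp only [eps]
      rw [← Finset.mul_sum]
      have h2 : ∑ i ∈ Finset.range (k + 1), sel R k (Fin n) (Fin n) (fun l => l = i) = 1 := by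
        ext f g
        rw [Matrix.sum_apply, Matrix.one_apply]
        simp only [sel, Matrix.diagonal_apply]
        split_ifs with h
        · rw [Finset.sum_ite_eq, if_pos (Finset.mem_range.2 (Nat.lt_succ_of_le (cnt_le f)))]
        · rw [Finset.sum_const_zero]
      rw [h2, Matrix.mul_one]
    calc ∑ i ∈ Finset.range (k + 1), Pj i
        = βm * tp k Y * (∑ i ∈ Finset.range (k + 1), eps (Fin n) (Fin n) cm (fun l => l = i)) *
            (tp k Y' * γm) := by
          rw [Matrix.mul_sum, Matrix.sum_mul]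
      _ = βm * (tp k Y * tp k Y') * γm := by
          rw [h1, hYs]
          simp only [Matrix.mul_assoc]
      _ = 1 := by rw [← tp_mul, hYY', tp_one, Matrix.mul_one, hβγm]
  have htr : ∀ j, (Pj j).trace = gtr (Fin n) (Fin n) cm j := by
    intro j
    have hc : sym (Fin n ⊕ Fin n) cm * sym (Fin n ⊕ Fin n) cm = sym (Fin n ⊕ Fin n) cm := by
      refine sym_idem_transport cm hYY' hY'Y ?_
      rw [← hγβm, Matrix.mul_assoc, ← Matrix.mul_assoc βm, hβγm, Matrix.one_mul]
    calc (Pj j).trace = (eps (Fin n) (Fin n) cm (fun l => l = j) *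
          (tp k Y' * (γm * βm) * tp k Y)).trace := by
          change (βm * tp k Y * eps (Fin n) (Fin n) cm (fun l => l = j) * (tp k Y' * γm)).trace = _
          rw [Matrix.mul_assoc (βm * tp k Y), Matrix.trace_mul_comm]
          congr 1
          simp only [Matrix.mul_assoc]
      _ = (sym (Fin n ⊕ Fin n) cm * (sel R k (Fin n) (Fin n) (fun l => l = j) *
            sym (Fin n ⊕ Fin n) cm)).trace := by
          rw [hγβm, tp_sym, Matrix.mul_assoc, ← tp_mul, hY'Y, tp_one, Matrix.mul_one, eps,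
            Matrix.mul_assoc]
      _ = gtr (Fin n) (Fin n) cm j := by
          rw [sel_sym, ← Matrix.mul_assoc, hc, gtr, eps]
  exact ⟨Pj, hPj, hsum, htr⟩

/-- the Hodge numbers of `T` -/
theorem hodgeNumber_eq {M T : PMot E R} {p q : ℤ} (hM : TwoTypes M p q) {k : ℕ}
    {c : Equiv.Perm (Fin k) → E} {β : Matrix (Fin T.N) (Fin k → Fin M.N) E}
    (hT : IsSchur M T k c β) {γ : Matrix (Fin k → Fin M.N) (Fin T.N) E} (hβγ : β * γ = 1)
    (hγβ : γ * β = sym (Fin M.N) c) {n : ℕ} {Y : Matrix (Fin M.N) (Fin n ⊕ Fin n) R}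
    {Y' : Matrix (Fin n ⊕ Fin n) (Fin M.N) R} (hYY' : Y * Y' = 1) (hY'Y : Y' * Y = 1)
    (hp : ∀ j, Y.col (Sum.inl j) ∈ M.H p) (hq : ∀ j, Y.col (Sum.inr j) ∈ M.H q) {j : ℕ}
    (hj : j ≤ k) :
    (hodgeNumber T (((k - j : ℕ) : ℤ) * p + (j : ℤ) * q) : E) = gtr (Fin n) (Fin n) c j := by
  have hinj : Function.Injective (algebraMap E R) := FaithfulSMul.algebraMap_injective E R
  obtain ⟨Pj, hPj, hsum, htr⟩ := exists_Pj hT hβγ hγβ hYY' hY'Y hp hq
  obtain ⟨f, hf1, hf2, hf3⟩ := exists_proj T (((k - j : ℕ) : ℤ) * p + (j : ℤ) * q)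
  have hfP : f = (Pj j).mulVecLin := by
    refine LinearMap.ext fun x => ?_
    have h1 : x = ∑ i ∈ Finset.range (k + 1), (Pj i).mulVec x := by
      have h2 : (∑ i ∈ Finset.range (k + 1), Pj i).mulVec x = x := by
        rw [hsum, Matrix.one_mulVec]
      conv_lhs => rw [← h2]
      rw [Matrix.sum_mulVec]
    conv_lhs => rw [h1]
    rw [map_sum, Finset.sum_eq_single j]
    · rw [hf1 _ (hPj j x), Matrix.mulVecLin_apply]
    · intro i hi hij
      refine hf2 _ ?_ _ (hPj i x)
      intro h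
      rw [Finset.mem_range] at hi
      rw [Nat.cast_sub hj, Nat.cast_sub (Nat.lt_succ_iff.1 hi)] at h
      have h3 : ((i : ℤ) - j) * (q - p) = 0 := by linear_combination h
      rcases mul_eq_zero.1 h3 with h4 | h4
      · exact hij (by exact_mod_cast sub_eq_zero.1 h4)
      · have := hM.1
        omega
    · intro h
      exact absurd (Finset.mem_range.2 (Nat.lt_succ_of_le hj)) h
  apply hinj
  rw [map_natCast, ← hf3, hfP, ← Matrix.toLin'_apply', Matrix.trace_toLin'_eq, htr j, gtr, gtr,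
    ← eps_map, ← AddMonoidHom.map_trace]

/-- `T` has no middle classes -/
theorem noMiddle_of_odd {M T : PMot E R} {p q : ℤ} (hM : TwoTypes M p q) {k : ℕ} (hk : Odd k)
    {c : Equiv.Perm (Fin k) → E} {β : Matrix (Fin T.N) (Fin k → Fin M.N) E}
    (hT : IsSchur M T k c β) {γ : Matrix (Fin k → Fin M.N) (Fin T.N) E} (hβγ : β * γ = 1)
    (hγβ : γ * β = sym (Fin M.N) c) {n : ℕ} {Y : Matrix (Fin M.N) (Fin n ⊕ Fin n) R}
    {Y' : Matrix (Fin n ⊕ Fin n) (Fin M.N) R} (hYY' : Y * Y' = 1) (hY'Y : Y' * Y = 1)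
    (hp : ∀ j, Y.col (Sum.inl j) ∈ M.H p) (hq : ∀ j, Y.col (Sum.inr j) ∈ M.H q) :
    T.NoMiddle := by
  intro r hr
  obtain ⟨Pj, hPj, hsum, -⟩ := exists_Pj hT hβγ hγβ hYY' hY'Y hp hq
  obtain ⟨f, hf1, hf2, -⟩ := exists_proj T r
  rw [Submodule.eq_bot_iff]
  intro x hx
  have h2 : (∑ i ∈ Finset.range (k + 1), Pj i).mulVec x = x := by
    rw [hsum, Matrix.one_mulVec]
  rw [← hf1 x hx]
  conv_lhs => rw [← h2]
  rw [Matrix.sum_mulVec, map_sum]
  refine Finset.sum_eq_zero fun i hi => hf2 _ ?_ _ (hPj i x)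
  intro h
  rw [Finset.mem_range] at hi
  rw [hT.weight, hM.2.1, ← h, Nat.cast_sub (Nat.lt_succ_iff.1 hi)] at hr
  have h3 : ((k : ℤ) - 2 * i) * (p - q) = 0 := by linear_combination hr
  rcases mul_eq_zero.1 h3 with h4 | h4
  · obtain ⟨l, hl⟩ := hk
    omega
  · have := hM.1
    omega

end Pool.Agent.Helper1.SP
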