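import Pool.Agent.Helper1.SP.Jop

/-!
# A basis adapted to the Hodge decomposition and to `F_∞`
-/

set_option autoImplicit false
set_option linter.unusedSectionVars false

namespace Pool.Agent.Helper1.SP

open Pool.Agent.X33.DP Pool.Agent.X33.DP.PMot Matrix Module

variable {E R : Type} [Field E] [CommRing R] [Algebra E R]

lemma FF_map (M : PMot E R) : M.F.map (algebraMap E R) * M.F.map (algebraMap E R) = 1 := by
  rw [← Matrix.map_mul, M.F_sq, map_one']

/-- the basis elements on one side, and their images under `F_∞`, span -/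
lemma half_spans (M : PMot E R) (h0 : M.NoMiddle) (v : Basis (Fin M.N) R (Fin M.N → R))
    (t : Fin M.N → ℤ) (hv : ∀ p, M.H p = Submodule.span R (v '' {j | t j = p})) (S : ℤ → Prop)
    (hS : ∀ r, 2 * r ≠ M.w → S r ∨ S (M.w - r)) (x : Fin M.N → R) :
    x ∈ Submodule.span R (Set.range (fun i : {i // S (t i)} => v i)) ⊔
      Submodule.span R (Set.range (fun i : {i // S (t i)} =>
        (M.F.map (algebraMap E R)).mulVec (v i))) := by
  set W := Submodule.span R (Set.range (fun i : {i // S (t i)} => v i)) with hW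
  set W' := Submodule.span R (Set.range (fun i : {i // S (t i)} =>
        (M.F.map (algebraMap E R)).mulVec (v i))) with hW'
  have hHS : ∀ r, S r → M.H r ≤ W := by
    intro r hr
    rw [hv]
    refine Submodule.span_mono ?_
    rintro _ ⟨i, hi, rfl⟩
    exact ⟨⟨i, by rw [show t i = r from hi]; exact hr⟩, rfl⟩
  have hFW : ∀ y ∈ W, (M.F.map (algebraMap E R)).mulVec y ∈ W' := by
    intro y hy
    refine Submodule.span_induction (p := fun z _ => (M.F.map (algebraMap E R)).mulVec z ∈ W')
      ?_ ?_ ?_ ?_ hy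
    · rintro _ ⟨i, rfl⟩
      exact Submodule.subset_span ⟨i, rfl⟩
    · rw [Matrix.mulVec_zero]
      exact Submodule.zero_mem _
    · intro a b _ _ ha hb
      rw [Matrix.mulVec_add]
      exact Submodule.add_mem _ ha hb
    · intro a b _ hb
      rw [Matrix.mulVec_smul]
      exact Submodule.smul_mem _ _ hb
  have hx : x ∈ Submodule.span R (Set.range v) := by
    rw [v.span_eq]
    exact Submodule.mem_top
  refine (Submodule.span_le.2 ?_) hx
  rintro _ ⟨i, rfl⟩
  have hi : v i ∈ M.H (t i) := by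
    rw [hv]
    exact Submodule.subset_span ⟨i, rfl, rfl⟩
  by_cases h1 : 2 * t i = M.w
  · rw [h0 _ h1, Submodule.mem_bot] at hi
    rw [hi]
    exact Submodule.zero_mem _
  · rcases hS _ h1 with h2 | h2
    · exact Submodule.mem_sup_left (hHS _ h2 hi)
    · refine Submodule.mem_sup_right ?_
      have h3 := hFW _ (hHS _ h2 (M.swap _ _ hi))
      rwa [Matrix.mulVec_mulVec, FF_map, Matrix.one_mulVec] at h3

/-- the matrix with the columns `v i` and `F v i` -/
def halfMat (M : PMot E R) {κ : Type} (u : κ → Fin M.N → R) : Matrix (Fin M.N) (κ ⊕ κ) R :=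
  fun l i => Sum.elim (fun j => u j l) (fun j => (M.F.map (algebraMap E R)).mulVec (u j) l) i

lemma halfMat_inl (M : PMot E R) {κ : Type} (u : κ → Fin M.N → R) (j : κ) :
    (halfMat M u).col (Sum.inl j) = u j := rfl

lemma halfMat_inr (M : PMot E R) {κ : Type} (u : κ → Fin M.N → R) (j : κ) :
    (halfMat M u).col (Sum.inr j) = (M.F.map (algebraMap E R)).mulVec (u j) := rfl

lemma halfMat_surj (M : PMot E R) (h0 : M.NoMiddle) (v : Basis (Fin M.N) R (Fin M.N → R))
    (t : Fin M.N → ℤ) (hv : ∀ p, M.H p = Submodule.span R (v '' {j | t j = p})) (S : ℤ → Prop)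
    [DecidablePred S] (hS : ∀ r, 2 * r ≠ M.w → S r ∨ S (M.w - r)) :
    Function.Surjective (halfMat M (fun i : {i // S (t i)} => v i)).mulVecLin := by
  rw [← LinearMap.range_eq_top, eq_top_iff]
  intro x _
  have h1 := half_spans M h0 v t hv S hS x
  have hle : ∀ A B C : Submodule R (Fin M.N → R), A ≤ C → B ≤ C → A ⊔ B ≤ C :=
    fun A B C => sup_le
  refine hle _ _ _ ?_ ?_ h1
  · rw [Submodule.span_le]
    rintro _ ⟨i, rfl⟩
    refine ⟨Pi.single (Sum.inl i) 1, ?_⟩
    rw [Matrix.mulVecLin_apply, Matrix.mulVec_single_one, halfMat_inl]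
  · rw [Submodule.span_le]
    rintro _ ⟨i, rfl⟩
    refine ⟨Pi.single (Sum.inr i) 1, ?_⟩
    rw [Matrix.mulVecLin_apply, Matrix.mulVec_single_one, halfMat_inr]

/-- a basis of Hodge classes permuted by `F_∞` -/
theorem exists_Yh [Nontrivial R] (M : PMot E R) (h0 : M.NoMiddle) :
    ∃ (κ : Type) (_ : Fintype κ) (_ : DecidableEq κ) (τ : κ ⊕ κ → ℤ)
      (Y : Matrix (Fin M.N) (κ ⊕ κ) R) (Y' : Matrix (κ ⊕ κ) (Fin M.N) R),
      Y * Y' = 1 ∧ Y' * Y = 1 ∧ (∀ i, Y.col i ∈ M.H (τ i)) ∧
      M.F.map (algebraMap E R) * Y =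
        Y * (Matrix.fromBlocks 0 1 1 0 : Matrix (κ ⊕ κ) (κ ⊕ κ) R) := by
  obtain ⟨v, t, hv⟩ := id M.hodge
  have hs1 := halfMat_surj M h0 v t hv (fun r => 2 * r < M.w) (by intro r hr; omega)
  have hs2 := halfMat_surj M h0 v t hv (fun r => M.w < 2 * r) (by intro r hr; omega)
  have hc1 := card_le_of_surjective R _ hs1
  have hc2 := card_le_of_surjective R _ hs2
  simp only [Fintype.card_fin, Fintype.card_sum, Fintype.card_subtype] at hc1 hc2
  have hne : ∀ i, 2 * t i ≠ M.w := by
    intro i hi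
    have h1 : v i ∈ M.H (t i) := by
      rw [hv]
      exact Submodule.subset_span ⟨i, rfl, rfl⟩
    rw [h0 _ hi, Submodule.mem_bot] at h1
    exact v.ne_zero i h1
  have hsum : (Finset.univ.filter fun i => 2 * t i < M.w).card +
      (Finset.univ.filter fun i => M.w < 2 * t i).card = M.N := by
    have h1 := Finset.card_filter_add_card_filter_not (s := (Finset.univ : Finset (Fin M.N)))
      (fun i => 2 * t i < M.w)
    rw [Finset.card_univ, Fintype.card_fin] at h1
    refine Eq.trans ?_ h1
    congr 2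
    ext i
    simp only [Finset.mem_filter, Finset.mem_univ, true_and]
    have := hne i
    omega
  set u : {i // 2 * t i < M.w} → Fin M.N → R := fun i => v i with hu
  refine ⟨{i // 2 * t i < M.w}, inferInstance, inferInstance,
    Sum.elim (fun i => t i) (fun i => M.w - t i), halfMat M u, ?_⟩
  choose f hf using fun j : Fin M.N => hs1 (Pi.single j 1)
  let Y' : Matrix ({i // 2 * t i < M.w} ⊕ {i // 2 * t i < M.w}) (Fin M.N) R := fun i j => f j i
  have h1 : halfMat M u * Y' = 1 := by
    ext i j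
    rw [Matrix.one_eq_pi_single, Pi.single_comm]
    exact congrFun (hf j) i
  refine ⟨Y', h1, ?_, ?_, ?_⟩
  · refine (Matrix.mul_eq_one_comm_of_card_eq _ _ _ ?_).1 h1
    rw [Fintype.card_fin, Fintype.card_sum, Fintype.card_subtype]
    omega
  · rintro (i | i)
    · rw [halfMat_inl, Sum.elim_inl, hv]
      exact Submodule.subset_span ⟨i, rfl, rfl⟩
    · rw [halfMat_inr, Sum.elim_inr]
      refine M.swap _ _ ?_
      rw [hv]
      exact Submodule.subset_span ⟨i, rfl, rfl⟩
  · let u' : Matrix (Fin M.N) {i // 2 * t i < M.w} R := fun l i => u i l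
    have h2 : halfMat M u = Matrix.fromCols u' (M.F.map (algebraMap E R) * u') := by
      ext l (i | i) <;> rfl
    rw [h2, Matrix.mul_fromCols, ← Matrix.mul_assoc, FF_map, Matrix.one_mul,
      Matrix.fromCols_mul_fromBlocks, Matrix.mul_zero, Matrix.mul_zero, Matrix.mul_one,
      Matrix.mul_one, zero_add, add_zero]

end Pool.Agent.Helper1.SP
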