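import Pool.Agent.Helper1.SP.Fil
import Pool.Agent.Helper1.SP.Core

/-!
# The operator `J` in coordinates
-/

set_option autoImplicit false
set_option linter.unusedSectionVars false

namespace Pool.Agent.Helper1.SP

open Pool.Agent.X33.DP Pool.Agent.X33.DP.PMot Matrix Module

variable {E R : Type} [Field E] [CommRing R] [Algebra E R]

/-- the sign of `2 r - w` -/
def sg (M : PMot E R) (r : ℤ) : ℤ := (2 * r - M.w).sign

lemma sg_swap (M : PMot E R) (r : ℤ) : sg M (M.w - r) = -sg M r := by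
  rw [sg, sg, ← Int.sign_neg]
  congr 1
  ring

lemma sg_sq (M : PMot E R) {r : ℤ} (h : 2 * r ≠ M.w) : sg M r * sg M r = 1 := by
  rcases lt_trichotomy (2 * r - M.w) 0 with h1 | h1 | h1
  · rw [sg, Int.sign_eq_neg_one_of_neg h1]
    rfl
  · exact absurd (by linarith) h
  · rw [sg, Int.sign_eq_one_of_pos h1]
    rfl

/-- a vector is a sum of Hodge classes -/
lemma ext_H (M : PMot E R) {n : ℕ} {A B : Matrix (Fin n) (Fin M.N) R}
    (h : ∀ r, ∀ x ∈ M.H r, A.mulVec x = B.mulVec x) : A = B := by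
  obtain ⟨v, t, hv⟩ := M.hodge
  have h1 : A.mulVecLin = B.mulVecLin := by
    refine v.ext fun i => ?_
    refine h (t i) _ ?_
    rw [hv]
    exact Submodule.subset_span ⟨i, rfl, rfl⟩
  have h2 := LinearMap.congr_fun h1
  ext i j
  have h3 := congrFun (h2 (Pi.single j 1)) i
  rw [Matrix.mulVecLin_apply, Matrix.mulVecLin_apply, Matrix.mulVec_single_one,
    Matrix.mulVec_single_one] at h3
  exact h3

/-- the operator `J` -/
lemma exists_J (M : PMot E R) : ∃ J : Matrix (Fin M.N) (Fin M.N) R,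
    ∀ r, ∀ x ∈ M.H r, J.mulVec x = sg M r • x := by
  obtain ⟨v, t, hv⟩ := M.hodge
  let f : (Fin M.N → R) →ₗ[R] (Fin M.N → R) := v.constr R (fun i => sg M (t i) • v i)
  have hf : ∀ i, f (v i) = sg M (t i) • v i := fun i => Basis.constr_basis _ _ _ _
  refine ⟨LinearMap.toMatrix' f, fun r x hx => ?_⟩
  rw [LinearMap.toMatrix'_mulVec]
  rw [hv] at hx
  refine Submodule.span_induction (p := fun z _ => f z = sg M r • z) ?_ ?_ ?_ ?_ hx
  · rintro _ ⟨i, hi, rfl⟩
    rw [hf, show t i = r from hi]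
  · rw [map_zero, smul_zero]
  · intro a b _ _ ha hb
    rw [map_add, ha, hb, smul_add]
  · intro a b _ hb
    rw [map_smul, hb, smul_comm]

section

variable {M : PMot E R} {J : Matrix (Fin M.N) (Fin M.N) R}
  (hJ : ∀ r, ∀ x ∈ M.H r, J.mulVec x = sg M r • x)

include hJ

lemma J_sq (h0 : M.NoMiddle) : J * J = 1 := by
  refine ext_H M fun r x hx => ?_
  rw [← Matrix.mulVec_mulVec, hJ r x hx, Matrix.mulVec_smul, hJ r x hx, smul_smul,
    Matrix.one_mulVec]
  by_cases h : 2 * r = M.w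
  · rw [h0 r h, Submodule.mem_bot] at hx
    rw [hx, smul_zero]
  · rw [sg_sq M h, one_smul]

lemma J_F : J * M.F.map (algebraMap E R) = -(M.F.map (algebraMap E R) * J) := by
  refine ext_H M fun r x hx => ?_
  rw [← Matrix.mulVec_mulVec, hJ _ _ (M.swap r x hx), Matrix.neg_mulVec, ← Matrix.mulVec_mulVec,
    hJ r x hx, sg_swap, neg_smul, Matrix.mulVec_smul]

lemma Q_J (h0 : M.NoMiddle) {n : ℕ} {Q : Matrix (Fin n) (Fin M.N) E}
    (hQ : LinearMap.ker Q.mulVecLin = M.fil ((M.w + 1) / 2)) :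
    Q.map (algebraMap E R) * M.P * J = -(Q.map (algebraMap E R) * M.P) := by
  refine ext_H M fun r x hx => ?_
  rw [← Matrix.mulVec_mulVec, hJ r x hx, Matrix.mulVec_smul, Matrix.neg_mulVec]
  rcases lt_trichotomy (2 * r - M.w) 0 with h1 | h1 | h1
  · rw [sg, Int.sign_eq_neg_one_of_neg h1, neg_one_smul]
  · rw [h0 r (by linarith), Submodule.mem_bot] at hx
    rw [hx, Matrix.mulVec_zero, smul_zero, neg_zero]
  · rw [Q_kill M hQ (by linarith) hx, smul_zero, neg_zero]

variable [CharZero E]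

omit hJ in
lemma map_half (M : PMot E R) (s : ℤˣ) :
    ((2⁻¹ : E) • (1 + ((s : ℤ) : E) • M.F)).map (algebraMap E R) =
      (algebraMap E R 2⁻¹) • (1 + ((s : ℤ) : R) • M.F.map (algebraMap E R)) := by
  ext i j
  simp only [Matrix.map_apply, Matrix.smul_apply, Matrix.add_apply, smul_eq_mul, map_mul, map_add,
    map_intCast, Matrix.one_apply, apply_ite (algebraMap E R), map_one, map_zero]

/-- `J` maps the eigenspaces to each other -/
lemma J_half (s : ℤˣ) :
    J * ((2⁻¹ : E) • (1 + ((s : ℤ) : E) • M.F)).map (algebraMap E R) =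
      ((2⁻¹ : E) • (1 + (((-s : ℤˣ) : ℤ) : E) • M.F)).map (algebraMap E R) * J := by
  rw [map_half, map_half, Matrix.mul_smul, Matrix.smul_mul, Matrix.mul_add, Matrix.add_mul,
    Matrix.mul_smul, Matrix.smul_mul, J_F hJ, Matrix.mul_one, Matrix.one_mul, Units.val_neg,
    Int.cast_neg, neg_smul, smul_neg]

end

end Pool.Agent.Helper1.SP
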