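import Pool.Agent.Helper1.SP.HN
import Pool.Agent.Helper1.SP.Bet
import Pool.Agent.Helper1.SP.Expo2

/-!
# The periods of Schur functors of motives with two Hodge types
-/

set_option autoImplicit false
set_option linter.unusedSectionVars false

namespace Pool.Agent.Helper1.SP

open Pool.Agent.X33.DP Pool.Agent.X33.DP.PMot Matrix Module

variable {E R : Type} [Field E] [CommRing R] [Algebra E R] [CharZero E] [Nontrivial R]

lemma det_mul3 {ι κ : Type} [Fintype ι] [Fintype κ] [DecidableEq ι] [DecidableEq κ] (e : ι ≃ κ)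
    (W : Matrix ι κ E) (P : Matrix κ κ R) (U : Matrix κ ι E) :
    ∃ a : E, (W.map (algebraMap E R) * P * U.map (algebraMap E R)).det =
      algebraMap E R a * P.det := by
  refine ⟨(W.submatrix id e).det * (U.submatrix e id).det, ?_⟩
  have h1 : W.map (algebraMap E R) * P * U.map (algebraMap E R) =
      (W.submatrix id e).map (algebraMap E R) * P.submatrix e e *
        (U.submatrix e id).map (algebraMap E R) := by
    have h2 : (W.submatrix id e).map (algebraMap E R) =
        (W.map (algebraMap E R)).submatrix id e := rfl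
    have h3 : (U.submatrix e id).map (algebraMap E R) =
        (U.map (algebraMap E R)).submatrix e id := rfl
    rw [h2, h3, Matrix.submatrix_mul_equiv, Matrix.submatrix_mul_equiv, Matrix.submatrix_id_id]
  rw [h1, Matrix.det_mul, Matrix.det_mul, Matrix.det_submatrix_equiv_self, map_mul,
    RingHom.map_det, RingHom.map_det, RingHom.mapMatrix_apply, RingHom.mapMatrix_apply]
  ring

/-- the period relation -/
theorem periodRelation {M T : PMot E R} {p q : ℤ} (hM : TwoTypes M p q) {k : ℕ} (hk : Odd k)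
    {c : Equiv.Perm (Fin k) → E} {β δ : Matrix (Fin T.N) (Fin k → Fin M.N) E}
    (hT : IsSchur M T k c β) (hD : IsSchurDR M T k c β δ) :
    T.NoMiddle ∧
    T.dim 1 = halfSum k (fun j => hodgeNumber T (((k - j : ℕ) : ℤ) * p + (j : ℤ) * q)) ∧
    ∃ x y z : ℕ,
      M.dim 1 * x = evenSum k (fun j => hodgeNumber T (((k - j : ℕ) : ℤ) * p + (j : ℤ) * q)) ∧
      M.dim 1 * y = oddSum k (fun j => hodgeNumber T (((k - j : ℕ) : ℤ) * p + (j : ℤ) * q)) ∧
      M.dim 1 * z = lowSum k (fun j => hodgeNumber T (((k - j : ℕ) : ℤ) * p + (j : ℤ) * q)) ∧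
      PeriodRelation M T x y z := by
  obtain ⟨γ, hβγ, hγβ⟩ := hT.betti
  obtain ⟨γ', hδγ, hγδ⟩ := hD.deRham
  -- bases
  have main : ∀ s : ℤˣ, ∃ (B B' : Matrix (Fin M.N) (Fin (M.dim 1)) E)
      (C C' Q : Matrix (Fin (M.dim 1)) (Fin M.N) E) (V BF : Matrix (Fin M.N) (Fin (M.dim 1)) E)
      (QF : Matrix (Fin (M.dim 1)) (Fin M.N) E), Frame M s (M.dim 1) B C Q V ∧
        Frame M (-s) (M.dim 1) B' C' Q V ∧ Q * BF = 0 ∧ QF * BF = 1 ∧ QF * V = 0 ∧
        V * Q + BF * QF = 1 := by
    intro s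
    obtain ⟨n, B, B', C, C', Q, V, hn, hF, hF'⟩ := exists_frames M hM.noMiddle s
    obtain ⟨BF, QF, h1, h2, h3, h4⟩ := exists_BF hF.QV hF.dim
    subst hn
    exact ⟨B, B', C, C', Q, V, BF, QF, hF, hF', h1, h2, h3, h4⟩
  have hc0 : sym (Fin M.N) c * sym (Fin M.N) c = sym (Fin M.N) c := by
    conv_lhs => rw [← hγβ]
    rw [← hγβ, Matrix.mul_assoc, ← Matrix.mul_assoc β, hβγ, Matrix.one_mul]
  have hexp : sym (Fin (M.dim 1) ⊕ Fin (M.dim 1)) c * sym (Fin (M.dim 1) ⊕ Fin (M.dim 1)) c =
      sym (Fin (M.dim 1) ⊕ Fin (M.dim 1)) c ∧ (∀ j ≤ k,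
      gtr (Fin (M.dim 1)) (Fin (M.dim 1)) c j =
        (hodgeNumber T (((k - j : ℕ) : ℤ) * p + (j : ℤ) * q) : E)) ∧ T.NoMiddle ∧
      (sym (Fin (M.dim 1) ⊕ Fin (M.dim 1)) c).trace = (T.N : E) := by
    obtain ⟨B, B', C, C', Q, V, BF, QF, hF, hF', hQBF, hQFBF, hQFV, hsum⟩ := main 1
    obtain ⟨Y, Y', l₁, l₂, hYY', hY'Y, hp, hq, hY⟩ := exists_Y hM hF.ker hF.dim hQBF hsum
    obtain ⟨hU, hU'⟩ := frame_inv hF.CB hF'.CB hF.BC hF'.BC
    refine ⟨sym_idem_transport c hU hU' hc0, fun j hj =>
      (hodgeNumber_eq hM hT hβγ hγβ hYY' hY'Y hp hq hj).symm,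
      noMiddle_of_odd hM hk hT hβγ hγβ hYY' hY'Y hp hq, ?_⟩
    rw [trace_sym_transport c hU hU', ← hγβ, Matrix.trace_mul_comm, hβγ, Matrix.trace_one,
      Fintype.card_fin]
  obtain ⟨hc, hgtr, h0, htrN⟩ := hexp
  obtain ⟨x, y, z, w, hx, hy, hz, he1, he2, he3⟩ := exponents c hk hc
    (h := fun j => hodgeNumber T (((k - j : ℕ) : ℤ) * p + (j : ℤ) * q)) hgtr
  refine ⟨h0, ?_, x, y, z, hx, hy, hz, ?_⟩
  · obtain ⟨m, BT, BT', CT, CT', QT, VT, hm, hFT, hFT'⟩ := exists_frames T h0 1
    have h1 := trace_half (J := Fin (M.dim 1)) c hk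
    rw [htrN, hFT.dim, hm, Nat.cast_add, ← two_mul] at h1
    have h2 := mul_left_cancel₀ two_ne_zero h1
    have h3 : ((halfSum k (fun j => hodgeNumber T (((k - j : ℕ) : ℤ) * p + (j : ℤ) * q)) : ℕ) : E)
        = (eps (Fin (M.dim 1)) (Fin (M.dim 1)) c (fun j => 2 * j < k)).trace := by
      rw [trace_eps, halfSum, Finset.sum_filter, Nat.cast_sum, Finset.sum_range_succ,
        if_neg (show ¬ 2 * k < k by omega), add_zero]
      refine Finset.sum_congr rfl fun j hj => ?_
      rw [Finset.mem_range] at hj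
      rw [hgtr j (by omega)]
      split_ifs <;> simp
    have h4 := h3.trans h2
    exact_mod_cast h4.symm
  intro s c₁ c₂ t hc₁ hc₂ ht
  obtain ⟨B, B', C, C', Q, V, BF, QF, hF, hF', hQBF, hQFBF, hQFV, hsum⟩ := main s
  obtain ⟨m, BT, BT', CT, CT', QT, VT, hm, hFT, hFT'⟩ := exists_frames T h0 s
  obtain ⟨hB1, hB2⟩ := betti_same hk hβγ hγβ hT.frob hF.CB hF'.CB hF.BC hF'.BC hFT.CB hFT.BC
  obtain ⟨S, hS1, hS2⟩ := deRham_proj hk hM hT hD hδγ hγδ hF.QV hF.ker hF.dim hQBF hQFBF hQFV hsum
    hFT.ker hFT.QV hFT.dim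
  obtain ⟨hU, hU'⟩ := frame_inv hF.CB hF'.CB hF.BC hF'.BC
  have hZW : Matrix.fromCols V BF * Matrix.fromRows Q QF = 1 := by
    rw [Matrix.fromCols_mul_fromRows, hsum]
  have hu1 : IsUnit (Q.map (algebraMap E R) * M.P * B.map (algebraMap E R)).det :=
    isUnit_isPeriod hM.noMiddle hF.per
  have hu2 : IsUnit (Q.map (algebraMap E R) * M.P * B'.map (algebraMap E R)).det :=
    isUnit_isPeriod hM.noMiddle hF'.per
  have hcore := core (R := R) hS1 hS2 hc (fun i j hij hj => by omega) hB1 hB2 (he1 R) (he2 R)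
    (Q.map (algebraMap E R) * M.P * B.map (algebraMap E R))
    (Q.map (algebraMap E R) * M.P * B'.map (algebraMap E R))
    (QF.map (algebraMap E R) * M.P * B.map (algebraMap E R))
    (QF.map (algebraMap E R) * M.P * B'.map (algebraMap E R)) hu1 hu2
  set A := (Q.map (algebraMap E R) * M.P * B.map (algebraMap E R)).det with hA
  set A' := (Q.map (algebraMap E R) * M.P * B'.map (algebraMap E R)).det with hA'
  -- the matrix `X`
  have hX : Matrix.fromBlocks (Q.map (algebraMap E R) * M.P * B.map (algebraMap E R))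
      (Q.map (algebraMap E R) * M.P * B'.map (algebraMap E R))
      (QF.map (algebraMap E R) * M.P * B.map (algebraMap E R))
      (QF.map (algebraMap E R) * M.P * B'.map (algebraMap E R)) =
      (Matrix.fromRows Q QF).map (algebraMap E R) * M.P *
        (Matrix.fromCols B B').map (algebraMap E R) := by
    have e1 : (Matrix.fromRows Q QF).map (algebraMap E R) =
        Matrix.fromRows (Q.map (algebraMap E R)) (QF.map (algebraMap E R)) := by
      ext (i | i) j <;> rfl
    have e2 : (Matrix.fromCols B B').map (algebraMap E R) =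
        Matrix.fromCols (B.map (algebraMap E R)) (B'.map (algebraMap E R)) := by
      ext i (j | j) <;> rfl
    rw [e1, e2, Matrix.fromRows_mul, Matrix.fromRows_mul_fromCols]
  obtain ⟨a, ha⟩ := det_mul3 (R := R) (finSumFinEquiv.trans (finCongr hF.dim.symm))
    (Matrix.fromRows Q QF) M.P (Matrix.fromCols B B')
  rw [← hX] at ha
  rw [ha] at hcore
  -- the left hand side is the period of `T`
  have hL : (QT * δ * tp k (Matrix.fromCols V BF)).map (algebraMap E R) *
      tp k (Matrix.fromBlocks (Q.map (algebraMap E R) * M.P * B.map (algebraMap E R))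
      (Q.map (algebraMap E R) * M.P * B'.map (algebraMap E R))
      (QF.map (algebraMap E R) * M.P * B.map (algebraMap E R))
      (QF.map (algebraMap E R) * M.P * B'.map (algebraMap E R))) *
      (tp k (Matrix.fromRows C C') * γ * BT).map (algebraMap E R) =
      QT.map (algebraMap E R) * T.P * BT.map (algebraMap E R) := by
    rw [hX]
    have e1 : tp k ((Matrix.fromCols V BF).map (algebraMap E R)) *
        tp k ((Matrix.fromRows Q QF).map (algebraMap E R)) = 1 := by
      rw [← tp_mul, ← Matrix.map_mul, hZW, map_one', tp_one]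
    have e2 : tp k ((Matrix.fromCols B B').map (algebraMap E R)) *
        tp k ((Matrix.fromRows C C').map (algebraMap E R)) = 1 := by
      rw [← tp_mul, ← Matrix.map_mul, hU, map_one', tp_one]
    rw [Matrix.map_mul, Matrix.map_mul, Matrix.map_mul, Matrix.map_mul, tp_map, tp_map, tp_mul,
      tp_mul]
    calc QT.map (algebraMap E R) * δ.map (algebraMap E R) *
          tp k ((Matrix.fromCols V BF).map (algebraMap E R)) *
          (tp k ((Matrix.fromRows Q QF).map (algebraMap E R)) * tp k M.P *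
            tp k ((Matrix.fromCols B B').map (algebraMap E R))) *
          (tp k ((Matrix.fromRows C C').map (algebraMap E R)) * γ.map (algebraMap E R) *
            BT.map (algebraMap E R))
        = QT.map (algebraMap E R) * δ.map (algebraMap E R) *
          (tp k ((Matrix.fromCols V BF).map (algebraMap E R)) *
          tp k ((Matrix.fromRows Q QF).map (algebraMap E R))) * tp k M.P *
          (tp k ((Matrix.fromCols B B').map (algebraMap E R)) *
          tp k ((Matrix.fromRows C C').map (algebraMap E R))) * γ.map (algebraMap E R) *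
            BT.map (algebraMap E R) := by simp only [Matrix.mul_assoc]
      _ = QT.map (algebraMap E R) * (δ.map (algebraMap E R) * tp k M.P) *
            γ.map (algebraMap E R) * BT.map (algebraMap E R) := by
          rw [e1, e2, Matrix.mul_one, Matrix.mul_one]
          simp only [Matrix.mul_assoc]
      _ = QT.map (algebraMap E R) * T.P * (β.map (algebraMap E R) * γ.map (algebraMap E R)) *
            BT.map (algebraMap E R) := by
          rw [← hD.comparison]
          simp only [Matrix.mul_assoc]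
      _ = _ := by rw [← Matrix.map_mul, hβγ, map_one', Matrix.mul_one]
  rw [hL] at hcore
  set τ := (QT.map (algebraMap E R) * T.P * BT.map (algebraMap E R)).det with hτ
  set e₀ := (QT * δ * tp k (Matrix.fromCols V BF) *
    tp k (Matrix.fromBlocks 1 1 0 1 : Matrix (Fin (M.dim 1) ⊕ Fin (M.dim 1)) (Fin (M.dim 1) ⊕ Fin (M.dim 1)) E) *
    (tp k (Matrix.fromRows C C') * γ * BT)).det with he₀
  have hτ' : τ = algebraMap E R (e₀ * a ^ z) * (A ^ x * A' ^ y * M.P.det ^ z) := by
    refine ((hu1.mul hu2).pow z).mul_right_cancel ?_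
    rw [hcore, map_mul, map_pow]
    ring
  obtain ⟨e₁, -, h1⟩ := Mot.period_unique _ (toMot_isPeriod hF.per) (toMot_isPeriod hc₁)
  obtain ⟨e₂, -, h2⟩ := Mot.period_unique _ (toMot_isPeriod hF'.per) (toMot_isPeriod hc₂)
  obtain ⟨e₃, -, h3⟩ := Mot.period_unique _ (toMot_isPeriod ht) (toMot_isPeriod hFT.per)
  have h4 : t = algebraMap E R (e₃ * (e₀ * a ^ z) * (e₁ ^ x * e₂ ^ y)) *
      (c₁ ^ x * c₂ ^ y * M.P.det ^ z) := by
    rw [h3, ← hτ, hτ', hA, hA', h1, h2]
    simp only [map_mul, map_pow, mul_pow]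
    ring
  refine ⟨_, ?_, h4⟩
  intro h5
  rw [h5, map_zero, zero_mul] at h4
  have h6 := isUnit_isPeriod h0 ht
  rw [h4] at h6
  exact not_isUnit_zero h6

/-- Deligne's formula for `T` in terms of the periods of `M` -/
theorem formulaRelation {M T : PMot E R} (hT : T.NoMiddle) {x y z : ℕ}
    (h : PeriodRelation M T x y z) (τ : ℤ → R) : FormulaRelation τ M T x y z := by
  intro m v c c' hc hc'
  rw [Formula, dim_eq hT _ 1]
  constructor
  · intro hF
    obtain ⟨t, ht⟩ := T.exists_isPeriod hT ((-1) ^ m)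
    obtain ⟨e, he⟩ := hF t ht
    obtain ⟨e', -, he'⟩ := h _ c c' t hc hc' ht
    refine ⟨e * e', ?_⟩
    rw [he, he', map_mul]
    ring
  · rintro ⟨e, he⟩ t ht
    obtain ⟨e', h0, he'⟩ := h _ c c' t hc hc' ht
    refine ⟨e * e'⁻¹, ?_⟩
    have h1 : algebraMap E R e'⁻¹ * algebraMap E R e' = 1 := by
      rw [← map_mul, inv_mul_cancel₀ h0, map_one]
    rw [he, he', map_mul]
    linear_combination (-(algebraMap E R e * τ (m * T.dim 1) *
      (c ^ x * c' ^ y * M.P.det ^ z))) * h1

end Pool.Agent.Helper1.SP
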