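import Pool.Agent.Helper1.SP.Hdg
import Pool.Agent.Helper1.SP.Bet
import Pool.Agent.Helper1.SP.Tr

/-!
# The operators `J` of `M` and of `T`
-/

set_option autoImplicit false
set_option linter.unusedSectionVars false

namespace Pool.Agent.Helper1.SP

open Pool.Agent.X33.DP Pool.Agent.X33.DP.PMot Matrix Module

variable {E R : Type} [Field E] [CommRing R] [Algebra E R] [CharZero E]

section

variable {M : PMot E R} {J : Matrix (Fin M.N) (Fin M.N) R}
  {s : ℤˣ} {n : ℕ} {B B' : Matrix (Fin M.N) (Fin n) E} {C C' : Matrix (Fin n) (Fin M.N) E}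

/-- an operator which exchanges the eigenspaces -/
lemma J_push (hJF : J * ((2⁻¹ : E) • (1 + ((s : ℤ) : E) • M.F)).map (algebraMap E R) =
      ((2⁻¹ : E) • (1 + (((-s : ℤˣ) : ℤ) : E) • M.F)).map (algebraMap E R) * J)
    (hCB : C * B = 1) (h : B * C = (2⁻¹ : E) • (1 + ((s : ℤ) : E) • M.F))
    (h' : B' * C' = (2⁻¹ : E) • (1 + (((-s : ℤˣ) : ℤ) : E) • M.F)) :
    J * B.map (algebraMap E R) =
      B'.map (algebraMap E R) * (C'.map (algebraMap E R) * J * B.map (algebraMap E R)) := by
  have h1 : B.map (algebraMap E R) = B.map (algebraMap E R) * C.map (algebraMap E R) *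
      B.map (algebraMap E R) := by
    rw [Matrix.mul_assoc, ← Matrix.map_mul, hCB, map_one', Matrix.mul_one]
  calc J * B.map (algebraMap E R)
      = J * (B.map (algebraMap E R) * C.map (algebraMap E R)) * B.map (algebraMap E R) := by
        rw [Matrix.mul_assoc, ← h1]
    _ = (B'.map (algebraMap E R) * C'.map (algebraMap E R)) * J * B.map (algebraMap E R) := by
        rw [← Matrix.map_mul, h, hJF, ← h', Matrix.map_mul]
    _ = _ := by simp only [Matrix.mul_assoc]

/-- the two blocks of `J` are inverse to each other -/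
lemma J_inv (hJJ : J * J = 1)
    (hJF : J * ((2⁻¹ : E) • (1 + (((-s : ℤˣ) : ℤ) : E) • M.F)).map (algebraMap E R) =
      ((2⁻¹ : E) • (1 + ((s : ℤ) : E) • M.F)).map (algebraMap E R) * J)
    (hCB' : C' * B' = 1) (h : B * C = (2⁻¹ : E) • (1 + ((s : ℤ) : E) • M.F))
    (h' : B' * C' = (2⁻¹ : E) • (1 + (((-s : ℤˣ) : ℤ) : E) • M.F)) :
    (C'.map (algebraMap E R) * J * B.map (algebraMap E R)) *
      (C.map (algebraMap E R) * J * B'.map (algebraMap E R)) = 1 := by
  have h1 := J_push (s := -s) (B := B') (B' := B) (C := C') (C' := C) (J := J)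
    (by rw [neg_neg]; exact hJF) hCB' h' (by rw [neg_neg]; exact h)
  calc (C'.map (algebraMap E R) * J * B.map (algebraMap E R)) *
      (C.map (algebraMap E R) * J * B'.map (algebraMap E R))
      = C'.map (algebraMap E R) * J * (B.map (algebraMap E R) *
          (C.map (algebraMap E R) * J * B'.map (algebraMap E R))) := by
        simp only [Matrix.mul_assoc]
    _ = C'.map (algebraMap E R) * (J * J) * B'.map (algebraMap E R) := by
        rw [← h1]
        simp only [Matrix.mul_assoc]
    _ = 1 := by rw [hJJ, Matrix.mul_one, ← Matrix.map_mul, hCB', map_one']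

/-- `J` does not map an eigenspace to itself -/
lemma J_zero (hJF : J * ((2⁻¹ : E) • (1 + ((s : ℤ) : E) • M.F)).map (algebraMap E R) =
      ((2⁻¹ : E) • (1 + (((-s : ℤˣ) : ℤ) : E) • M.F)).map (algebraMap E R) * J)
    (hCB : C * B = 1) (hCB' : C' * B' = 1) (h : B * C = (2⁻¹ : E) • (1 + ((s : ℤ) : E) • M.F))
    (h' : B' * C' = (2⁻¹ : E) • (1 + (((-s : ℤˣ) : ℤ) : E) • M.F)) :
    C.map (algebraMap E R) * J * B.map (algebraMap E R) = 0 := by
  rw [Matrix.mul_assoc, J_push hJF hCB h h', ← Matrix.mul_assoc, ← Matrix.map_mul,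
    CB_zero hCB hCB' h h', Matrix.map_zero _ (map_zero _), Matrix.zero_mul]

/-- the ratio of the periods is the determinant of `J` -/
lemma det_J {Q : Matrix (Fin n) (Fin M.N) E}
    (hQJ : Q.map (algebraMap E R) * M.P * J = -(Q.map (algebraMap E R) * M.P))
    (hJF : J * ((2⁻¹ : E) • (1 + ((s : ℤ) : E) • M.F)).map (algebraMap E R) =
      ((2⁻¹ : E) • (1 + (((-s : ℤˣ) : ℤ) : E) • M.F)).map (algebraMap E R) * J)
    (hCB : C * B = 1) (h : B * C = (2⁻¹ : E) • (1 + ((s : ℤ) : E) • M.F))
    (h' : B' * C' = (2⁻¹ : E) • (1 + (((-s : ℤˣ) : ℤ) : E) • M.F)) :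
    (Q.map (algebraMap E R) * M.P * B.map (algebraMap E R)).det =
      (-1) ^ n * ((Q.map (algebraMap E R) * M.P * B'.map (algebraMap E R)).det *
        (C'.map (algebraMap E R) * J * B.map (algebraMap E R)).det) := by
  have h1 : Q.map (algebraMap E R) * M.P * B.map (algebraMap E R) =
      -((Q.map (algebraMap E R) * M.P * B'.map (algebraMap E R)) *
        (C'.map (algebraMap E R) * J * B.map (algebraMap E R))) := by
    calc Q.map (algebraMap E R) * M.P * B.map (algebraMap E R)
        = -((Q.map (algebraMap E R) * M.P * J) * B.map (algebraMap E R)) := by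
          rw [hQJ, Matrix.neg_mul, neg_neg]
      _ = -((Q.map (algebraMap E R) * M.P) * (J * B.map (algebraMap E R))) := by
          rw [Matrix.mul_assoc _ J]
      _ = _ := by
          rw [J_push hJF hCB h h']
          simp only [Matrix.mul_assoc]
  rw [h1, Matrix.det_neg, Matrix.det_mul, Fintype.card_fin]

end

section

variable {k : ℕ} {I : Type} [Fintype I] [DecidableEq I] {c : Equiv.Perm (Fin k) → E}
  {P P' : ℕ → Prop} [DecidablePred P] [DecidablePred P'] {m : Type} [Fintype m] [DecidableEq m]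

/-- the determinant of the tensor power of an antidiagonal matrix -/
lemma core2 {a : Matrix m (Fin k → I ⊕ I) E} {b : Matrix (Fin k → I ⊕ I) m E}
    (hab : a * b = 1) (hba : b * a = eps I I c P)
    {a' : Matrix m (Fin k → I ⊕ I) E} {b' : Matrix (Fin k → I ⊕ I) m E}
    (hab' : a' * b' = 1) (hba' : b' * a' = eps I I c P') (j j' : Matrix I I R) :
    (a.map (algebraMap E R) * tp k (Matrix.fromBlocks 0 j' j 0) *
      b'.map (algebraMap E R)).det =
      dE c P R (1 : Matrix I I R) j * (algebraMap E R (a * tp k (Matrix.fromBlocks 0 1 1 0 :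
        Matrix (I ⊕ I) (I ⊕ I) E) * b').det * dE c P' R (1 : Matrix I I R) j') := by
  have hX : (Matrix.fromBlocks 0 j' j 0 : Matrix (I ⊕ I) (I ⊕ I) R) =
      Matrix.fromBlocks 1 0 0 j * (Matrix.fromBlocks 0 1 1 0 * Matrix.fromBlocks 1 0 0 j') := by
    simp only [Matrix.fromBlocks_multiply, Matrix.mul_zero, Matrix.zero_mul, Matrix.one_mul,
      Matrix.mul_one, add_zero, zero_add]
  obtain ⟨X, hX0⟩ : ∃ X : Matrix (I ⊕ I) (I ⊕ I) R, X = Matrix.fromBlocks 0 1 1 0 := ⟨_, rfl⟩
  rw [← hX0] at hX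
  have habm : a.map (algebraMap E R) * b.map (algebraMap E R) = 1 := by
    rw [← Matrix.map_mul, hab, map_one']
  have habm' : a'.map (algebraMap E R) * b'.map (algebraMap E R) = 1 := by
    rw [← Matrix.map_mul, hab', map_one']
  have hbam : b.map (algebraMap E R) * a.map (algebraMap E R) =
      eps I I (fun σ => algebraMap E R (c σ)) P := by
    rw [← Matrix.map_mul, hba, eps_map]
  have hbam' : b'.map (algebraMap E R) * a'.map (algebraMap E R) =
      eps I I (fun σ => algebraMap E R (c σ)) P' := by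
    rw [← Matrix.map_mul, hba', eps_map]
  have hcomm := tp_eps (fun σ => algebraMap E R (c σ)) P (1 : Matrix I I R) j
  have hcomm' := tp_eps (fun σ => algebraMap E R (c σ)) P' (1 : Matrix I I R) j'
  have hD := det_block (R := R) hab hba 1 j
  have hD' := det_block (R := R) hab' hba' 1 j'
  obtain ⟨D, hD0⟩ : ∃ D : Matrix (I ⊕ I) (I ⊕ I) R, D = Matrix.fromBlocks 1 0 0 j := ⟨_, rfl⟩
  obtain ⟨D', hD0'⟩ : ∃ D : Matrix (I ⊕ I) (I ⊕ I) R, D = Matrix.fromBlocks 1 0 0 j' := ⟨_, rfl⟩
  rw [← hD0, ← hD0'] at hX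
  rw [← hD0] at hcomm hD
  rw [← hD0'] at hcomm' hD'
  have e1 : a.map (algebraMap E R) * tp k D =
      a.map (algebraMap E R) * tp k D * b.map (algebraMap E R) * a.map (algebraMap E R) := by
    symm
    calc a.map (algebraMap E R) * tp k D * b.map (algebraMap E R) * a.map (algebraMap E R)
        = a.map (algebraMap E R) * (tp k D *
            (b.map (algebraMap E R) * a.map (algebraMap E R))) := by
          simp only [Matrix.mul_assoc]
      _ = a.map (algebraMap E R) * (b.map (algebraMap E R) * a.map (algebraMap E R)) *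
            tp k D := by
          rw [hbam, hcomm, Matrix.mul_assoc]
      _ = _ := by rw [← Matrix.mul_assoc, habm, Matrix.one_mul]
  have e3 : b'.map (algebraMap E R) * a'.map (algebraMap E R) * tp k D' *
      b'.map (algebraMap E R) = tp k D' * b'.map (algebraMap E R) := by
    rw [hbam', ← hcomm', ← hbam', Matrix.mul_assoc, Matrix.mul_assoc (b'.map (algebraMap E R)),
      habm', Matrix.mul_one]
  have hfac : a.map (algebraMap E R) * (tp k D * (tp k X * tp k D')) * b'.map (algebraMap E R) =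
      (a.map (algebraMap E R) * tp k D * b.map (algebraMap E R)) *
      ((a.map (algebraMap E R) * tp k X * b'.map (algebraMap E R)) *
      (a'.map (algebraMap E R) * tp k D' * b'.map (algebraMap E R))) := by
    calc a.map (algebraMap E R) * (tp k D * (tp k X * tp k D')) * b'.map (algebraMap E R)
        = (a.map (algebraMap E R) * tp k D) * tp k X *
          (tp k D' * b'.map (algebraMap E R)) := by
          simp only [Matrix.mul_assoc]
      _ = (a.map (algebraMap E R) * tp k D * b.map (algebraMap E R) *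
          a.map (algebraMap E R)) * tp k X *
          (b'.map (algebraMap E R) * a'.map (algebraMap E R) *
            tp k D' * b'.map (algebraMap E R)) := by
          rw [e3, ← e1]
      _ = _ := by simp only [Matrix.mul_assoc]
  have hE : (a.map (algebraMap E R) * tp k X * b'.map (algebraMap E R)).det =
      algebraMap E R (a * tp k (Matrix.fromBlocks 0 1 1 0 :
        Matrix (I ⊕ I) (I ⊕ I) E) * b').det := by
    rw [RingHom.map_det, RingHom.mapMatrix_apply, Matrix.map_mul, Matrix.map_mul, tp_map, hX0]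
    congr 3
    rw [Matrix.fromBlocks_map, map_one', Matrix.map_zero _ (map_zero _)]
  rw [hX, tp_mul, tp_mul, hfac, Matrix.det_mul, Matrix.det_mul, hE, hD, hD']

end

lemma tp_neg {ι κ : Type} [Fintype ι] [Fintype κ] [DecidableEq ι] [DecidableEq κ] (k : ℕ) (X : Matrix ι κ R) :
    tp k (-X) = (-1 : R) ^ k • tp k X := by
  ext f g
  rw [Matrix.smul_apply, tp_apply, tp_apply, smul_eq_mul]
  simp only [Matrix.neg_apply]
  rw [Finset.prod_neg, Finset.card_univ, Fintype.card_fin]

section

variable {M T : PMot E R} {k : ℕ} {c : Equiv.Perm (Fin k) → E}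
  {β : Matrix (Fin T.N) (Fin k → Fin M.N) E} {γ : Matrix (Fin k → Fin M.N) (Fin T.N) E}

/-- the operator `J_M ⊗ … ⊗ J_M` on `T` -/
def opK (k : ℕ) (β : Matrix (Fin T.N) (Fin k → Fin M.N) E)
    (γ : Matrix (Fin k → Fin M.N) (Fin T.N) E) (J : Matrix (Fin M.N) (Fin M.N) R) :
    Matrix (Fin T.N) (Fin T.N) R :=
  β.map (algebraMap E R) * tp k J * γ.map (algebraMap E R)

lemma beta_sym (hβγ : β * γ = 1) (hγβ : γ * β = sym (Fin M.N) c) :
    β.map (algebraMap E R) * sym (Fin M.N) (fun σ => algebraMap E R (c σ)) =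
      β.map (algebraMap E R) := by
  rw [← sym_map, ← hγβ, Matrix.map_mul, ← Matrix.mul_assoc, ← Matrix.map_mul, hβγ, map_one',
    Matrix.one_mul]

lemma opK_mul (hβγ : β * γ = 1) (hγβ : γ * β = sym (Fin M.N) c)
    (J J' : Matrix (Fin M.N) (Fin M.N) R) :
    opK k β γ J * opK k β γ J' = opK k β γ (J * J') := by
  have h1 : γ.map (algebraMap E R) * β.map (algebraMap E R) =
      sym (Fin M.N) (fun σ => algebraMap E R (c σ)) := by
    rw [← Matrix.map_mul, hγβ, sym_map]
  calc opK k β γ J * opK k β γ J'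
      = β.map (algebraMap E R) * tp k J * (γ.map (algebraMap E R) * β.map (algebraMap E R)) *
          tp k J' * γ.map (algebraMap E R) := by
        simp only [opK, Matrix.mul_assoc]
    _ = β.map (algebraMap E R) * (tp k J * sym (Fin M.N) (fun σ => algebraMap E R (c σ))) *
          tp k J' * γ.map (algebraMap E R) := by
        rw [h1]
        simp only [Matrix.mul_assoc]
    _ = (β.map (algebraMap E R) * sym (Fin M.N) (fun σ => algebraMap E R (c σ))) * (tp k J *
          tp k J') * γ.map (algebraMap E R) := by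
        rw [tp_sym]
        simp only [Matrix.mul_assoc]
    _ = _ := by rw [beta_sym hβγ hγβ, ← tp_mul, opK]

lemma opK_one (hβγ : β * γ = 1) : opK k β γ (1 : Matrix (Fin M.N) (Fin M.N) R) = 1 := by
  rw [opK, tp_one, Matrix.mul_one, ← Matrix.map_mul, hβγ, map_one']

lemma opK_F (hβγ : β * γ = 1) (hfrob : T.F * β = β * tp k M.F) :
    opK k β γ (M.F.map (algebraMap E R)) = T.F.map (algebraMap E R) := by
  rw [opK, ← tp_map, ← Matrix.map_mul, ← hfrob, ← Matrix.map_mul, Matrix.mul_assoc, hβγ,
    Matrix.mul_one]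

lemma opK_neg (hk : Odd k) (J : Matrix (Fin M.N) (Fin M.N) R) :
    opK k β γ (-J) = -opK k β γ J := by
  rw [opK, opK, tp_neg, hk.neg_one_pow, neg_one_smul, Matrix.mul_neg, Matrix.neg_mul]

/-- `K` anticommutes with `F_∞` -/
lemma opK_half (hk : Odd k) (hβγ : β * γ = 1) (hγβ : γ * β = sym (Fin M.N) c)
    (hfrob : T.F * β = β * tp k M.F) {J : Matrix (Fin M.N) (Fin M.N) R}
    (hJF : J * M.F.map (algebraMap E R) = -(M.F.map (algebraMap E R) * J)) (s : ℤˣ) :
    opK k β γ J * ((2⁻¹ : E) • (1 + ((s : ℤ) : E) • T.F)).map (algebraMap E R) =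
      ((2⁻¹ : E) • (1 + (((-s : ℤˣ) : ℤ) : E) • T.F)).map (algebraMap E R) * opK k β γ J := by
  have h1 : opK k β γ J * T.F.map (algebraMap E R) = -(T.F.map (algebraMap E R) * opK k β γ J) := by
    rw [← opK_F hβγ hfrob, opK_mul hβγ hγβ, opK_mul hβγ hγβ, hJF, opK_neg hk]
  rw [map_half, map_half, Matrix.mul_smul, Matrix.smul_mul, Matrix.mul_add, Matrix.add_mul,
    Matrix.mul_smul, Matrix.smul_mul, h1, Matrix.mul_one, Matrix.one_mul, Units.val_neg,
    Int.cast_neg, neg_smul, smul_neg]

end

end Pool.Agent.Helper1.SP
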