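import Pool.Agent.Helper1.SP.Ratio
import Pool.Agent.Helper1.SP.Expo2

/-!
# The ratio of the periods of a Schur functor
-/

set_option autoImplicit false
set_option linter.unusedSectionVars false

namespace Pool.Agent.Helper1.SP

open Pool.Agent.X33.DP Pool.Agent.X33.DP.PMot Matrix Module

variable {E R : Type} [Field E] [CommRing R] [Algebra E R]

lemma tp_diagonal {ι : Type} [Fintype ι] [DecidableEq ι] (k : ℕ) (d : ι → R) :
    tp k (Matrix.diagonal d) = Matrix.diagonal (fun f => ∏ i, d (f i)) := by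
  ext f g
  rw [tp_apply, Matrix.diagonal_apply]
  split_ifs with h
  · subst h
    refine Finset.prod_congr rfl fun i _ => ?_
    rw [Matrix.diagonal_apply_eq]
  · obtain ⟨i, hi⟩ := Function.ne_iff.1 h
    exact Finset.prod_eq_zero (Finset.mem_univ i) (Matrix.diagonal_apply_ne _ hi)

/-- an operator acting by scalars on the columns of a matrix -/
lemma mul_eq_mul_diagonal {N : ℕ} {ι : Type} [Fintype ι] [DecidableEq ι]
    {A : Matrix (Fin N) (Fin N) R} {Y : Matrix (Fin N) ι R} {d : ι → ℤ}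
    (h : ∀ i, A.mulVec (Y.col i) = d i • Y.col i) :
    A * Y = Y * Matrix.diagonal (fun i => (d i : R)) := by
  ext l i
  rw [Matrix.mul_diagonal, mul_comm]
  have h1 := congrFun (h i) l
  rw [Pi.smul_apply, zsmul_eq_mul] at h1
  exact h1

variable [CharZero E] [Nontrivial R]

section

variable {M T : PMot E R} {k : ℕ} {c : Equiv.Perm (Fin k) → E}
  {β : Matrix (Fin T.N) (Fin k → Fin M.N) E} {γ : Matrix (Fin k → Fin M.N) (Fin T.N) E}

/-- the operator `J_T K` has a determinant in `E` on the eigenspaces -/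
lemma det_D (hM : M.NoMiddle) (hT : IsSchur M T k c β) (hβγ : β * γ = 1)
    (hγβ : γ * β = sym (Fin M.N) c) {J : Matrix (Fin M.N) (Fin M.N) R}
    {JT : Matrix (Fin T.N) (Fin T.N) R} (hJ : ∀ r, ∀ x ∈ M.H r, J.mulVec x = sg M r • x)
    (hJT : ∀ r, ∀ x ∈ T.H r, JT.mulVec x = sg T r • x) {t : ℤˣ} {m : ℕ}
    {BT : Matrix (Fin T.N) (Fin m) E} {CT : Matrix (Fin m) (Fin T.N) E} (hCB : CT * BT = 1)
    (hBC : BT * CT = (2⁻¹ : E) • (1 + ((t : ℤ) : E) • T.F)) :
    ∃ e : E, (CT.map (algebraMap E R) * (JT * opK k β γ J) * BT.map (algebraMap E R)).det =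
      algebraMap E R e := by
  obtain ⟨κ, _, _, τ, Y, Y', hYY', hY'Y, hYH, hYF⟩ := exists_Yh M hM
  set F' : Matrix (κ ⊕ κ) (κ ⊕ κ) E := Matrix.fromBlocks 0 1 1 0 with hF'
  have hF'm : F'.map (algebraMap E R) = Matrix.fromBlocks 0 1 1 0 := by
    rw [hF', Matrix.fromBlocks_map, map_one', Matrix.map_zero _ (map_zero _)]
  rw [← hF'm] at hYF
  set cm : Equiv.Perm (Fin k) → R := fun σ => algebraMap E R (c σ) with hcm
  set βm := β.map (algebraMap E R) with hβm
  set γm := γ.map (algebraMap E R) with hγm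
  set b := βm * tp k Y with hb
  set g := tp k Y' * γm with hg
  have hβγm : βm * γm = 1 := by rw [hβm, hγm, ← Matrix.map_mul, hβγ, map_one']
  have hγβm : γm * βm = sym (Fin M.N) cm := by
    rw [hβm, hγm, ← Matrix.map_mul, hγβ, sym_map]
  have hβs : βm * sym (Fin M.N) cm = βm := beta_sym hβγ hγβ
  have hbg : b * g = 1 := by
    calc b * g = βm * (tp k Y * tp k Y') * γm := by simp only [hb, hg, Matrix.mul_assoc]
      _ = 1 := by rw [← tp_mul, hYY', tp_one, Matrix.mul_one, hβγm]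
  have hgb : g * b = sym (κ ⊕ κ) cm := by
    calc g * b = tp k Y' * (γm * βm) * tp k Y := by simp only [hb, hg, Matrix.mul_assoc]
      _ = sym (κ ⊕ κ) cm := by
          rw [hγβm, tp_sym, Matrix.mul_assoc, ← tp_mul, hY'Y, tp_one, Matrix.mul_one]
  set D1 : Matrix (Fin k → κ ⊕ κ) (Fin k → κ ⊕ κ) R :=
    Matrix.diagonal (fun f => ∏ i, ((sg M (τ (f i)) : ℤ) : R)) with hD1
  set D2 : Matrix (Fin k → κ ⊕ κ) (Fin k → κ ⊕ κ) R :=
    Matrix.diagonal (fun f => ((sg T (∑ i, τ (f i)) : ℤ) : R)) with hD2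
  have hKb : opK k β γ J * b = b * D1 := by
    have h1 : J * Y = Y * Matrix.diagonal (fun i => ((sg M (τ i) : ℤ) : R)) :=
      mul_eq_mul_diagonal (fun i => hJ _ _ (hYH i))
    calc opK k β γ J * b = βm * tp k J * (γm * βm) * tp k Y := by
          simp only [hb, opK, hβm, hγm, Matrix.mul_assoc]
      _ = (βm * sym (Fin M.N) cm) * (tp k J * tp k Y) := by
          rw [hγβm, Matrix.mul_assoc βm, tp_sym]
          simp only [Matrix.mul_assoc]
      _ = _ := by rw [hβs, ← tp_mul, h1, tp_mul, tp_diagonal, hb, Matrix.mul_assoc]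
  have hJTb : JT * b = b * D2 := by
    refine mul_eq_mul_diagonal (fun f => hJT _ _ ?_)
    have h1 := hT.hodge (fun i => τ (f i)) (fun i => Y.col (f i)) (fun i => hYH (f i))
    exact h1
  set Δ : Matrix (Fin k → κ ⊕ κ) (Fin k → κ ⊕ κ) E := Matrix.diagonal (fun f =>
    ((sg T (∑ i, τ (f i)) * ∏ i, sg M (τ (f i)) : ℤ) : E)) with hΔ
  have hΔm : Δ.map (algebraMap E R) = D2 * D1 := by
    rw [hΔ, hD1, hD2, Matrix.diagonal_map (map_zero _), Matrix.diagonal_mul_diagonal]
    congr 1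
    funext f
    rw [map_intCast, Int.cast_mul, Int.cast_prod]
  have hDb : JT * opK k β γ J * b = b * Δ.map (algebraMap E R) := by
    rw [Matrix.mul_assoc, hKb, ← Matrix.mul_assoc, hJTb, Matrix.mul_assoc, hΔm]
  set Pe : Matrix (Fin k → κ ⊕ κ) (Fin k → κ ⊕ κ) E :=
    (2⁻¹ : E) • (1 + ((t : ℤ) : E) • tp k F') with hPe
  have hFb : T.F.map (algebraMap E R) * b = b * (tp k F').map (algebraMap E R) := by
    calc T.F.map (algebraMap E R) * b = (T.F * β).map (algebraMap E R) * tp k Y := by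
          rw [Matrix.map_mul, hb, Matrix.mul_assoc]
      _ = βm * (tp k (M.F.map (algebraMap E R)) * tp k Y) := by
          rw [hT.frob, Matrix.map_mul, tp_map, Matrix.mul_assoc]
      _ = b * (tp k F').map (algebraMap E R) := by
          rw [← tp_mul, hYF, tp_mul, tp_map, hb, Matrix.mul_assoc]
  have hPb : (BT * CT).map (algebraMap E R) * b = b * Pe.map (algebraMap E R) := by
    have h1 : Pe.map (algebraMap E R) =
        (algebraMap E R 2⁻¹) • (1 + ((t : ℤ) : R) • (tp k F').map (algebraMap E R)) := by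
      ext i j
      simp only [hPe, Matrix.map_apply, Matrix.smul_apply, Matrix.add_apply, smul_eq_mul, map_mul,
        map_add, map_intCast, Matrix.one_apply, apply_ite (algebraMap E R), map_one, map_zero]
    rw [hBC, map_half, h1, Matrix.smul_mul, Matrix.mul_smul, Matrix.add_mul, Matrix.mul_add,
      Matrix.smul_mul, Matrix.mul_smul, hFb, Matrix.one_mul, Matrix.mul_one]
  refine ⟨(1 + (Δ - 1) * Pe * sym (κ ⊕ κ) c).det, ?_⟩
  rw [det_compress (by rw [← Matrix.map_mul, hCB, map_one']), ← Matrix.map_mul]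
  have h2 : (JT * opK k β γ J - 1) * (BT * CT).map (algebraMap E R) =
      b * ((Δ.map (algebraMap E R) - 1) * Pe.map (algebraMap E R) * g) := by
    calc (JT * opK k β γ J - 1) * (BT * CT).map (algebraMap E R)
        = (JT * opK k β γ J - 1) * ((BT * CT).map (algebraMap E R) * b) * g := by
          rw [Matrix.mul_assoc, Matrix.mul_assoc, hbg, Matrix.mul_one]
      _ = ((JT * opK k β γ J - 1) * b) * Pe.map (algebraMap E R) * g := by
          rw [hPb]
          simp only [Matrix.mul_assoc]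
      _ = _ := by
          rw [Matrix.sub_mul, hDb, Matrix.one_mul, ← Matrix.mul_one b, Matrix.mul_assoc b 1,
            Matrix.one_mul, ← Matrix.mul_sub, Matrix.mul_one]
          simp only [Matrix.mul_assoc]
  rw [h2, Matrix.det_one_add_mul_comm, Matrix.mul_assoc _ g b, hgb, RingHom.map_det]
  congr 1
  rw [RingHom.mapMatrix_apply, Matrix.map_add _ (map_add _), Matrix.map_mul, Matrix.map_mul,
    Matrix.map_sub _ (map_sub _), map_one', sym_map]

/-- the ratio of the periods of `T` -/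
theorem ratioPower (hM : M.NoMiddle) (hT0 : T.NoMiddle) (hk : Odd k) (hT : IsSchur M T k c β) :
    ∃ x y : ℕ, M.dim 1 * x = evenSum k (gradedDim (M.dim 1) c) ∧
      M.dim 1 * y = oddSum k (gradedDim (M.dim 1) c) ∧ RatioPower M T x y := by
  obtain ⟨γ, hβγ, hγβ⟩ := hT.betti
  have hc0 : sym (Fin M.N) c * sym (Fin M.N) c = sym (Fin M.N) c := by
    conv_lhs => rw [← hγβ]
    rw [← hγβ, Matrix.mul_assoc, ← Matrix.mul_assoc β, hβγ, Matrix.one_mul]
  have main : ∀ s : ℤˣ, ∃ (B B' : Matrix (Fin M.N) (Fin (M.dim 1)) E)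
      (C C' Q : Matrix (Fin (M.dim 1)) (Fin M.N) E) (V : Matrix (Fin M.N) (Fin (M.dim 1)) E),
        Frame M s (M.dim 1) B C Q V ∧ Frame M (-s) (M.dim 1) B' C' Q V := by
    intro s
    obtain ⟨n, B, B', C, C', Q, V, hn, hF, hF'⟩ := exists_frames M hM s
    subst hn
    exact ⟨B, B', C, C', Q, V, hF, hF'⟩
  have hc : sym (Fin (M.dim 1) ⊕ Fin (M.dim 1)) c * sym (Fin (M.dim 1) ⊕ Fin (M.dim 1)) c =
      sym (Fin (M.dim 1) ⊕ Fin (M.dim 1)) c := by
    obtain ⟨B, B', C, C', Q, V, hF, hF'⟩ := main 1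
    obtain ⟨hU, hU'⟩ := frame_inv hF.CB hF'.CB hF.BC hF'.BC
    exact sym_idem_transport c hU hU' hc0
  obtain ⟨x, y, z, w, hx, hy, -, -, he2, he3⟩ := exponents c hk hc
    (h := gradedDim (M.dim 1) c) (fun j _ => by
      rw [gtr, trace_idem (eps_eps c (fun i => i = j) hc), gradedDim])
  refine ⟨x, y, hx, hy, ?_⟩
  intro s c₁ c₂ t₁ t₂ hc₁ hc₂ ht₁ ht₂
  obtain ⟨B, B', C, C', Q, V, hF, hF'⟩ := main s
  obtain ⟨m, BT, BT', CT, CT', QT, VT, hm, hFT, hFT'⟩ := exists_frames T hT0 s
  obtain ⟨hU, hU'⟩ := frame_inv hF.CB hF'.CB hF.BC hF'.BC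
  obtain ⟨J, hJ⟩ := exists_J M
  obtain ⟨JT, hJT⟩ := exists_J T
  have hss : B * C = (2⁻¹ : E) • (1 + (((- -s : ℤˣ) : ℤ) : E) • M.F) := by
    rw [neg_neg]
    exact hF.BC
  -- `M`
  have hJs := J_half hJ s
  have hJs' : J * ((2⁻¹ : E) • (1 + (((-s : ℤˣ) : ℤ) : E) • M.F)).map (algebraMap E R) =
      ((2⁻¹ : E) • (1 + ((s : ℤ) : E) • M.F)).map (algebraMap E R) * J := by
    have h1 := J_half hJ (-s)
    rwa [neg_neg] at h1
  have hJ1 := det_J (Q_J hJ hM hF.ker) hJs hF.CB hF.BC hF'.BC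
  have hinv := J_inv (J_sq hJ hM) hJs' hF'.CB hF.BC hF'.BC
  have hz1 := J_zero hJs hF.CB hF'.CB hF.BC hF'.BC
  have hz2 := J_zero (s := -s) (B := B') (B' := B) (C := C') (C' := C) (J := J)
    (by rw [neg_neg]; exact hJs') hF'.CB hF.CB hF'.BC hss
  set j := C'.map (algebraMap E R) * J * B.map (algebraMap E R) with hj
  set j' := C.map (algebraMap E R) * J * B'.map (algebraMap E R) with hj'
  have hUJU : (Matrix.fromRows C C').map (algebraMap E R) * J *
      (Matrix.fromCols B B').map (algebraMap E R) = Matrix.fromBlocks 0 j' j 0 := by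
    have e1 : (Matrix.fromRows C C').map (algebraMap E R) =
        Matrix.fromRows (C.map (algebraMap E R)) (C'.map (algebraMap E R)) := by
      ext (i | i) j <;> rfl
    have e2 : (Matrix.fromCols B B').map (algebraMap E R) =
        Matrix.fromCols (B.map (algebraMap E R)) (B'.map (algebraMap E R)) := by
      ext i (j | j) <;> rfl
    rw [e1, e2, Matrix.fromRows_mul, Matrix.fromRows_mul_fromCols, hz1, hz2]
  -- `T`
  have hT1 := det_J (Q_J hJT hT0 hFT.ker) (J_half hJT s) hFT.CB hFT.BC hFT'.BC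
  have hKK : opK k β γ J * opK k β γ J = 1 := by
    rw [opK_mul hβγ hγβ, J_sq hJ hM, opK_one hβγ]
  have hKs := opK_half hk hβγ hγβ hT.frob (J_F hJ) s
  obtain ⟨e, he⟩ := det_D hM hT hβγ hγβ hJ hJT hFT'.CB hFT'.BC
  have hsplit : CT'.map (algebraMap E R) * JT * BT.map (algebraMap E R) =
      (CT'.map (algebraMap E R) * (JT * opK k β γ J) * BT'.map (algebraMap E R)) *
        (CT'.map (algebraMap E R) * opK k β γ J * BT.map (algebraMap E R)) := by
    have h1 : opK k β γ J * BT.map (algebraMap E R) = BT'.map (algebraMap E R) *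
        (CT'.map (algebraMap E R) * opK k β γ J * BT.map (algebraMap E R)) :=
      J_push hKs hFT.CB hFT.BC hFT'.BC
    calc CT'.map (algebraMap E R) * JT * BT.map (algebraMap E R)
        = CT'.map (algebraMap E R) * JT * (opK k β γ J * opK k β γ J) *
            BT.map (algebraMap E R) := by rw [hKK, Matrix.mul_one]
      _ = CT'.map (algebraMap E R) * (JT * opK k β γ J) *
            (opK k β γ J * BT.map (algebraMap E R)) := by simp only [Matrix.mul_assoc]
      _ = _ := by
          rw [h1]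
          simp only [Matrix.mul_assoc]
  obtain ⟨hB1, hB2⟩ := betti_same hk hβγ hγβ hT.frob hF.CB hF'.CB hF.BC hF'.BC hFT.CB hFT.BC
  obtain ⟨hB3, hB4⟩ := betti_opp hk hβγ hγβ hT.frob hF.CB hF'.CB hF.BC hF'.BC hFT'.CB hFT'.BC
  have hcore := core2 (R := R) hB3 hB4 hB1 hB2 j j'
  rw [he2 R, he3 R, Matrix.det_one, one_pow, one_pow, one_mul, one_mul, ← hUJU] at hcore
  set e' := (CT' * β * tp k (Matrix.fromCols B B') * tp k (Matrix.fromBlocks 0 1 1 0 :
    Matrix (Fin (M.dim 1) ⊕ Fin (M.dim 1)) (Fin (M.dim 1) ⊕ Fin (M.dim 1)) E) *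
    (tp k (Matrix.fromRows C C') * γ * BT)).det with he'
  have hK : (CT' * β * tp k (Matrix.fromCols B B')).map (algebraMap E R) *
      tp k ((Matrix.fromRows C C').map (algebraMap E R) * J *
      (Matrix.fromCols B B').map (algebraMap E R)) *
      (tp k (Matrix.fromRows C C') * γ * BT).map (algebraMap E R) =
      CT'.map (algebraMap E R) * opK k β γ J * BT.map (algebraMap E R) := by
    have e2 : tp k ((Matrix.fromCols B B').map (algebraMap E R)) *
        tp k ((Matrix.fromRows C C').map (algebraMap E R)) = 1 := by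
      rw [← tp_mul, ← Matrix.map_mul, hU, map_one', tp_one]
    rw [Matrix.map_mul, Matrix.map_mul, Matrix.map_mul, Matrix.map_mul, tp_map, tp_map, tp_mul,
      tp_mul]
    calc CT'.map (algebraMap E R) * β.map (algebraMap E R) *
          tp k ((Matrix.fromCols B B').map (algebraMap E R)) *
          (tp k ((Matrix.fromRows C C').map (algebraMap E R)) * tp k J *
          tp k ((Matrix.fromCols B B').map (algebraMap E R))) *
          (tp k ((Matrix.fromRows C C').map (algebraMap E R)) * γ.map (algebraMap E R) *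
          BT.map (algebraMap E R))
        = CT'.map (algebraMap E R) * β.map (algebraMap E R) *
          (tp k ((Matrix.fromCols B B').map (algebraMap E R)) *
          tp k ((Matrix.fromRows C C').map (algebraMap E R))) * tp k J *
          (tp k ((Matrix.fromCols B B').map (algebraMap E R)) *
          tp k ((Matrix.fromRows C C').map (algebraMap E R))) * γ.map (algebraMap E R) *
          BT.map (algebraMap E R) := by simp only [Matrix.mul_assoc]
      _ = _ := by
          rw [e2, Matrix.mul_one, Matrix.mul_one, opK]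
          simp only [Matrix.mul_assoc]
  rw [hK] at hcore
  rw [hsplit, Matrix.det_mul, he, hcore] at hT1
  -- the relation between the chosen periods
  have hjj : j.det * j'.det = 1 := by rw [← Matrix.det_mul, hinv, Matrix.det_one]
  set A := (Q.map (algebraMap E R) * M.P * B.map (algebraMap E R)).det with hA
  set A' := (Q.map (algebraMap E R) * M.P * B'.map (algebraMap E R)).det with hA'
  set D := (QT.map (algebraMap E R) * T.P * BT.map (algebraMap E R)).det with hD
  set D' := (QT.map (algebraMap E R) * T.P * BT'.map (algebraMap E R)).det with hD'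
  have hsg : ∀ l : ℕ, ((-1 : R) ^ l) * (-1) ^ l = 1 := fun l => by
    rw [← mul_pow, neg_one_mul, neg_neg, one_pow]
  have hA2 : A' = (-1) ^ (M.dim 1) * (A * j'.det) := by
    rw [hJ1]
    linear_combination (-A') * hsg (M.dim 1) - ((-1) ^ (M.dim 1) * (-1) ^ (M.dim 1) * A') * hjj
  have hpow : j.det ^ (z + x) * j'.det ^ (z + y) = j.det ^ x * j'.det ^ y := by
    rw [pow_add, pow_add]
    calc j.det ^ z * j.det ^ x * (j'.det ^ z * j'.det ^ y)
        = (j.det * j'.det) ^ z * (j.det ^ x * j'.det ^ y) := by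
          rw [mul_pow]
          ring
      _ = _ := by rw [hjj, one_pow, one_mul]
  have hAx : A' ^ x * j.det ^ x = ((-1) ^ (M.dim 1)) ^ x * A ^ x := by
    rw [hJ1, ← mul_pow, ← mul_pow]
    congr 1
    linear_combination (-(A' * j.det)) * hsg (M.dim 1)
  have hAy : A ^ y * j'.det ^ y = ((-1) ^ (M.dim 1)) ^ y * A' ^ y := by
    rw [hA2, ← mul_pow, ← mul_pow]
    congr 1
    linear_combination (-(A * j'.det)) * hsg (M.dim 1)
  have hrel : D * (A' ^ x * A ^ y) = algebraMap E R ((-1) ^ m * (e * e') *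
      (((-1) ^ (M.dim 1)) ^ x * ((-1) ^ (M.dim 1)) ^ y)) * (D' * (A ^ x * A' ^ y)) := by
    simp only [map_mul, map_pow, map_neg, map_one]
    rw [hT1]
    calc (-1) ^ m * (D' * (algebraMap E R e * (j.det ^ (z + x) *
          (algebraMap E R e' * j'.det ^ (z + y))))) * (A' ^ x * A ^ y)
        = (-1) ^ m * D' * algebraMap E R e * algebraMap E R e' *
            (j.det ^ (z + x) * j'.det ^ (z + y)) * (A' ^ x * A ^ y) := by ring
      _ = (-1) ^ m * D' * algebraMap E R e * algebraMap E R e' *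
            ((A' ^ x * j.det ^ x) * (A ^ y * j'.det ^ y)) := by
          rw [hpow]
          ring
      _ = _ := by
          rw [hAx, hAy]
          ring
  obtain ⟨e₁, he₁, h1⟩ := Mot.period_unique _ (toMot_isPeriod hc₁) (toMot_isPeriod hF.per)
  obtain ⟨e₂, he₂, h2⟩ := Mot.period_unique _ (toMot_isPeriod hc₂) (toMot_isPeriod hF'.per)
  obtain ⟨e₃, he₃, h3⟩ := Mot.period_unique _ (toMot_isPeriod ht₁) (toMot_isPeriod hFT.per)
  obtain ⟨e₄, he₄, h4⟩ := Mot.period_unique _ (toMot_isPeriod ht₂) (toMot_isPeriod hFT'.per)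
  rw [← hA] at h1
  rw [← hA'] at h2
  rw [← hD] at h3
  rw [← hD'] at h4
  have hu : ∀ e : E, e ≠ 0 → algebraMap E R e⁻¹ * algebraMap E R e = 1 := fun e he => by
    rw [← map_mul, inv_mul_cancel₀ he, map_one]
  have h5 : t₁ * (c₂ ^ x * c₁ ^ y) = algebraMap E R (e₃ * e₄⁻¹ * (e₂ ^ x * (e₁ ^ x)⁻¹) *
      (e₁ ^ y * (e₂ ^ y)⁻¹) * ((-1) ^ m * (e * e') * (((-1) ^ (M.dim 1)) ^ x * ((-1) ^ (M.dim 1)) ^ y))) *
      (t₂ * (c₁ ^ x * c₂ ^ y)) := by
    have k1 := hu e₄ he₄
    have k2 := hu (e₁ ^ x) (pow_ne_zero _ he₁)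
    have k3 := hu (e₂ ^ y) (pow_ne_zero _ he₂)
    rw [h1, h2, h3, h4]
    simp only [mul_pow, ← map_pow]
    calc algebraMap E R e₃ * D * (algebraMap E R (e₂ ^ x) * A' ^ x *
          (algebraMap E R (e₁ ^ y) * A ^ y))
        = algebraMap E R e₃ * algebraMap E R (e₂ ^ x) * algebraMap E R (e₁ ^ y) *
            (D * (A' ^ x * A ^ y)) := by ring
      _ = algebraMap E R e₃ * algebraMap E R (e₂ ^ x) * algebraMap E R (e₁ ^ y) *
            (algebraMap E R ((-1) ^ m * (e * e') *
            (((-1) ^ (M.dim 1)) ^ x * ((-1) ^ (M.dim 1)) ^ y)) * (D' * (A ^ x * A' ^ y))) *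
            ((algebraMap E R e₄⁻¹ * algebraMap E R e₄) *
            (algebraMap E R (e₁ ^ x)⁻¹ * algebraMap E R (e₁ ^ x)) *
            (algebraMap E R (e₂ ^ y)⁻¹ * algebraMap E R (e₂ ^ y))) := by
          rw [hrel, k1, k2, k3]
          ring
      _ = _ := by
          simp only [map_mul]
          ring
  refine ⟨_, ?_, h5⟩
  intro h6
  rw [h6, map_zero, zero_mul] at h5
  have h7 : IsUnit (t₁ * (c₂ ^ x * c₁ ^ y)) := (isUnit_isPeriod hT0 ht₁).mul
    (((isUnit_isPeriod hM hc₂).pow _).mul ((isUnit_isPeriod hM hc₁).pow _))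
  rw [h5] at h7
  exact not_isUnit_zero h7

/-- the transfer of Deligne's formula between integers of opposite parity -/
theorem ratioTransfer (hM : M.NoMiddle) (hT0 : T.NoMiddle) {x y : ℕ} (h : RatioPower M T x y)
    (τ : ℤ → R) (hτ : ∀ k l, τ k * τ l = τ (k + l)) : RatioTransfer τ M T x y := by
  intro m m' c c' v v' hm hc hc' hv hf
  obtain ⟨t, ht⟩ := T.exists_isPeriod hT0 ((-1) ^ m)
  obtain ⟨t', ht'⟩ := T.exists_isPeriod hT0 (-(-1) ^ m)
  have h1 := h _ c c' t t' hc hc' ht ht'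
  have h2 := hf t' (by rw [hm]; exact ht')
  rw [dim_eq hT0 _ 1] at h2
  rw [← formula_algebra τ hτ (isUnit_isPeriod hM hc) (isUnit_isPeriod hM hc') h1 h2 hv]
  constructor
  · intro hF
    have h3 := hF t ht
    rw [dim_eq hT0 _ 1] at h3
    exact h3
  · rintro ⟨e, he⟩ t1 ht1
    obtain ⟨e1, -, h4⟩ := Mot.period_unique _ (toMot_isPeriod ht) (toMot_isPeriod ht1)
    refine ⟨e * e1, ?_⟩
    rw [he, h4, dim_eq hT0 ((-1) ^ m) 1, map_mul]
    ring

end

end Pool.Agent.Helper1.SP
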